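import Pool.Agent.P.MP_7ebcb6_ag.FD.St

/-! The action of field automorphisms of the complex numbers on points and cycles. -/

open scoped LinearAlgebra.Projectivization WithZero
open MvPolynomial Finsupp

namespace Pool.Agent.P.MP_7ebcb6_ag.FD

namespace Act

variable {n : ℕ}

lemma rep_act (σ : ℂ ≃+* ℂ) (x : PP n) :
    ∃ a : ℂ, a ≠ 0 ∧ ∀ i, (act σ x).rep i = a * σ (x.rep i) := by
  obtain ⟨a, ha⟩ := Projectivization.exists_smul_eq_mk_rep ℂ (fun i => σ (x.rep i))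
    (fun h => x.rep_nonzero
      (funext fun i => σ.injective ((congrFun h i).trans (map_zero σ).symm)))
  exact ⟨a, a.ne_zero, fun i => (congrFun ha i).symm⟩

lemma act_mk (σ : ℂ ≃+* ℂ) (r : Fin (n + 1) → ℂ) (h : r ≠ 0) (h' : (fun i => σ (r i)) ≠ 0) :
    act σ (Projectivization.mk ℂ r h) = Projectivization.mk ℂ _ h' := by
  obtain ⟨a, ha⟩ := Projectivization.exists_smul_eq_mk_rep ℂ r h
  unfold act
  rw [Projectivization.mk_eq_mk_iff']
  refine ⟨σ a, funext fun i => ?_⟩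
  rw [← ha]
  simp [Units.smul_def]

lemma act_fix (σ : ℂ ≃+* ℂ) (x : PP n) (h : Fixes σ (Set.range x.rep)) : act σ x = x := by
  unfold act
  conv_rhs => rw [← x.mk_rep]
  congr 1
  exact funext fun i => h _ ⟨i, rfl⟩

lemma aeval_eq {ι : Type} {L : Subfield ℂ} (P : MvPolynomial ι L) (v : ι → ℂ) :
    aeval v P = eval v (map (algebraMap L ℂ) P) := by
  rw [eval_map, aeval_def]

lemma aeval_conj {ι : Type} {L : Subfield ℂ} {σ : ℂ ≃+* ℂ} (h : Fixes σ L) (P : MvPolynomial ι L)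
    (v : ι → ℂ) : aeval (fun i => σ (v i)) P = σ (aeval v P) := by
  induction P using MvPolynomial.induction_on with
  | C a => simp only [aeval_C]; exact (h a.1 a.2).symm
  | add p q hp hq => simp only [map_add, hp, hq]
  | mul_X p i hp => simp only [map_mul, aeval_X, hp]

lemma act_mem {X : Set (PP n)} {L : Subfield ℂ} {σ : ℂ ≃+* ℂ} (hX : DefX L X) (h : Fixes σ L)
    {x : PP n} (hx : x ∈ X) : act σ x ∈ X := by
  refine hX _ fun P d hP h0 => ?_
  obtain ⟨a, -, ha⟩ := rep_act σ x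
  have e : (act σ x).rep = fun i => a * σ (x.rep i) := funext ha
  have h1 := aeval_smul_homog (hP.map (algebraMap L ℂ)) a fun i => σ (x.rep i)
  rw [aeval_map_algebraMap, aeval_map_algebraMap, aeval_conj h, h0 x hx, map_zero, mul_zero] at h1
  rw [e, h1]

lemma curve_iff (K : Type) [Field K] [Algebra ℂ K] : IsCurveField K ↔ ∃ t : K,
    Transcendental ℂ t ∧
      FiniteDimensional (Subfield.closure (Set.range (algebraMap ℂ K) ∪ {t})) K := Iff.rfl

/-- The twisted algebra structure. -/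
@[reducible] noncomputable def tw (K : Type) [Field K] (A : Algebra ℂ K) (σ : ℂ ≃+* ℂ) :
    Algebra ℂ K := ((algebraMap ℂ K).comp σ.symm.toRingHom).toAlgebra

lemma tw_map (K : Type) [Field K] (A : Algebra ℂ K) (σ : ℂ ≃+* ℂ) (c : ℂ) :
    @algebraMap ℂ K _ _ (tw K A σ) c = @algebraMap ℂ K _ _ A (σ.symm c) := rfl

lemma tw_curve (K : Type) [Field K] (A : Algebra ℂ K) (σ : ℂ ≃+* ℂ) (h : @IsCurveField K _ A) :
    @IsCurveField K _ (tw K A σ) := by
  obtain ⟨t, ht, hf⟩ := (curve_iff K).1 h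
  refine (@curve_iff K _ (tw K A σ)).2 ⟨t, ?_, ?_⟩
  · rintro ⟨p, hp0, hp⟩
    refine ht ⟨p.map σ.symm.toRingHom, (Polynomial.map_ne_zero_iff σ.symm.injective).2 hp0, ?_⟩
    rw [Polynomial.aeval_def, Polynomial.eval₂_map]
    exact hp
  · have e : Set.range (@algebraMap ℂ K _ _ (tw K A σ)) = Set.range (@algebraMap ℂ K _ _ A) :=
      σ.symm.surjective.range_comp (@algebraMap ℂ K _ _ A)
    rw [e]
    exact hf

lemma tw_place (K : Type) [Field K] (A : Algebra ℂ K) (σ : ℂ ≃+* ℂ) (v : Valuation K ℤᵐ⁰) :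
    @IsPlace K _ (tw K A σ) v ↔ @IsPlace K _ A v := by
  refine and_congr_right fun _ => ⟨fun h c hc => ?_, fun h c hc => ?_⟩
  · have := h (σ c) ((map_ne_zero σ).2 hc)
    rwa [tw_map, σ.symm_apply_apply] at this
  · rw [tw_map]
    exact h _ ((map_ne_zero σ.symm).2 hc)

lemma tw_value (K : Type) [Field K] (A : Algebra ℂ K) (σ : ℂ ≃+* ℂ) {v : Valuation K ℤᵐ⁰}
    (hv : @IsPlace K _ A v) {η : Fin (n + 1) → K} {x : PP n} (h : @IsValueAt K _ A n v η x) :
    @IsValueAt K _ (tw K A σ) n v η (act σ x) := by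
  obtain ⟨c, hc⟩ := h
  obtain ⟨a, ha0, ha⟩ := rep_act σ x
  refine ⟨algebraMap ℂ K (σ.symm a) * c, fun i => ?_⟩
  rw [tw_map, ha, map_mul σ.symm, σ.symm_apply_apply, map_mul (algebraMap ℂ K), mul_assoc,
    ← mul_sub, map_mul v, hv.2 _ ((map_ne_zero σ.symm).2 ha0), one_mul]
  exact hc i

lemma rat_map {X : Set (PP n)} {σ : ℂ ≃+* ℂ} {s : X → X} (hs : IsAct σ s) {D : X →₀ ℤ}
    (hD : D ∈ ratTrivial X) : mapDomain s D ∈ ratTrivial X := by
  have key : ratTrivial X ≤ (ratTrivial X).comap (mapDomain.addMonoidHom s) := by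
    refine (AddSubgroup.closure_le _).2 ?_
    rintro _ ⟨K, _, A, hK, η, φ, f, S, h1, h2, h3, h4, rfl⟩
    refine AddSubgroup.subset_closure ⟨K, inferInstance, tw K A σ, tw_curve K A σ hK, η,
      fun v => s (φ v), f, S, fun v hv => ?_, h2, fun v hv => (tw_place K A σ v).2 (h3 v hv),
      fun v hv => h4 v ((tw_place K A σ v).1 hv), ?_⟩
    · have hv' := (tw_place K A σ v).1 hv
      have := tw_value K A σ hv' (h1 v hv')
      rwa [← hs] at this
    · rw [map_sum]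
      exact Finset.sum_congr rfl fun v _ => mapDomain_single
  exact key hD

lemma exists_def {X : Set (PP n)} (hX : zariskiClosure X ⊆ X) :
    ∃ T : Set ℂ, T.Countable ∧ ∀ L : Subfield ℂ, T ⊆ L → DefX L X := by
  classical
  let F : Set (MvPolynomial (Fin (n + 1)) ℂ) :=
    {P | (∃ d, P.IsHomogeneous d) ∧ ∀ z ∈ X, eval z.rep P = 0}
  obtain ⟨s, hs, e⟩ := (Submodule.fg_span_iff_fg_span_finset_subset
    (R := MvPolynomial (Fin (n + 1)) ℂ) F).1 (IsNoetherian.noetherian _)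
  refine ⟨⋃ P ∈ s, (P.coeffs : Set ℂ), ?_, fun L hL x hx => hX fun P d hP h0 => ?_⟩
  · exact s.countable_toSet.biUnion fun P _ => P.coeffs.countable_toSet
  · have h1 : Submodule.span (MvPolynomial (Fin (n + 1)) ℂ) (s : Set _) ≤
        RingHom.ker (eval x.rep) := by
      refine Submodule.span_le.2 fun Q hQ => ?_
      obtain ⟨Q', rfl⟩ := (mem_range_map_iff_coeffs_subset (f := algebraMap L ℂ) (x := Q)).2
        fun c hc => ⟨⟨c, hL (Set.mem_biUnion hQ hc)⟩, rfl⟩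
      obtain ⟨⟨d', hd⟩, hz⟩ := hs hQ
      have := hx Q' d' (hd.of_map (algebraMap L ℂ).injective) fun z hz' => by
        rw [aeval_eq]; exact hz z hz'
      rwa [aeval_eq] at this
    exact h1 (e ▸ Submodule.subset_span (show P ∈ F from ⟨⟨d, hP⟩, h0⟩))

end Act

theorem thm_Act : S_Act := fun _ =>
  ⟨Act.act_mk, fun x => ⟨Set.range x.rep, Set.finite_range _, fun σ => Act.act_fix σ x⟩,
    fun _ => ⟨fun _ σ hX h => ⟨fun x => ⟨act σ x.1, Act.act_mem hX h x.2⟩, fun _ => rfl⟩,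
      fun _ _ hs _ hD => Act.rat_map hs hD, Act.exists_def⟩⟩

end Pool.Agent.P.MP_7ebcb6_ag.FD
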