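import Pool.Agent.P.MP_7ebcb6_ag.FD.St

/-! Automorphisms of the complex numbers, fields of definition and generic extension of primes. -/

open MvPolynomial Cardinal
open Pool.Agent.P.MP_68ca4e_ag.M (td)

namespace Pool.Agent.P.MP_7ebcb6_ag.FD

noncomputable section

namespace Aut

theorem exists_algEquiv (R K L : Type) [CommRing R] [IsDomain R] [Field K] [Field L]
    [Algebra R K] [Algebra R L] [FaithfulSMul R K] [FaithfulSMul R L] [IsAlgClosed K]
    [IsAlgClosed L] (hR : #R ≤ ℵ₀) (hK : ℵ₀ < #K) (hKL : #K = #L) :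
    ∃ σ : K ≃+* L, ∀ r, σ (algebraMap R K r) = algebraMap R L r := by
  obtain ⟨s, hs⟩ := exists_isTranscendenceBasis R K
  obtain ⟨t, ht⟩ := exists_isTranscendenceBasis R L
  have h1 := IsAlgClosed.cardinal_eq_cardinal_transcendence_basis_of_aleph0_lt' _ hs hR hK
  have h2 := IsAlgClosed.cardinal_eq_cardinal_transcendence_basis_of_aleph0_lt' _ ht hR
    (hKL ▸ hK)
  obtain ⟨e⟩ := Cardinal.eq.1 (h1.symm.trans (hKL.trans h2))
  let _ := IsAlgClosed.isAlgClosure_of_transcendence_basis _ hs
  let _ := IsAlgClosed.isAlgClosure_of_transcendence_basis _ ht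
  let f := hs.1.aevalEquiv.symm.trans ((MvPolynomial.renameEquiv R e).trans ht.1.aevalEquiv)
  refine ⟨IsAlgClosure.equivOfEquiv K L f.toRingEquiv, fun r => ?_⟩
  rw [IsScalarTower.algebraMap_apply R (Algebra.adjoin R (Set.range ((↑) : s → K))) K,
    IsAlgClosure.equivOfEquiv_algebraMap,
    IsScalarTower.algebraMap_apply R (Algebra.adjoin R (Set.range ((↑) : t → L))) L]
  congr 1
  exact f.commutes r

/-- a copy of the complex numbers -/
def C2 : Type := ℂ

instance : Field C2 := inferInstanceAs (Field ℂ)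
instance : IsAlgClosed C2 := inferInstanceAs (IsAlgClosed ℂ)

theorem exists_ext {R : Type} [CommRing R] [IsDomain R] (hR : #R ≤ ℵ₀) (i f : R →+* ℂ)
    (hi : Function.Injective i) (hf : Function.Injective f) :
    ∃ σ : ℂ ≃+* ℂ, ∀ r, σ (i r) = f r := by
  let _ : Algebra R ℂ := i.toAlgebra
  let _ : Algebra R C2 := RingHom.toAlgebra (S := C2) f
  have _ : FaithfulSMul R ℂ := (faithfulSMul_iff_algebraMap_injective _ _).2 hi
  have _ : FaithfulSMul R C2 := (faithfulSMul_iff_algebraMap_injective _ _).2 hf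
  exact exists_algEquiv R ℂ C2 hR (by rw [Cardinal.mk_complex]; exact aleph0_lt_continuum) rfl

/-- An injective homomorphism into an algebraically closed field extends to an algebraic
extension field. -/
theorem exists_lift {R K Ω : Type} [CommRing R] [IsDomain R] [Field K] [Field Ω] [IsAlgClosed Ω]
    [Algebra R K] [FaithfulSMul R K] [Algebra.IsAlgebraic R K] (f : R →+* Ω)
    (hf : Function.Injective f) : ∃ j : K →+* Ω, ∀ r, j (algebraMap R K r) = f r := by
  let _ : Algebra R Ω := f.toAlgebra
  have _ : FaithfulSMul R Ω := (faithfulSMul_iff_algebraMap_injective _ _).2 hf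
  exact ⟨(IsAlgClosed.lift : K →ₐ[R] Ω).toRingHom,
    fun r => (IsAlgClosed.lift : K →ₐ[R] Ω).commutes r⟩

/-- A second embedding of the complex numbers over `L` that makes a transcendence basis over `L`
independent over the first copy. -/
theorem exists_emb (L : Subfield ℂ) (s : Set ℂ) (hs : IsTranscendenceBasis L ((↑) : s → ℂ)) :
    ∃ (Ω : Type) (_ : Field Ω) (_ : Algebra ℂ Ω) (j : ℂ →+* Ω),
      (∀ c : L, j c = algebraMap ℂ Ω c) ∧ AlgebraicIndependent ℂ fun x : s => j x := by
  let Ω := AlgebraicClosure (FractionRing (MvPolynomial s ℂ))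
  let g : MvPolynomial s ℂ →ₐ[ℂ] Ω := IsScalarTower.toAlgHom ℂ (MvPolynomial s ℂ) Ω
  have hg : Function.Injective g := by
    have h1 : Function.Injective (algebraMap (FractionRing (MvPolynomial s ℂ)) Ω) :=
      RingHom.injective _
    have h2 := IsFractionRing.injective (MvPolynomial s ℂ) (FractionRing (MvPolynomial s ℂ))
    exact h1.comp h2
  let f : Algebra.adjoin L (Set.range ((↑) : s → ℂ)) →+* Ω :=
    (g.toRingHom.comp (map (algebraMap L ℂ))).comp hs.1.aevalEquiv.symm.toRingEquiv.toRingHom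
  have hf : Function.Injective f :=
    (hg.comp (map_injective _ (algebraMap L ℂ).injective)).comp hs.1.aevalEquiv.symm.injective
  have := hs.isAlgebraic
  obtain ⟨j, hj⟩ := exists_lift (K := ℂ) f hf
  have key : ∀ p : MvPolynomial s L, j (aeval ((↑) : s → ℂ) p) = g (map (algebraMap L ℂ) p) :=
    fun p => by
      rw [← hs.1.algebraMap_aevalEquiv, hj]
      simp [f]
  refine ⟨Ω, inferInstance, inferInstance, j, fun c => ?_, ?_⟩
  · have := key (C c)
    rw [aeval_C, map_C, ← MvPolynomial.algebraMap_eq, g.commutes] at this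
    exact this
  · have e : (fun x : s => j x) = g ∘ X := funext fun x => by
      have := key (X x)
      rwa [aeval_X, map_X] at this
    rw [e]
    exact (algebraicIndependent_X s ℂ).map' hg

end Aut

theorem thm_Aut : S_Aut := by
  intro ι _ L hL a b hab
  let I : Ideal (MvPolynomial ι L) := RingHom.ker (aeval a : MvPolynomial ι L →ₐ[L] ℂ).toRingHom
  have hI : I.IsPrime := RingHom.ker_isPrime _
  have hc : #(MvPolynomial ι L ⧸ I) ≤ ℵ₀ := by
    have : Countable L := hL.to_subtype
    refine (Cardinal.mk_le_of_surjective Ideal.Quotient.mk_surjective).trans ?_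
    refine MvPolynomial.cardinalMk_le_max.trans ?_
    simp
  let i : MvPolynomial ι L ⧸ I →+* ℂ :=
    Ideal.Quotient.lift I (aeval a : MvPolynomial ι L →ₐ[L] ℂ).toRingHom fun _ h => h
  let f : MvPolynomial ι L ⧸ I →+* ℂ :=
    Ideal.Quotient.lift I (aeval b : MvPolynomial ι L →ₐ[L] ℂ).toRingHom fun P h => (hab P).1 h
  have hi : Function.Injective i := RingHom.lift_injective_of_ker_le_ideal _ _ le_rfl
  have hf : Function.Injective f :=
    RingHom.lift_injective_of_ker_le_ideal _ _ fun P h => (hab P).2 h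
  obtain ⟨σ, hσ⟩ := Aut.exists_ext hc i f hi hf
  refine ⟨σ, fun c hc' => ?_, fun k => ?_⟩
  · have := hσ (Ideal.Quotient.mk I (C ⟨c, hc'⟩))
    simp only [i, f, Ideal.Quotient.lift_mk, AlgHom.toRingHom_eq_coe, RingHom.coe_coe,
      aeval_C] at this
    exact this
  · simpa [i, f] using hσ (Ideal.Quotient.mk I (X k))

theorem thm_DefI : S_DefI := by
  intro ι _ I
  obtain ⟨S, hS⟩ := (IsNoetherian.noetherian I : I.FG)
  refine ⟨⋃ P ∈ S, Set.range fun m => coeff m P, ?_, fun σ hσ a ha => ?_⟩
  · exact S.countable_toSet.biUnion fun P _ => Set.countable_range _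
  · rw [← hS, mem_zeroLocus_iff] at *
    intro p hp
    refine Submodule.span_induction (fun P hP => ?_) (map_zero _)
      (fun x y _ _ hx hy => by rw [map_add, hx, hy, add_zero])
      (fun c x _ hx => by rw [smul_eq_mul, map_mul, hx, mul_zero]) hp
    have h0 := ha P (Ideal.subset_span hP)
    have h1 : map σ.toRingHom P = P := by
      ext m
      rw [coeff_map]
      exact hσ _ (Set.mem_biUnion hP ⟨m, rfl⟩)
    have h2 : σ.toRingHom (eval a P) = eval (fun i => σ (a i)) (map σ.toRingHom P) := by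
      rw [eval_map, ← eval₂_id]
      exact (eval₂_comp_left σ.toRingHom (RingHom.id ℂ) a P).trans (by simp; rfl)
    rw [h1] at h2
    rw [aeval_eq_eval] at h0 ⊢
    rw [← h2, h0, map_zero]

theorem thm_GenZ : S_GenZ := by
  intro ι κ _ _ L ζ b hb
  obtain ⟨s, hsub, hs⟩ := exists_isTranscendenceBasis_superset (R := L)
    (s := Set.range fun c => ζ (b c)) hb.coe_range
  obtain ⟨Ω, _, _, j, hj, hind⟩ := Aut.exists_emb L s hs
  let φ : MvPolynomial ι ℂ →ₐ[ℂ] Ω := aeval fun i => j (ζ i)
  refine ⟨RingHom.ker φ, RingHom.ker_isPrime _, ?_, fun P => ?_⟩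
  · refine MP_68ca4e_ag.M.DimP.card_le (fun c => Ideal.Quotient.mk (RingHom.ker φ) (X (b c))) ?_
    refine AlgebraicIndependent.of_comp (Ideal.kerLiftAlg φ) ?_
    have h1 := hind.comp (fun c : κ => (⟨ζ (b c), hsub ⟨c, rfl⟩⟩ : s))
      fun c c' h => hb.injective (congrArg Subtype.val h)
    have e : (Ideal.kerLiftAlg φ ∘ fun c => Ideal.Quotient.mk (RingHom.ker φ) (X (b c))) =
        fun c => j (ζ (b c)) := by
      funext c
      simp [φ]
    rw [e]
    exact h1
  · have h1 : φ (map (algebraMap L ℂ) P) = j (aeval ζ P) := by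
      induction P using MvPolynomial.induction_on with
      | C c =>
        rw [map_C, aeval_C, aeval_C]
        exact (hj c).symm
      | add p q hp hq => simp only [map_add, hp, hq]
      | mul_X p i hp => simp only [map_mul, hp, map_X, aeval_X, φ]
    rw [RingHom.mem_ker, h1, map_eq_zero_iff j j.injective]

end

end Pool.Agent.P.MP_7ebcb6_ag.FD
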