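import Pool.Agent.P.MP_7ebcb6_ag.FD.St

/-! Cycles of degree zero are differences of effective cycles of bounded degree. -/

open scoped LinearAlgebra.Projectivization
open MvPolynomial Finsupp
open Pool.Agent.P.MP_68ca4e_ag.M (td td_lt)

namespace Pool.Agent.P.MP_7ebcb6_ag.FD

namespace BD

variable {n : ℕ} {X : Set (PP n)}

theorem hom_iff {F : MvPolynomial (Fin (n + 1)) ℂ} {r : ℕ} (hF : F.IsHomogeneous r)
    {a : Fin 1 × Fin (n + 1) → ℂ} {p : X} (h : Rep Prod.mk a fun _ : Fin 1 => p) :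
    aeval a (rename (fun b => ((0 : Fin 1), b)) F) = 0 ↔ eval p.1.rep F = 0 := by
  obtain ⟨h0, e⟩ := h 0
  obtain ⟨c, hc⟩ := Projectivization.exists_smul_eq_mk_rep ℂ _ h0
  have e1 : p.1.rep = fun b => (c : ℂ) * a (0, b) := by
    have e' : p.1 = Projectivization.mk ℂ _ h0 := e
    rw [e', ← hc]; rfl
  rw [aeval_rename, e1, ← aeval_eq_eval, aeval_smul_homog hF, mul_eq_zero,
    or_iff_right (pow_ne_zero _ c.ne_zero)]
  rfl

theorem map_sub_mem (A : AddSubgroup (X →₀ ℤ)) (s : X → X) (D : X →₀ ℤ)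
    (h : ∀ p ∈ D.support, single (s p) (1 : ℤ) - single p 1 ∈ A) : mapDomain s D - D ∈ A := by
  have e : mapDomain s D - D = ∑ p ∈ D.support, D p • (single (s p) (1 : ℤ) - single p 1) := by
    conv_lhs => rw [mapDomain]; arg 2; rw [← sum_single D]
    simp only [Finsupp.sum, ← Finset.sum_sub_distrib, smul_sub, smul_single, smul_eq_mul, mul_one]
  rw [e]
  exact sum_mem fun p hp => zsmul_mem (h p hp) _

end BD

open BD in
theorem thm_BD (hDefI : S_DefI) (hAct : S_Act) (hTop : S_Top) (hT2 : S_T2) (hIrr : S_Irr)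
    (hOneK : S_OneK) (hBdd : S_Bdd) (hCV : S_CV) : S_BD := by
  intro n X hX hI hd F r hF hx0 hyp
  let F1 : MvPolynomial (Fin 1 × Fin (n + 1)) ℂ := rename (fun b => ((0 : Fin 1), b)) F
  let J : Type := Σ a : Fin (n + 1), (I1 X a ⊔ Ideal.span {F1}).minimalPrimes
  have hfin : ∀ a : Fin (n + 1), Finite (I1 X a ⊔ Ideal.span {F1}).minimalPrimes := fun a =>
    (Ideal.finite_minimalPrimes_of_isNoetherianRing _ _).to_subtype
  have : Finite J := inferInstanceAs (Finite (Σ a : Fin (n + 1), _))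
  let Y : J → Set X := fun j =>
    {p : X | ∃ a ∈ zeroLocus ℂ j.2.1, Rep Prod.mk a fun _ : Fin 1 => p}
  obtain ⟨-, -, -, -, top5, -⟩ := hTop n X 1
  have hW : ∀ a, zeroLocus ℂ (I1 X a) = W (fun _ => a) (Set.univ : Set (Fin 1 → X)) := fun a =>
    (hT2 n X hX 1 fun _ => a).1 _ isClosed_univ
  have hB : ∀ j : J, Bdd (diffs (Y j)) := by
    rintro ⟨a, 𝔮, h𝔮⟩
    have hp : 𝔮.IsPrime := h𝔮.isPrime
    have hle : I1 X a ≤ 𝔮 := le_sup_left.trans h𝔮.le
    have hF1 : F1 ∈ 𝔮 := h𝔮.le (Ideal.mem_sup_right (Ideal.subset_span rfl))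
    refine hCV n X hX 𝔮 hp ?_ fun c hc => ?_
    · have hne : (W (fun _ => a) (Set.univ : Set (Fin 1 → X))).Nonempty := by
        by_contra h
        rw [Set.not_nonempty_iff_eq_empty] at h
        refine hp.ne_top (top_le_iff.1 (le_trans (le_of_eq ?_) hle))
        rw [I1, h, vanishingIdeal_empty]
      have hp1 : (I1 X a).IsPrime := (hT2 n X hX 1 fun _ => a).2.1 _ hI hne
      obtain ⟨w, hw1, x, -, hx⟩ := hne
      have hxa := (top5 (fun _ => a) x).2 ⟨w, hw1, hx⟩ 0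
      obtain ⟨y, hy, hya, hyF⟩ := (hIrr n X).2.2.2 hI (MvPolynomial.X a) F 1 r
        (isHomogeneous_X ℂ a) hF ⟨(x 0).1, (x 0).2, by simpa using hxa⟩ hx0
      obtain ⟨c, hc1, hc⟩ := (top5 (fun _ => a) fun _ => ⟨y, hy⟩).1 fun _ => by simpa using hya
      have hlt : I1 X a < 𝔮 := lt_of_le_of_ne hle fun e => hyF
        ((hom_iff hF hc).1 ((e ▸ hF1 : F1 ∈ I1 X a) c ⟨hc1, _, trivial, hc⟩))
      have h1 := td_lt hlt
      have h2 : td (I1 X a) ≤ dimX X :=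
        Finset.le_sup (f := fun a => td (I1 X a)) (Finset.mem_univ a)
      omega
    · obtain ⟨-, x, -, hx⟩ := (hW a).le (zeroLocus_anti_mono hle hc)
      exact ⟨x, hx⟩
  choose T hT hTσ using fun j : J => hDefI _ j.2.1
  have key := hOneK n X hX hI (⨆ j, diffs (Y j)) (⋃ j, T j) (Set.countable_iUnion hT) fun x => by
    obtain ⟨k, D', hk, hs, hD⟩ := hyp (single x 1)
    refine ⟨k, D', hk, hD, fun σ s hσ hact => map_sub_mem _ s D' fun p hp => ?_⟩
    obtain ⟨a, ha⟩ := Function.ne_iff.1 p.1.rep_nonzero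
    obtain ⟨c, hc1, hc⟩ := (top5 (fun _ => a) fun _ => p).1 fun _ => ha
    have : (RingHom.ker (aeval c : MvPolynomial (Fin 1 × Fin (n + 1)) ℂ →ₐ[ℂ] ℂ)).IsPrime :=
      RingHom.ker_isPrime _
    obtain ⟨𝔮, h𝔮, hle⟩ := Ideal.exists_minimalPrimes_le (I := I1 X a ⊔ Ideal.span {F1})
      (J := RingHom.ker (aeval c : MvPolynomial (Fin 1 × Fin (n + 1)) ℂ →ₐ[ℂ] ℂ))
      (sup_le (fun P hP => hP c ⟨hc1, _, trivial, hc⟩)
        ((Ideal.span_singleton_le_iff_mem _).2 ((hom_iff hF hc).2 (hs p hp))))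
    let j : J := ⟨a, 𝔮, h𝔮⟩
    have hcz : c ∈ zeroLocus ℂ 𝔮 := fun P hP => hle hP
    have hσc := hTσ j σ (fun z hz => hσ z (Set.mem_iUnion.2 ⟨j, hz⟩)) c hcz
    refine (le_iSup (fun j => diffs (Y j)) j)
      (AddSubgroup.subset_closure ⟨s p, ⟨_, hσc, fun i => ?_⟩, p, ⟨c, hcz, hc⟩, rfl⟩)
    obtain ⟨h0, e⟩ := hc i
    have h0' : (fun b => σ (c (i, b))) ≠ 0 := fun h => h0
      (funext fun b => σ.injective ((congrFun h b).trans (map_zero σ).symm))
    refine ⟨h0', ?_⟩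
    have e' : p.1 = Projectivization.mk ℂ _ h0 := e
    have e2 := (hAct n).1 σ _ h0 h0'
    rw [← e'] at e2
    exact (hact p).trans e2
  obtain ⟨G, E₀, hG⟩ := (hBdd n X).1 J (fun j => diffs (Y j)) hB
  exact ⟨G, E₀, fun D hD => hG D (key D hD)⟩

end Pool.Agent.P.MP_7ebcb6_ag.FD
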