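import Pool.Agent.P.MP_7ebcb6_ag.FD.St

/-! Cycles supported on a curve are differences of effective cycles of bounded degree. -/

open scoped LinearAlgebra.Projectivization WithZero
open MvPolynomial TopologicalSpace WithZero Finsupp
open Pool.Agent.P.MP_68ca4e_ag.M (td td_lt td_ker_eval exists_generic_curve)

namespace Pool.Agent.P.MP_7ebcb6_ag.FD

namespace CV

variable {n : ℕ} {X : Set (PP n)}

lemma cyc_append {α : Type} {a b : ℕ} (x : Fin a → α) (y : Fin b → α) :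
    cyc (Fin.append x y) = cyc x + cyc y := by
  simp [cyc, Fin.sum_univ_add]

lemma degree_cyc {α : Type} {m : ℕ} (x : Fin m → α) : (cyc x).degree = m := by
  simp [cyc, map_sum]

lemma mapDomain_cyc {α β : Type} {m : ℕ} (f : α → β) (x : Fin m → α) :
    mapDomain f (cyc x) = cyc (f ∘ x) := by
  simp [cyc, mapDomain_finsetSum, mapDomain_single]

lemma bdd_mono {A B : AddSubgroup (X →₀ ℤ)} (h : A ≤ B) (hB : Bdd B) : Bdd A :=
  let ⟨G, E₀, h1⟩ := hB; ⟨G, E₀, fun D hD => h1 D (h hD)⟩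

lemma bdd_rat : Bdd (ratTrivial X) :=
  ⟨0, Fin.elim0, fun D hD => ⟨Fin.elim0, by simpa using hD⟩⟩

lemma bdd_sup {A B : AddSubgroup (X →₀ ℤ)} (hA : Bdd A) (hB : Bdd B) : Bdd (A ⊔ B) := by
  obtain ⟨G, E₀, h1⟩ := hA
  obtain ⟨G', E₀', h2⟩ := hB
  refine ⟨G + G', Fin.append E₀ E₀', fun D hD => ?_⟩
  obtain ⟨a, ha, b, hb, rfl⟩ := AddSubgroup.mem_sup.mp hD
  obtain ⟨E, h3⟩ := h1 a ha
  obtain ⟨E', h4⟩ := h2 b hb
  refine ⟨Fin.append E E', ?_⟩
  rw [cyc_append, cyc_append]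
  convert add_mem h3 h4 using 1
  abel

lemma bdd_fin {J : Type} (A : J → AddSubgroup (X →₀ ℤ)) (h : ∀ j, Bdd (A j)) (s : Finset J) :
    Bdd (⨆ j ∈ s, A j) := by
  classical
  induction s using Finset.induction_on with
  | empty => exact bdd_mono (by simp) bdd_rat
  | insert a s _ ih => rw [Finset.iSup_insert]; exact bdd_sup (h a) ih

/-- the zero set of a prime ideal of dimension zero has at most one point -/
lemma zero_unique {ι : Type} [Fintype ι] {𝔮 : Ideal (MvPolynomial ι ℂ)} [𝔮.IsPrime]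
    (h : td 𝔮 = 0) {a b : ι → ℂ} (ha : a ∈ zeroLocus ℂ 𝔮) (hb : b ∈ zeroLocus ℂ 𝔮) : a = b := by
  have h1 : 𝔮 ≤ RingHom.ker (eval a : MvPolynomial ι ℂ →+* ℂ) := fun p hp => ha p hp
  have : (RingHom.ker (eval a : MvPolynomial ι ℂ →+* ℂ)).IsPrime := RingHom.ker_isPrime _
  have h2 : 𝔮 = RingHom.ker (eval a : MvPolynomial ι ℂ →+* ℂ) := by
    by_contra h2
    have := td_lt (lt_of_le_of_ne h1 h2)
    omega
  funext i
  have h3 := hb (MvPolynomial.X i - C (a i)) (by rw [h2, RingHom.mem_ker]; simp)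
  simp only [map_sub, aeval_X, aeval_C, Algebra.algebraMap_self, RingHom.id_apply] at h3
  exact (sub_eq_zero.mp h3).symm

lemma eval_of_rep {P : MvPolynomial (Fin (n + 1)) ℂ} {d : ℕ} (hP : P.IsHomogeneous d)
    {r : Fin (n + 1) → ℂ} (h : r ≠ 0) (h0 : eval (Projectivization.mk ℂ r h).rep P = 0) :
    aeval r P = 0 := by
  obtain ⟨c, hc⟩ := Projectivization.exists_smul_eq_mk_rep ℂ r h
  have h1 := aeval_smul_homog hP (c : ℂ) r
  have h2 : (fun i => (c : ℂ) * r i) = (Projectivization.mk ℂ r h).rep := hc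
  rw [h2] at h1
  exact (mul_eq_zero.mp (h1.symm.trans h0)).resolve_left (pow_ne_zero _ c.ne_zero)

end CV

open CV in
theorem thm_Bdd : S_Bdd := by
  intro n X
  refine ⟨fun J _ A h => bdd_sup ?_ bdd_rat, fun Y hY => bdd_mono ?_ bdd_rat⟩
  · have := Fintype.ofFinite J
    simpa using bdd_fin A h Finset.univ
  · refine (AddSubgroup.closure_le _).mpr ?_
    rintro _ ⟨p, hp, q, hq, rfl⟩
    rw [hY hp hq, sub_self]
    exact zero_mem _

open CV in
theorem thm_CV (hPl : S_PlAt) (hVal : S_Val) (hRie : S_Rie) (hPush : S_Push) (hCount : S_Count) :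
    S_CV := by
  intro n X hX 𝔮 h𝔮 htd hrep
  rcases Nat.le_one_iff_eq_zero_or_eq_one.mp htd with h0 | h1
  · refine (thm_Bdd n X).2 _ ?_
    rintro p ⟨a, ha, hp⟩ q ⟨b, hb, hq⟩
    obtain rfl := zero_unique h0 ha hb
    obtain ⟨_, h2⟩ := hp 0
    obtain ⟨_, h3⟩ := hq 0
    exact Subtype.ext (h2.trans h3.symm)
  obtain ⟨K, _, _, t, a₀, ht, htr, hfin⟩ := exists_generic_curve 𝔮 h1
  have hK : IsCurveField K := ⟨_, htr, hfin⟩
  have hη : (fun b => t (0, b)) ≠ 0 := fun h => by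
    obtain ⟨i, b⟩ := a₀
    obtain rfl : i = 0 := Subsingleton.elim _ _
    have h2 : t (0, b) = 0 := congrFun h b
    exact htr (h2 ▸ isAlgebraic_zero)
  obtain ⟨φ, hφ⟩ := (hVal n K).2 X hX hK _ hη fun P d hP hz => by
    have h2 : rename (fun b => ((0 : Fin 1), b)) P ∈ 𝔮 := by
      rw [← IsPrime.vanishingIdeal_zeroLocus (K := ℂ) 𝔮]
      intro a ha
      obtain ⟨x, hx⟩ := hrep a ha
      obtain ⟨h3, h4⟩ := hx 0
      rw [aeval_rename]
      exact eval_of_rep hP h3 (h4 ▸ hz _ (x 0).2)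
    have h3 := (ht _).mpr h2
    rwa [aeval_rename] at h3
  have hY : ∀ p ∈ {p : X | ∃ a ∈ zeroLocus ℂ 𝔮, Rep Prod.mk a fun _ : Fin 1 => p},
      ∃ v, φ v = p := by
    rintro p ⟨a, ha, hp⟩
    obtain ⟨h2, h3⟩ := hp 0
    obtain ⟨v, hv⟩ := hPl K hK _ t a fun F hF => ha F ((ht F).mp hF)
    exact ⟨v, Subtype.ext (((hVal n K).1 v _ _ 1 _ h2 (hφ v) fun b => by
      rw [one_mul]; exact hv (0, b)).trans h3.symm)⟩
  obtain ⟨-, g, hg, -⟩ := hRie K hK
  obtain ⟨P₀, -⟩ := (hCount K hK).1 ∅ Set.countable_empty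
  refine ⟨g, φ ∘ fun _ => P₀, fun D hD => ?_⟩
  obtain ⟨D', h2, rfl⟩ : ∃ D' : Pl K →₀ ℤ, D'.degree = 0 ∧ mapDomain φ D' = D := by
    induction hD using AddSubgroup.closure_induction with
    | mem D hD =>
      obtain ⟨p, hp, q, hq, rfl⟩ := hD
      obtain ⟨v, rfl⟩ := hY p hp
      obtain ⟨w, rfl⟩ := hY q hq
      exact ⟨single v 1 - single w 1, by simp, by
        rw [mapDomain_sub, mapDomain_single, mapDomain_single]⟩
    | zero => exact ⟨0, map_zero _, mapDomain_zero⟩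
    | add a b _ _ ha hb =>
      obtain ⟨a, h2, rfl⟩ := ha
      obtain ⟨b, h3, rfl⟩ := hb
      exact ⟨a + b, by rw [map_add, h2, h3, add_zero], mapDomain_add⟩
    | neg a _ ha =>
      obtain ⟨a, h2, rfl⟩ := ha
      exact ⟨-a, by rw [map_neg, h2, neg_zero], map_neg (mapDomain.addMonoidHom φ) a⟩
  obtain ⟨E, hE⟩ := hg (D' + cyc fun _ : Fin g => P₀) (by rw [map_add, h2, zero_add, degree_cyc])
  refine ⟨φ ∘ E, ?_⟩
  have h3 := (hPush n X).2 K hK _ φ hφ _ _ hE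
  rw [mapDomain_add, mapDomain_cyc, mapDomain_cyc] at h3
  convert h3 using 1
  abel

end Pool.Agent.P.MP_7ebcb6_ag.FD
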