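import Pool.Agent.P.MP_7ebcb6_ag.FD.St

/-! Derivations of fields of characteristic zero with prescribed values. -/

open Polynomial

namespace Pool.Agent.P.MP_7ebcb6_ag.FD

namespace DerP

theorem smooth_field (F Ω : Type) [Field F] [Field Ω] [CharZero F] [Algebra F Ω] :
    Algebra.FormallySmooth F Ω := by
  obtain ⟨s, hs⟩ := exists_isTranscendenceBasis F Ω
  have h1 : Algebra.IsAlgebraic (IntermediateField.adjoin F (Set.range ((↑) : s → Ω))) Ω :=
    hs.isAlgebraic_field
  have h2 : CharZero (IntermediateField.adjoin F (Set.range ((↑) : s → Ω))) :=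
    charZero_of_injective_algebraMap (algebraMap F _).injective
  exact Algebra.FormallySmooth.of_algebraicIndependent_of_isSeparable hs.1

theorem smooth_of_inj (A Ω : Type) [CommRing A] [Field Ω] [CharZero Ω] [Algebra A Ω]
    (hinj : Function.Injective (algebraMap A Ω)) : Algebra.FormallySmooth A Ω := by
  have : IsDomain A := hinj.isDomain _
  have : FaithfulSMul A Ω := (faithfulSMul_iff_algebraMap_injective A Ω).2 hinj
  let : Algebra (FractionRing A) Ω := FractionRing.liftAlgebra A Ω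
  have : IsScalarTower A (FractionRing A) Ω := FractionRing.isScalarTower_liftAlgebra A Ω
  have : CharZero (FractionRing A) := (algebraMap (FractionRing A) Ω).charZero
  have : Algebra.FormallySmooth A (FractionRing A) :=
    Algebra.FormallySmooth.of_isLocalization (nonZeroDivisors A)
  have : Algebra.FormallySmooth (FractionRing A) Ω := smooth_field _ _
  exact Algebra.FormallySmooth.comp A (FractionRing A) Ω

theorem lift {A T Ω : Type} [CommRing A] [CommRing T] [Field Ω] [CharZero Ω] (π : T →+* Ω)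
    (hπ : Function.Surjective π) (hn : IsNilpotent (RingHom.ker π)) (Φ : A →+* T)
    (hinj : Function.Injective (π.comp Φ)) :
    ∃ Ψ : Ω →+* T, (∀ z, π (Ψ z) = z) ∧ ∀ a, Ψ (π (Φ a)) = Φ a := by
  let : Algebra A T := Φ.toAlgebra
  let : Algebra A Ω := (π.comp Φ).toAlgebra
  have : Algebra.FormallySmooth A Ω := smooth_of_inj A Ω hinj
  let g : T →ₐ[A] Ω := { π with commutes' := fun _ => rfl }
  let Ψ := Algebra.FormallySmooth.liftOfSurjective (AlgHom.id A Ω) g hπ hn
  exact ⟨Ψ, fun z => Algebra.FormallySmooth.liftOfSurjective_apply (AlgHom.id A Ω) g hπ hn z,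
    fun a => Ψ.commutes a⟩

/-- The map to dual numbers given by a derivation along `j`. -/
noncomputable def tz {A Ω : Type} [CommRing A] [Field Ω] (j : A →+* Ω) (D : A →+ Ω)
    (hD : ∀ a b, D (a * b) = j a * D b + j b * D a) : A →+* TrivSqZeroExt Ω Ω where
  toFun a := TrivSqZeroExt.inl (j a) + TrivSqZeroExt.inr (D a)
  map_one' := by
    have h := hD 1 1
    simp only [mul_one, map_one, one_mul] at h
    have h1 : D 1 = 0 := by linear_combination -h
    ext <;> simp [h1]
  map_mul' a b := by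
    ext
    · simp
    · simp [hD a b, mul_comm]
  map_zero' := by ext <;> simp
  map_add' a b := by ext <;> simp

theorem ext {A Ω : Type} [CommRing A] [Field Ω] [CharZero Ω] (j : A →+* Ω) (D : A →+ Ω)
    (hD : ∀ a b, D (a * b) = j a * D b + j b * D a) (z w : Ω)
    (hz : Function.Injective (eval₂RingHom j z)) :
    ∃ δ : Ω →+ Ω, (∀ a b, δ (a * b) = a * δ b + b * δ a) ∧ (∀ a, δ (j a) = D a) ∧ δ z = w := by
  let π : TrivSqZeroExt Ω Ω →+* Ω := (TrivSqZeroExt.fstHom Ω Ω Ω : TrivSqZeroExt Ω Ω →ₐ[Ω] Ω)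
  have hπ : ∀ x, π x = x.fst := fun _ => rfl
  let Φ : A[X] →+* TrivSqZeroExt Ω Ω :=
    eval₂RingHom (tz j D hD) (TrivSqZeroExt.inl z + TrivSqZeroExt.inr w)
  have hC : ∀ a, Φ (C a) = TrivSqZeroExt.inl (j a) + TrivSqZeroExt.inr (D a) := fun a =>
    eval₂_C _ _
  have hX : Φ X = TrivSqZeroExt.inl z + TrivSqZeroExt.inr w := eval₂_X _ _
  have he : π.comp Φ = eval₂RingHom j z := by
    refine Polynomial.ringHom_ext (fun a => ?_) ?_
    · rw [RingHom.comp_apply, hC, hπ]; simp
    · rw [RingHom.comp_apply, hX, hπ]; simp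
  have hn : IsNilpotent (RingHom.ker π) := by
    refine ⟨2, (Submodule.pow_succ _).trans ?_⟩
    rw [Submodule.pow_one, Ideal.zero_eq_bot, eq_bot_iff, Ideal.mul_le]
    intro r hr s hs
    have hr' : r.fst = 0 := hr
    have hs' : s.fst = 0 := hs
    rw [Ideal.mem_bot]
    ext <;> simp [hr', hs']
  obtain ⟨Ψ, h1, h2⟩ := lift π (fun x => ⟨TrivSqZeroExt.inl x, rfl⟩) hn Φ (he ▸ hz)
  refine ⟨{ toFun := fun x => (Ψ x).snd, map_zero' := by simp, map_add' := fun a b => by simp },
    fun a b => ?_, fun a => ?_, ?_⟩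
  · change (Ψ (a * b)).snd = a * (Ψ b).snd + b * (Ψ a).snd
    rw [map_mul, TrivSqZeroExt.snd_mul, ← hπ, ← hπ, h1, h1]
    simp [mul_comm]
  · have := h2 (C a)
    rw [hC, hπ] at this
    simp only [TrivSqZeroExt.fst_add, TrivSqZeroExt.fst_inl, TrivSqZeroExt.fst_inr,
      add_zero] at this
    change (Ψ (j a)).snd = D a
    rw [this]; simp
  · have := h2 X
    rw [hX, hπ] at this
    simp only [TrivSqZeroExt.fst_add, TrivSqZeroExt.fst_inl, TrivSqZeroExt.fst_inr,
      add_zero] at this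
    change (Ψ z).snd = w
    rw [this]; simp

end DerP

theorem thm_Der : S_Der := by
  intro K _ _ L hL t ht τ hτ
  have hτ' : Transcendental L τ := fun ha => by
    have hi : IsIntegral L τ := ha.isIntegral
    obtain ⟨c, hc⟩ := (minpoly.degree_eq_one_iff).1
      (IsAlgClosed.degree_eq_one_of_irreducible L (minpoly.irreducible hi))
    exact hτ (hc ▸ c.2)
  have : CharZero K := charZero_of_injective_algebraMap (algebraMap ℂ K).injective
  obtain ⟨δ0, a1, a2, a3⟩ := DerP.ext (algebraMap L ℂ) 0 (fun a b => by simp) τ 1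
    ((transcendental_iff_injective (R := L)).1 hτ')
  obtain ⟨δ, b1, b2, b3⟩ := DerP.ext (algebraMap ℂ K)
    ((algebraMap ℂ K : ℂ →+ K).comp δ0) (fun a b => by simp [a1]) t 0
    ((transcendental_iff_injective (R := ℂ)).1 ht)
  refine ⟨δ, ⟨b1, b3, fun c hc => ?_, fun c => ⟨δ0 c, b2 c⟩⟩, ?_⟩
  · have h : δ0 c = 0 := a2 ⟨c, hc⟩
    rw [b2]; simp [h]
  · rw [b2]; simp [a3]

end Pool.Agent.P.MP_7ebcb6_ag.FD
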