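import Pool.Agent.P.MP_7ebcb6_ag.FD.St

/-! The dimension of the closure of an image, and the cone over a hypersurface. -/

open scoped LinearAlgebra.Projectivization
open MvPolynomial
open Pool.Agent.P.MP_68ca4e_ag.M

namespace Pool.Agent.P.MP_7ebcb6_ag.FD

namespace DimIm

theorem ae {σ : Type} (x : σ → ℂ) (p : MvPolynomial σ ℂ) : aeval x p = eval x p := rfl

theorem aeval_aeval {σ τ R : Type} [CommRing R] [Algebra ℂ R] (x : τ → R)
    (f : σ → MvPolynomial τ ℂ) (H : MvPolynomial σ ℂ) :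
    aeval x (aeval f H) = aeval (fun i => aeval x (f i)) H := by
  rw [← AlgHom.comp_apply, comp_aeval]

theorem exists_rep {n : ℕ} (r : Fin (n + 1) → ℂ) (h : r ≠ 0) :
    ∃ c : ℂ, c ≠ 0 ∧ ∀ i, (Projectivization.mk ℂ r h).rep i = c * r i := by
  obtain ⟨c, hc⟩ := Projectivization.exists_smul_eq_mk_rep ℂ r h
  exact ⟨c, c.ne_zero, fun i => by rw [← hc]; rfl⟩

theorem td_le_of_dep {σ : Type} (I : Ideal (MvPolynomial σ ℂ)) (e : ℕ)
    (h : ∀ f : Fin (e + 1) → MvPolynomial σ ℂ, ∃ H : MvPolynomial (Fin (e + 1)) ℂ,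
      H ≠ 0 ∧ aeval f H ∈ I) : td I ≤ e := by
  have h1 : Algebra.trdeg ℂ (MvPolynomial σ ℂ ⧸ I) ≤ e := by
    refine ciSup_le' fun s => ?_
    by_contra h2
    have h3 : Cardinal.mk (Fin (e + 1)) ≤ Cardinal.mk s.1 := by
      rw [Cardinal.mk_fin, Nat.cast_succ, ← Cardinal.succ_natCast]
      exact Order.succ_le_of_lt (not_le.mp h2)
    obtain ⟨g⟩ := (Cardinal.le_def _ _).mp h3
    have h4 := s.2.comp g g.injective
    choose f hf using fun j => Ideal.Quotient.mk_surjective (g j).1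
    obtain ⟨H, H0, hH⟩ := h f
    refine H0 (h4.eq_zero_of_aeval_eq_zero H ?_)
    have e1 : aeval ((fun x : s.1 => id x.1) ∘ g) = (Ideal.Quotient.mkₐ ℂ I).comp (aeval f) := by
      ext j
      simp [hf]
    rw [e1]
    exact Ideal.Quotient.eq_zero_iff_mem.mpr hH
  simpa [td] using Cardinal.toNat_le_toNat h1 Cardinal.natCast_lt_aleph0

variable {n e : ℕ} {ι : Type} [Finite ι]

theorem dep_one {𝔮 : Ideal (MvPolynomial ι ℂ)} (hp : 𝔮.IsPrime) (he : td 𝔮 ≤ e)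
    (N : Fin (n + 1) → MvPolynomial ι ℂ) (a : Fin (n + 1))
    (f : Fin (e + 1) → MvPolynomial (Fin 1 × Fin (n + 1)) ℂ) :
    ∃ H : MvPolynomial (Fin (e + 1)) ℂ, H ≠ 0 ∧ ∀ p ∈ zeroLocus ℂ 𝔮, eval p (N a) ≠ 0 →
      aeval (fun v : Fin 1 × Fin (n + 1) => eval p (N v.2) / eval p (N a)) (aeval f H) = 0 := by
  by_cases ha : N a ∈ 𝔮
  · exact ⟨1, one_ne_zero, fun p hp h => absurd (hp _ ha) h⟩
  have := Fintype.ofFinite ι
  obtain ⟨κ, _, _, t, ε, h1, -, -, h2⟩ := exists_generic 𝔮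
  have h3 : Algebra.IsAlgebraic (Algebra.adjoin ℂ (Set.range fun j => t (ε j))) κ :=
    IntermediateField.isAlgebraic_adjoin_iff_top.mp inferInstance
  have h4 : ¬ AlgebraicIndependent ℂ fun j => aeval
      (fun v : Fin 1 × Fin (n + 1) => aeval t (N v.2) / aeval t (N a)) (f j) := fun h => by
    have h5 := h.cardinalMk_le_trdeg.trans
      ((Algebra.IsAlgebraic.trdeg_le_cardinalMk ℂ (Set.range fun j => t (ε j))).trans
        Cardinal.mk_range_le)
    rw [Cardinal.mk_fin, Cardinal.mk_fin, Nat.cast_le] at h5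
    omega
  rw [algebraicIndependent_iff] at h4
  push Not at h4
  obtain ⟨H, h5, H0⟩ := h4
  refine ⟨H, H0, fun p hp h => ?_⟩
  obtain ⟨D, P, -, hP⟩ := exists_homog (Prod.snd : Fin 1 × Fin (n + 1) → _) a (aeval f H)
  have h6 := hP κ (fun i => aeval t (N i)) fun h0 => ha ((h1 _).mp h0)
  rw [aeval_aeval, h5, mul_zero, ← aeval_aeval, h1] at h6
  have h7 := hp _ h6
  rw [aeval_aeval] at h7
  have h8 := hP ℂ (fun i => eval p (N i)) h
  exact (mul_eq_zero.mp (h8.symm.trans h7)).resolve_left (pow_ne_zero _ h)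

/-- the ideal of the hyperplane `x b = 1` -/
noncomputable def hyp {σ : Type} [DecidableEq σ] (b : σ) : Ideal (MvPolynomial σ ℂ) :=
  RingHom.ker (aeval (Function.update X b 1) : MvPolynomial σ ℂ →ₐ[ℂ] MvPolynomial σ ℂ)

theorem hyp_eval {σ : Type} [DecidableEq σ] {b : σ} {q : σ → ℂ} (hq : q b = 1)
    {P : MvPolynomial σ ℂ} (hP : P ∈ hyp b) : aeval q P = 0 := by
  have h1 := congrArg (aeval q) (RingHom.mem_ker.mp hP)
  rw [aeval_aeval, map_zero] at h1
  rw [← h1]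
  congr 2
  funext i
  by_cases h : i = b
  · rw [h, Function.update_self, map_one, hq]
  · rw [Function.update_of_ne h, aeval_X]

theorem hyp_ne_bot {σ : Type} [DecidableEq σ] (b : σ) : ⊥ < hyp b := by
  refine bot_lt_iff_ne_bot.mpr fun h => ?_
  have h1 : (X b - 1 : MvPolynomial σ ℂ) ∈ hyp b := by
    rw [hyp, RingHom.mem_ker, map_sub, aeval_X, Function.update_self, map_one, sub_self]
  rw [h, Ideal.mem_bot] at h1
  simpa using congrArg (aeval fun _ : σ => (0 : ℂ)) h1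

theorem notMem_hyp {σ : Type} [DecidableEq σ] (b : σ) {Φ : MvPolynomial σ ℂ} {r : ℕ} (h0 : Φ ≠ 0)
    (hΦ : Φ.IsHomogeneous r) : Φ ∉ hyp b := fun h => by
  refine mul_ne_zero (X_ne_zero b) h0 (MvPolynomial.funext fun q => ?_)
  rw [map_mul, eval_X, map_zero]
  by_cases hq : q b = 0
  · rw [hq, zero_mul]
  · have h1 := hyp_eval (q := fun i => (q b)⁻¹ * q i) (inv_mul_cancel₀ hq) h
    rw [aeval_smul_homog hΦ] at h1
    rw [← ae, (mul_eq_zero.mp h1).resolve_left (pow_ne_zero _ (inv_ne_zero hq)), mul_zero]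

end DimIm

open DimIm

theorem thm_DimIm : S_DimIm := by
  intro n ι _ S N e J hJ hq hS
  refine Finset.sup_le fun a _ => td_le_of_dep _ e fun f => ?_
  choose! H H0 hH using fun 𝔮 (h : 𝔮 ∈ J) => dep_one (hq 𝔮 h).1 (hq 𝔮 h).2 N a f
  refine ⟨∏ 𝔮 ∈ hJ.toFinset, H 𝔮,
    Finset.prod_ne_zero_iff.mpr fun 𝔮 h => H0 𝔮 (hJ.mem_toFinset.mp h), ?_⟩
  obtain ⟨F, hF⟩ : ∃ F, F = aeval f (∏ 𝔮 ∈ hJ.toFinset, H 𝔮) := ⟨_, rfl⟩
  have h1 : ∀ p ∈ S, eval p (N a) ≠ 0 →
      aeval (fun v : Fin 1 × Fin (n + 1) => eval p (N v.2) / eval p (N a)) F = 0 := by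
    intro p hp ha
    obtain ⟨𝔮, h, p', hp', c, hc, e1⟩ := hS p hp
    have h2 := hH 𝔮 h p' hp' (by rw [e1]; exact mul_ne_zero hc ha)
    simp only [e1, mul_div_mul_left _ _ hc] at h2
    rw [hF, map_prod, map_prod]
    exact Finset.prod_eq_zero (hJ.mem_toFinset.mpr h) h2
  rw [← hF]
  obtain ⟨D, P, hP, hP'⟩ := exists_homog (Prod.snd : Fin 1 × Fin (n + 1) → _) a F
  rintro w ⟨hw, x, -, hx⟩
  obtain ⟨h0, e1⟩ := hx 0
  have h2 := (x 0).2 (X a * P) (1 + D) ((isHomogeneous_X ℂ a).mul hP) (by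
    rintro _ ⟨p, hp, h, rfl⟩
    obtain ⟨c, hc, e2⟩ := exists_rep _ h
    rw [map_mul, eval_X]
    by_cases ha : eval p (N a) = 0
    · rw [e2, ha, mul_zero, zero_mul]
    · rw [← ae, hP' ℂ _ (by rw [e2]; exact mul_ne_zero hc ha)]
      simp only [e2, mul_div_mul_left _ _ hc]
      rw [h1 p hp ha, mul_zero, mul_zero])
  obtain ⟨c, hc, e2⟩ := exists_rep _ h0
  have ha : (x 0).1.rep a ≠ 0 := by rw [e1, e2, hw 0, mul_one]; exact hc
  rw [map_mul, eval_X, ← ae, hP' ℂ _ ha] at h2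
  have h3 := (mul_eq_zero.mp ((mul_eq_zero.mp h2).resolve_left ha)).resolve_left (pow_ne_zero _ ha)
  rw [← h3]
  congr 2
  funext v
  rw [e1, e2, e2, hw 0, mul_div_mul_left _ _ hc, div_one, Subsingleton.elim 0 v.1]

theorem thm_Cone : S_Cone := by
  intro k Φ r h0 hΦ
  refine ⟨insert (RingHom.ker (eval 0)) (⋃ b, (hyp b ⊔ Ideal.span {Φ}).minimalPrimes),
    (Set.finite_iUnion fun b => Ideal.finite_minimalPrimes_of_isNoetherianRing _ _).insert _,
    ?_, fun p hp => ?_⟩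
  · rintro 𝔮 (rfl | h)
    · exact ⟨RingHom.ker_isPrime _, (td_ker_eval _).trans_le (Nat.zero_le k)⟩
    · obtain ⟨b, hb⟩ := Set.mem_iUnion.mp h
      have := hb.isPrime
      have : (hyp b).IsPrime := RingHom.ker_isPrime _
      have := Ideal.isPrime_bot (α := MvPolynomial (Fin (k + 2)) ℂ)
      have h1 := td_lt (hyp_ne_bot b)
      have h2 : td 𝔮 < td (hyp b) := td_lt (lt_of_le_of_ne (le_sup_left.trans hb.le) fun e =>
        notMem_hyp b h0 hΦ (e ▸ hb.le (Ideal.mem_sup_right (Ideal.mem_span_singleton_self _))))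
      rw [td_bot, Fintype.card_fin] at h1
      exact ⟨inferInstance, by omega⟩
  · by_cases h : p = 0
    · refine ⟨_, Set.mem_insert _ _, 1, one_ne_zero, fun P hP => ?_⟩
      simp only [h, one_mul]
      exact hP
    · obtain ⟨b, hb⟩ := Function.ne_iff.mp h
      have := RingHom.ker_isPrime (eval fun i => (p b)⁻¹ * p i)
      obtain ⟨𝔮, h1, h2⟩ := Ideal.exists_minimalPrimes_le (I := hyp b ⊔ Ideal.span {Φ})
        (J := RingHom.ker (eval fun i => (p b)⁻¹ * p i))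
        (sup_le (fun P hP => hyp_eval (q := fun i => (p b)⁻¹ * p i) (inv_mul_cancel₀ hb) hP)
          ((Ideal.span_singleton_le_iff_mem _).mpr (by
            rw [RingHom.mem_ker, ← ae, aeval_smul_homog hΦ, ae, hp, mul_zero])))
      exact ⟨𝔮, Set.mem_insert_of_mem _ (Set.mem_iUnion.mpr ⟨b, h1⟩), _, inv_ne_zero hb,
        fun P hP => h2 hP⟩

end Pool.Agent.P.MP_7ebcb6_ag.FD
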