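import Pool.Agent.P.MP_7ebcb6_ag.FD.St

/-! Principal divisors, counting places, push-forward of linear equivalence. -/

open scoped LinearAlgebra.Projectivization WithZero IntermediateField
open WithZero Finsupp

namespace Pool.Agent.P.MP_7ebcb6_ag.FD

namespace DivP

variable {K : Type} [Field K] [Algebra ℂ K]

lemma fin_ne (hK : IsCurveField K) {a : K} (ha : a ≠ 0) : {v : Pl K | v.1 a ≠ 1}.Finite := by
  obtain ⟨S, hS, -⟩ := hK.exists_divisor ha
  exact (S.finite_toSet.preimage Subtype.val_injective.injOn).subset fun v hv =>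
    (hS v.1).2 ⟨v.2, hv⟩

lemma exists_div (hK : IsCurveField K) {f : K} (hf : f ≠ 0) :
    ∃ D : Pl K →₀ ℤ, D.degree = 0 ∧ ∀ v, D v = ord v.1 f := by
  classical
  obtain ⟨S, hS, h0⟩ := hK.exists_divisor hf
  have hs : ∀ v : Pl K, ord v.1 f ≠ 0 → v ∈ S.subtype IsPlace := fun v hv =>
    Finset.mem_subtype.2 ((hS v.1).2 ⟨v.2, fun h => hv (ord_eq_zero_of_eq_one h)⟩)
  refine ⟨onFinset (S.subtype IsPlace) (fun v => ord v.1 f) hs, ?_, fun _ => rfl⟩
  rw [degree_apply, Finset.sum_subset support_onFinset_subset fun v _ hv => notMem_support_iff.1 hv,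
    ← h0]
  exact Finset.sum_subtype_of_mem (fun w => ord w f) fun w hw => ((hS w).1 hw).1

lemma exists_zero (hK : IsCurveField K) {f : K} (hf : Transcendental ℂ f) :
    ∃ v : Pl K, v.1 f < 1 := by
  obtain ⟨S, hS, h0⟩ := hK.sum_ord_zeros hf
  have := hK.finite hf
  have hp : 0 < Module.finrank ℂ⟮f⟯ K := Module.finrank_pos
  rcases S.eq_empty_or_nonempty with rfl | ⟨w, hw⟩
  · rw [Finset.sum_empty] at h0
    omega
  · exact ⟨⟨w, ((hS w).1 hw).1⟩, ((hS w).1 hw).2⟩

lemma sub_ne {t : K} (ht : Transcendental ℂ t) (c d : ℂ) :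
    t - algebraMap ℂ K c ≠ algebraMap ℂ K d := fun h =>
  ht (by rw [sub_eq_iff_eq_add, ← map_add] at h; rw [h]; exact isAlgebraic_algebraMap _)

lemma exists_notMem (hK : IsCurveField K) {T : Set (Pl K)} (hT : T.Countable) : ∃ v, v ∉ T := by
  obtain ⟨t, ht, -⟩ := id hK
  choose z hz using fun c : ℂ => exists_zero hK (transcendental_of_notMem_range (sub_ne ht c))
  have hi : Function.Injective z := fun c d e =>
    Tends.unique (v := (z c).1) (a := t) (hz c) (e ▸ hz d)
  by_contra h
  push Not at h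
  have : Uncountable ℂ := Complex.ofReal_injective.uncountable
  exact Set.not_countable_univ ((hT.preimage_of_injOn hi.injOn).mono fun c _ => h (z c))

end DivP

open DivP

theorem thm_Div : S_Div := by
  intro K _ _ hK
  refine ⟨fun f hf => exists_div hK hf, ?_⟩
  rintro D E ⟨f, hf, h⟩
  obtain ⟨F, h0, hF⟩ := exists_div hK hf
  have e : D - E = F := Finsupp.ext fun v => by rw [Finsupp.sub_apply, h, hF]
  rw [← sub_eq_zero, ← map_sub, e, h0]

theorem thm_Count : S_Count := by
  intro K _ _ hK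
  refine ⟨fun T hT => exists_notMem hK hT, fun a ha => fin_ne hK ha, fun t ht => ⟨?_, ?_⟩⟩
  · obtain ⟨v, hv⟩ := exists_zero hK (f := t⁻¹) fun h' => ht (IsAlgebraic.inv_iff.mp h')
    have h0 : t ≠ 0 := by
      rintro rfl
      exact ht isAlgebraic_zero
    rw [map_inv₀] at hv
    exact ⟨v, (inv_lt_one₀ ((Valuation.pos_iff _).2 h0)).1 hv⟩
  · intro L hL
    have h0 : t ≠ 0 := by
      rintro rfl
      exact ht isAlgebraic_zero
    have h1 : ∀ c : ℂ, t - algebraMap ℂ K c ≠ 0 := fun c => by simpa using sub_ne ht c 0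
    refine ((fin_ne hK h0).countable.union
      (hL.biUnion fun c _ => (fin_ne hK (h1 c)).countable)).mono fun v hv => ?_
    by_cases h : v.1 t = 1
    · obtain ⟨c, hc⟩ := hK.exists_residue v.2 t h.le
      have hcL : c ∈ L := by
        by_contra hn
        exact hv ⟨c, hn, hc⟩
      exact Or.inr (Set.mem_biUnion hcL hc.ne)
    · exact Or.inl h

theorem thm_Push : S_Push := by
  classical
  intro n X
  constructor
  · intro D hD
    have : ratTrivial X ≤ (degree : (X →₀ ℤ) →+ ℤ).ker := by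
      refine (AddSubgroup.closure_le _).2 ?_
      rintro _ ⟨K, _, _, hK, η, φ, f, S, -, hf, hS, hS', rfl⟩
      obtain ⟨S', h1, h0⟩ := hK.exists_divisor hf
      rw [SetLike.mem_coe, AddMonoidHom.mem_ker, map_sum, ← h0]
      simp only [degree_single]
      refine Finset.sum_congr_of_eq_on_inter (fun w hw hw' => ?_) (fun w hw hw' => ?_)
        fun _ _ _ => rfl
      · exact ord_eq_zero_of_eq_one (by
          by_contra h
          exact hw' ((h1 w).2 ⟨hS w hw, h⟩))
      · exact hS' w ((h1 w).1 hw).1 hw'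
    exact this hD
  · rintro K _ _ hK η φ hφ D E ⟨f, hf, h⟩
    obtain ⟨v0, -⟩ := exists_notMem hK Set.countable_empty
    refine AddSubgroup.subset_closure ⟨K, inferInstance, inferInstance, hK, η,
      fun w => if h : IsPlace w then φ ⟨w, h⟩ else φ v0, f,
      (D - E).support.map (Function.Embedding.subtype _), fun w hw => ?_, hf, fun w hw => ?_,
      fun w hw hn => ?_, ?_⟩
    · simp only [dif_pos hw]
      exact hφ ⟨w, hw⟩
    · obtain ⟨v, -, rfl⟩ := Finset.mem_map.1 hw
      exact v.2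
    · rw [← h ⟨w, hw⟩, ← Finsupp.sub_apply, ← notMem_support_iff]
      exact fun hm => hn (Finset.mem_map.2 ⟨_, hm, rfl⟩)
    · have e : mapDomain φ D - mapDomain φ E = mapDomain φ (D - E) :=
        (map_sub (mapDomain.addMonoidHom φ) D E).symm
      rw [e, Finset.sum_map, mapDomain, Finsupp.sum]
      refine Finset.sum_congr rfl fun v _ => ?_
      simp only [Function.Embedding.coe_subtype, dif_pos v.2, Finsupp.sub_apply, h]

end Pool.Agent.P.MP_7ebcb6_ag.FD
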