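import Pool.Agent.P.MP_7ebcb6_ag.FD.St

/-! Differences of points on the image of a curve are divisible modulo rational equivalence. -/

open scoped LinearAlgebra.Projectivization WithZero
open MvPolynomial WithZero Finsupp

namespace Pool.Agent.P.MP_7ebcb6_ag.FD

namespace DivK

variable {K : Type} [Field K] [Algebra ℂ K] {L : Subfield ℂ} {t : K} {ι : Type} {ζ : ι → K}

lemma alg_aeval (h : ∀ b, IsAlgebraic (fld L t) (ζ b)) (P : MvPolynomial ι L) :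
    IsAlgebraic (fld L t) (aeval ζ (map (algebraMap L ℂ) P)) := by
  induction P using MvPolynomial.induction_on with
  | C c =>
    rw [map_C, aeval_C]
    have hc : algebraMap ℂ K (algebraMap L ℂ c) ∈ fld L t :=
      Subfield.subset_closure (Set.mem_insert_of_mem _ ⟨c, c.2, rfl⟩)
    exact isAlgebraic_algebraMap (⟨_, hc⟩ : fld L t)
  | add p q hp hq => rw [map_add, map_add]; exact hp.add hq
  | mul_X p i hp => rw [map_mul, map_mul, map_X, aeval_X]; exact hp.mul (h i)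

lemma gen (hK : IsCurveField K) (v : Pl K)
    (hres : ∀ a, IsAlgebraic (fld L t) a → a ≠ 0 → v.1 a = 1)
    (h : ∀ b, IsAlgebraic (fld L t) (ζ b)) :
    ∃ r : ι → ℂ, (∀ b, Tends v.1 (ζ b) (r b)) ∧
      ∀ P : MvPolynomial ι L, aeval r P = 0 ↔ aeval ζ (map (algebraMap L ℂ) P) = 0 := by
  have h1 : ∀ b, v.1 (ζ b) ≤ 1 := fun b => by
    by_cases h0 : ζ b = 0
    · simp [h0]
    · exact (hres _ (h b) h0).le
  choose r hr using fun b => hK.exists_residue v.2 _ (h1 b)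
  refine ⟨r, hr, fun P => ?_⟩
  have h2 := Tends.mv_aeval (v := v.1) hr (map (algebraMap L ℂ) P)
  have h3 : eval r (map (algebraMap L ℂ) P) = aeval r P := by rw [eval_map, aeval_def]
  rw [h3] at h2
  refine ⟨fun h4 => ?_, fun h4 => h2.eq_zero h4⟩
  by_contra h5
  rw [h4, Tends.zero_iff, hres _ (alg_aeval h P) h5] at h2
  exact lt_irrefl _ h2

lemma nongen [Fintype ι] (hK : IsCurveField K) (v : Pl K)
    (hres : ∀ a, IsAlgebraic (fld L t) a → ∀ c, Tends v.1 a c → c ∈ L)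
    (h : ∀ b, IsAlgebraic (fld L t) (ζ b)) {b0 : ι} (h0 : ζ b0 ≠ 0) :
    ∃ (c : K) (r : ι → ℂ), r ≠ 0 ∧ (∀ b, r b ∈ L) ∧ ∀ b, Tends v.1 (c * ζ b) (r b) := by
  obtain ⟨i, -, hi⟩ := Finset.exists_max_image Finset.univ (fun i => v.1 (ζ i))
    ⟨b0, Finset.mem_univ _⟩
  have hi0 : v.1 (ζ i) ≠ 0 := fun e => by
    have := hi b0 (Finset.mem_univ _)
    rw [e, le_zero_iff, map_eq_zero] at this
    exact h0 this
  have hi1 : ζ i ≠ 0 := fun e => hi0 (by simp [e])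
  have hle : ∀ b, v.1 ((ζ i)⁻¹ * ζ b) ≤ 1 := fun b => by
    rw [map_mul, map_inv₀, inv_mul_le_one₀ (zero_lt_iff.2 hi0)]
    exact hi b (Finset.mem_univ _)
  choose r hr using fun b => hK.exists_residue v.2 _ (hle b)
  refine ⟨(ζ i)⁻¹, r, fun e => ?_, fun b => hres _ ((h i).inv.mul (h b)) _ (hr b), hr⟩
  have h1 : Tends v.1 ((ζ i)⁻¹ * ζ i) (r i) := hr i
  rw [inv_mul_cancel₀ hi1, e] at h1
  exact one_ne_zero (Tends.one.unique h1)

end DivK

theorem thm_DivK (hAut : S_Aut) (hCount : S_Count) (hMov : S_Mov) (hRes : S_Res) (hDefK : S_DefK)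
    (hGenR : S_GenR) (hPush : S_Push) (hVal : S_Val) (hAct : S_Act) : S_DivK := by
  intro n X hX K _ _ hK η φ hφ k hk v w
  obtain ⟨b0, hb0⟩ : ∃ b0, η b0 ≠ 0 := by
    by_contra hn
    push Not at hn
    obtain ⟨c, hc⟩ := hφ v
    refine (φ v).1.rep_nonzero (funext fun i => ?_)
    have h1 : Tends v.1 (c * η i) ((φ v).1.rep i) := hc i
    exact h1.eq_zero (by rw [hn i, mul_zero])
  obtain ⟨ζ, hζ⟩ : ∃ ζ : Fin (n + 1) → K, ∀ b, ζ b = (η b0)⁻¹ * η b := ⟨_, fun _ => rfl⟩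
  have hζ0 : ζ b0 = 1 := by rw [hζ, inv_mul_cancel₀ hb0]
  obtain ⟨t, ht, -⟩ := id hK
  obtain ⟨hA1, -, hA2⟩ := hAct n
  obtain ⟨hA3, hA4, hA5⟩ := hA2 X
  obtain ⟨T, hT, hTX⟩ := hA5 hX
  obtain ⟨L, hL1, hL2, hL3, hL4, hL5⟩ := hDefK K hK t ht _ (Set.finite_range ζ) T hT
  obtain ⟨L', R, D₁, D₂, h1, h2, h3, hR, hD, hlin⟩ := hGenR K hK L hL1 hL2 t ht hL4 k hk
  have halg : ∀ b, IsAlgebraic (fld L' t) (ζ b) := fun b => alg_mono h3 (hL5 _ ⟨b, rfl⟩)
  have hdef : DefX L' X := hTX L' fun c hc => h3 (hL3 hc)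
  have hres := hRes K hK L' h2 t ht
  have hgen : ∀ u : Pl K, GenPl L' t u → ∃ (r : Fin (n + 1) → ℂ) (h : r ≠ 0),
      (φ u).1 = Projectivization.mk ℂ r h ∧ ∀ P : MvPolynomial (Fin (n + 1)) L',
        aeval r P = 0 ↔ aeval ζ (map (algebraMap L' ℂ) P) = 0 := fun u hu => by
    obtain ⟨r, hr, hP⟩ := DivK.gen hK u (fun a ha => (hres u a ha).1 hu) halg
    have hr0 : r ≠ 0 := fun e => by
      have h4 := hr b0
      rw [hζ0, e] at h4
      exact one_ne_zero (Tends.one.unique h4)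
    exact ⟨r, hr0, (hVal n K).1 u η _ (η b0)⁻¹ r hr0 (hφ u) fun b => hζ b ▸ hr b, hP⟩
  have hfix : ∀ u : Pl K, ¬ GenPl L' t u → ∀ σ : ℂ ≃+* ℂ, Fixes σ L' → act σ (φ u).1 = (φ u).1 :=
    fun u hu σ hσ => by
    obtain ⟨c, r, hr0, hrL, hr⟩ := DivK.nongen hK u (fun a ha => (hres u a ha).2 hu) halg
      (hζ0 ▸ one_ne_zero : ζ b0 ≠ 0)
    have e : (fun i => σ (r i)) = r := funext fun i => hσ _ (hrL i)
    rw [(hVal n K).1 u η _ (c * (η b0)⁻¹) r hr0 (hφ u) fun b => by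
      rw [mul_assoc, ← hζ]; exact hr b, hA1 σ r hr0 (e.symm ▸ hr0)]
    congr 1
  have hrel := (hPush n X).2 K hK η φ hφ _ _ hlin
  have hall : ∀ u : Pl K, GenPl L' t u → ∃ D : X →₀ ℤ,
      single (φ u) 1 + mapDomain φ D₁ - k • D ∈ ratTrivial X := fun u hu => by
    obtain ⟨r, hr0, e1, hP⟩ := hgen R hR
    obtain ⟨r', hr0', e2, hP'⟩ := hgen u hu
    obtain ⟨σ, hσ, hσr⟩ := hAut (Fin (n + 1)) L' h1 r r' fun P => (hP P).trans (hP' P).symm
    obtain ⟨s, hs⟩ := hA3 L' σ hdef hσ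
    have e : (fun i => σ (r i)) = r' := funext hσr
    have h4 : s (φ R) = φ u := Subtype.ext (by
      rw [hs, e1, e2, hA1 σ r hr0 (e.symm ▸ hr0')]
      congr 1)
    have h5 : mapDomain s (mapDomain φ D₁) = mapDomain φ D₁ := by
      rw [← mapDomain_comp]
      exact mapDomain_congr fun x hx => Subtype.ext ((hs _).trans (hfix x (hD x hx) σ hσ))
    have h6 := hA4 σ s hs _ hrel
    refine ⟨mapDomain s (mapDomain φ D₂), ?_⟩
    have h7 := map_sub (mapDomain.addMonoidHom s : (X →₀ ℤ) →+ (X →₀ ℤ))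
      (mapDomain φ (single R 1 + D₁)) (mapDomain φ (k • D₂))
    simp only [mapDomain.addMonoidHom_apply] at h7
    rwa [h7, mapDomain_add, mapDomain_add, mapDomain_single, mapDomain_single, h4, h5,
      mapDomain_smul, mapDomain_smul] at h6
  obtain ⟨N, hN⟩ : ∃ N : AddSubgroup (X →₀ ℤ), N = ratTrivial X ⊔ (nsmulAddMonoidHom k).range :=
    ⟨_, rfl⟩
  have hN1 : ∀ D ∈ ratTrivial X, D ∈ N := fun D hD => hN ▸ AddSubgroup.mem_sup_left hD
  have hN2 : ∀ D : X →₀ ℤ, k • D ∈ N := fun D => hN ▸ AddSubgroup.mem_sup_right ⟨D, rfl⟩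
  have key := hMov K hK ((X →₀ ℤ) ⧸ N) ((QuotientAddGroup.mk' N).comp (mapDomain.addMonoidHom φ))
    (fun D E h => QuotientAddGroup.eq_iff_sub_mem.2 (hN1 _ ((hPush n X).2 K hK η φ hφ D E h)))
    _ (((hCount K hK).2.2 t ht).2 L' h1) (QuotientAddGroup.mk' N (-mapDomain φ D₁))
    fun u hu => by
      obtain ⟨D, hD⟩ := hall u (not_not.1 hu)
      refine QuotientAddGroup.eq_iff_sub_mem.2 ?_
      rw [mapDomain.addMonoidHom_apply, mapDomain_single, sub_neg_eq_add]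
      simpa using N.add_mem (hN1 _ hD) (hN2 D)
  have h8 := QuotientAddGroup.eq_iff_sub_mem.1 ((key v).trans (key w).symm)
  rw [mapDomain.addMonoidHom_apply, mapDomain.addMonoidHom_apply, mapDomain_single,
    mapDomain_single, hN] at h8
  obtain ⟨a, ha, _, ⟨D, rfl⟩, e⟩ := AddSubgroup.mem_sup.1 h8
  refine ⟨D, ?_⟩
  rw [← e]
  simpa using ha

end Pool.Agent.P.MP_7ebcb6_ag.FD
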