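import Pool.Agent.P.MP_7ebcb6_ag.FD.St

/-! Differences of points of an irreducible variety are divisible modulo rational equivalence. -/

open scoped LinearAlgebra.Projectivization WithZero
open MvPolynomial Finsupp

namespace Pool.Agent.P.MP_7ebcb6_ag.FD

noncomputable section

namespace DivX

variable {n : ℕ} {X : Set (PP n)}

/-- Cycles that are `k`-th multiples modulo rational equivalence. -/
def mult (X : Set (PP n)) (k : ℕ) : AddSubgroup (X →₀ ℤ) where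
  carrier := {E | ∃ D : X →₀ ℤ, E - k • D ∈ ratTrivial X}
  zero_mem' := ⟨0, by simp⟩
  add_mem' := by
    rintro a b ⟨D, h⟩ ⟨D', h'⟩
    refine ⟨D + D', ?_⟩
    rw [smul_add, ← sub_add_sub_comm]
    exact add_mem h h'
  neg_mem' := by
    rintro a ⟨D, h⟩
    refine ⟨-D, ?_⟩
    rw [smul_neg, ← neg_sub']
    exact neg_mem h

lemma cyc_one (x : Fin 1 → X) : cyc x = single (x 0) 1 := by simp [cyc]

/-- Forms that vanish on `X` lie in the ideal of a chart. -/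
lemma rename_mem (a : Fin (n + 1)) {P : MvPolynomial (Fin (n + 1)) ℂ} {d : ℕ}
    (hP : P.IsHomogeneous d) (h : ∀ z ∈ X, eval z.rep P = 0) :
    rename (fun b => ((0 : Fin 1), b)) P ∈ I1 X a := by
  rintro w ⟨-, x, -, hx⟩
  obtain ⟨h0, e⟩ := hx 0
  obtain ⟨c, hc⟩ := Projectivization.exists_smul_eq_mk_rep ℂ _ h0
  have h1 := h _ (x 0).2
  rw [e, ← hc] at h1
  have h2 : (c : ℂ) ^ d * aeval (fun b => w (0, b)) P = 0 :=
    (aeval_smul_homog hP (c : ℂ) fun b => w (0, b)).symm.trans h1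
  rw [aeval_rename]
  exact (mul_eq_zero.mp h2).resolve_left (pow_ne_zero _ c.ne_zero)

lemma genPt_iff {ι : Type} {L : Subfield ℂ} {𝔮 : Ideal (MvPolynomial ι ℂ)} {a b : ι → ℂ}
    (ha : GenPt L 𝔮 a) (hb : GenPt L 𝔮 b) (P : MvPolynomial ι L) (h : aeval a P = 0) :
    aeval b P = 0 := by
  rw [← aeval_map_algebraMap ℂ]
  exact hb.1 _ (ha.2 P h)

/-- Two points in one chart. -/
lemma chart (hAcl : S_Acl) (hAut : S_Aut) (hCount : S_Count) (hSpec : S_Spec) (hVal : S_Val)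
    (hAct : S_Act) (hTop : S_Top) (hT2 : S_T2) (hDivK : S_DivK) (hFam : S_Fam)
    (hX : zariskiClosure X ⊆ X) (hI : Irr X) {k : ℕ} (hk : 0 < k) (x y : X) (a : Fin (n + 1))
    (hx : x.1.rep a ≠ 0) (hy : y.1.rep a ≠ 0) : single x 1 - single y 1 ∈ mult X k := by
  obtain ⟨-, -, -, -, hch, -, -⟩ := hTop n X 1
  obtain ⟨a0, ha0, hr0⟩ := (hch (fun _ => a) fun _ => x).mp fun _ => hx
  obtain ⟨a1, ha1, hr1⟩ := (hch (fun _ => a) fun _ => y).mp fun _ => hy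
  obtain ⟨hZ, hP, -, -⟩ := hT2 n X hX 1 fun _ => a
  have hz : zeroLocus ℂ (I1 X a) = W (fun _ => a) (Set.univ : Set (Fin 1 → X)) :=
    hZ _ isClosed_univ
  have hp : (I1 X a).IsPrime := hP _ hI ⟨a0, ha0, _, trivial, hr0⟩
  obtain ⟨hmk, hfix, hrest⟩ := hAct n
  obtain ⟨hs, hrat, hdef⟩ := hrest X
  obtain ⟨TX, hTX, hL⟩ := hdef hX
  obtain ⟨Tx, hTx, hxx⟩ := hfix x.1
  obtain ⟨hsub, -, hcnt, -⟩ := hAcl (TX ∪ Tx)
  have hc := hcnt (hTX.union hTx.countable)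
  obtain ⟨K, _, _, hK, ψ, v₀, T, hT, hψ, h0, hgen⟩ := hSpec _ (I1 X a) hp _ hc a0
    (hz ▸ ⟨ha0, _, trivial, hr0⟩)
  obtain ⟨v, hv⟩ := (hCount K hK).1 T hT
  obtain ⟨ξ, hξ, hvξ⟩ := hgen v hv
  obtain ⟨huniq, hex⟩ := hVal n K
  obtain ⟨φ, hφ⟩ := hex X hX hK (fun b => ψ (0, b))
    (fun h => (h0 (0, a)).ne_zero (by rw [ha0 0]; exact one_ne_zero) (congrFun h a))
    fun P d hPd hPX => by
      have := hψ _ (rename_mem a hPd hPX)
      rwa [aeval_rename] at this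
  obtain ⟨hn0, e0⟩ := hr0 0
  have h1 : φ v₀ = x := Subtype.ext ((huniq v₀ _ _ 1 _ hn0 (hφ v₀) fun b => by
    rw [one_mul]
    exact h0 (0, b)).trans e0.symm)
  obtain ⟨-, z, -, hz0⟩ : ξ ∈ W (fun _ => a) (Set.univ : Set (Fin 1 → X)) := hz ▸ hξ.1
  obtain ⟨hnξ, -⟩ := hz0 0
  have h2 : (φ v).1 = Projectivization.mk ℂ _ hnξ := huniq v _ _ 1 _ hnξ (hφ v) fun b => by
    rw [one_mul]
    exact hvξ (0, b)
  obtain ⟨D, hD⟩ := hDivK n X hX K hK _ φ hφ k hk v₀ v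
  rw [h1] at hD
  have key := hFam n X hX _ 1 Prod.mk (I1 X a) hp
    (fun w hw => by
      obtain ⟨-, z, -, h⟩ : w ∈ W (fun _ => a) (Set.univ : Set (Fin 1 → X)) := hz ▸ hw
      exact ⟨z, h⟩) _ hc _ (QuotientAddGroup.mk' (mult X k))
    (fun E hE => (QuotientAddGroup.eq_zero_iff E).mpr ⟨0, by simpa using hE⟩)
    (QuotientAddGroup.mk' (mult X k) (single x 1))
    (fun ξ' x' hξ' hr' => by
      obtain ⟨σ, hσ, hσξ⟩ := hAut _ _ hc ξ ξ' fun P => ⟨genPt_iff hξ hξ' P, genPt_iff hξ' hξ P⟩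
      obtain ⟨s, hs⟩ := hs _ σ (hL _ fun c h => hsub (Or.inl h)) hσ
      obtain ⟨hn', e'⟩ := hr' 0
      have h3 : s x = x := Subtype.ext ((hs x).trans (hxx σ fun c h => hσ c (hsub (Or.inr h))))
      have h4 : s (φ v) = x' 0 := Subtype.ext (by
        have h5 : (fun b => σ (ξ (0, b))) = fun b => ξ' (0, b) := funext fun b => hσξ _
        rw [hs, h2, hmk σ _ hnξ (h5 ▸ hn'), e']
        congr 1)
      have h6 := hrat σ s hs _ hD
      rw [← mapDomain.addMonoidHom_apply, map_sub, map_sub, map_nsmul] at h6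
      simp only [mapDomain.addMonoidHom_apply, mapDomain_single, h3, h4] at h6
      rw [cyc_one, eq_comm]
      exact QuotientAddGroup.eq_iff_sub_mem.mpr ⟨_, h6⟩)
    a1 (hz ▸ ⟨ha1, _, trivial, hr1⟩) _ hr1
  rw [cyc_one, eq_comm] at key
  exact QuotientAddGroup.eq_iff_sub_mem.mp key

end DivX

open DivX

theorem thm_DivX (hAcl : S_Acl) (hAut : S_Aut) (hCount : S_Count) (hSpec : S_Spec) (hVal : S_Val)
    (hAct : S_Act) (hTop : S_Top) (hT2 : S_T2) (hIrr : S_Irr) (hDivK : S_DivK) (hFam : S_Fam) :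
    S_DivX := by
  intro n X hX hI k hk x y
  obtain ⟨a, ha⟩ := Function.ne_iff.mp x.1.rep_nonzero
  obtain ⟨b, hb⟩ := Function.ne_iff.mp y.1.rep_nonzero
  obtain ⟨z, hz, h1, h2⟩ := (hIrr n X).2.2.2 hI (MvPolynomial.X a) (MvPolynomial.X b) 1 1
    (isHomogeneous_X ℂ a) (isHomogeneous_X ℂ b) ⟨x.1, x.2, by simpa using ha⟩
    ⟨y.1, y.2, by simpa using hb⟩
  have h3 := add_mem
    (chart hAcl hAut hCount hSpec hVal hAct hTop hT2 hDivK hFam hX hI hk x ⟨z, hz⟩ a ha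
      (by simpa using h1))
    (chart hAcl hAut hCount hSpec hVal hAct hTop hT2 hDivK hFam hX hI hk ⟨z, hz⟩ y b
      (by simpa using h2) hb)
  rw [sub_add_sub_cancel] at h3
  exact h3

end

end Pool.Agent.P.MP_7ebcb6_ag.FD
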