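import Pool.Agent.P.MP_7ebcb6_ag.FD.St

/-! A family of cycles that is constant at the generic points is constant. -/

open scoped LinearAlgebra.Projectivization WithZero
open MvPolynomial TopologicalSpace WithZero Finsupp

namespace Pool.Agent.P.MP_7ebcb6_ag.FD

noncomputable section

namespace FamP

variable {n : ℕ}

lemma aeval_eq_zero_of_mk {P : MvPolynomial (Fin (n + 1)) ℂ} {d : ℕ} (hP : P.IsHomogeneous d)
    {r : Fin (n + 1) → ℂ} (h : r ≠ 0) (h0 : eval (Projectivization.mk ℂ r h).rep P = 0) :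
    aeval r P = 0 := by
  obtain ⟨c, hc⟩ := Projectivization.exists_smul_eq_mk_rep ℂ r h
  have h1 := aeval_smul_homog hP (c : ℂ) r
  have h2 : (fun i => (c : ℂ) * r i) = (Projectivization.mk ℂ r h).rep := hc
  rw [h2, aeval_eq_eval, h0] at h1
  exact (mul_eq_zero.mp h1.symm).resolve_left (pow_ne_zero d c.ne_zero)

lemma mh_X {m : ℕ} (v : Fin m × Fin (n + 1)) : MH (X v) (Pi.single v.1 1) :=
  isWeightedHomogeneous_X ℂ _ v

lemma rep_zero_iff (hT : S_Top) {Y : Set (PP n)} {m : ℕ} {a : Fin m × Fin (n + 1) → ℂ}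
    {x : Fin m → Y} (h : Rep Prod.mk a x) (i : Fin m) (b : Fin (n + 1)) :
    (x i).1.rep b = 0 ↔ a (i, b) = 0 := by
  simpa using (hT n Y m).2.2.1 (X (i, b)) _ a x (mh_X _) h

lemma isOpen_chart (hT : S_Top) (Y : Set (PP n)) {m : ℕ} (j : Fin m → Fin (n + 1)) :
    IsOpen {x : Fin m → Y | ∀ i, (x i).1.rep (j i) ≠ 0} := by
  rw [Set.ofPred_forall]
  refine isOpen_iInter_of_finite fun i => ?_
  have h := ((hT n Y m).2.1 (X (i, j i)) _ (mh_X _)).isOpen_compl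
  convert h using 1
  ext x
  simp

end FamP

open FamP

theorem thm_Fam (hSpec : S_Spec) (hVal : S_Val) (hMov : S_Mov) (hPush : S_Push) : S_Fam := by
  intro n Y hY ι _ m e 𝔮 h𝔮 hz L hL M _ χ hχ β hgen a ha x hx
  obtain ⟨K, _, _, hK, ψ, v₀, T, hT, hψ, h0, hT'⟩ := hSpec ι 𝔮 h𝔮 L hL a ha
  have hφ : ∀ i, ∃ φ : Pl K → Y, ∀ v, IsValueAt v.1 (fun b => ψ (e i b)) (φ v) := fun i => by
    refine (hVal n K).2 Y hY hK _ ?_ fun P d hP hv => ?_
    · obtain ⟨h, -⟩ := hx i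
      obtain ⟨b, hb⟩ := Function.ne_iff.mp h
      exact Function.ne_iff.mpr ⟨b, (h0 _).ne_zero hb⟩
    · have h1 : rename (e i) P ∈ 𝔮 := by
        rw [← IsPrime.vanishingIdeal_zeroLocus (K := ℂ) 𝔮, mem_vanishingIdeal_iff]
        intro a' ha'
        obtain ⟨x', hx'⟩ := hz a' ha'
        obtain ⟨h, e'⟩ := hx' i
        rw [aeval_rename]
        exact aeval_eq_zero_of_mk hP h (e' ▸ hv _ (x' i).2)
      have h2 := hψ _ h1
      rwa [aeval_rename] at h2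
  choose φ hφ using hφ
  have key : ∀ (v : Pl K) (a' : ι → ℂ) (x' : Fin m → Y), (∀ i, Tends v.1 (ψ i) (a' i)) →
      Rep e a' x' → (χ.comp (∑ i, mapDomain.addMonoidHom (φ i))) (single v 1) = χ (cyc x') := by
    intro v a' x' h1 h2
    rw [AddMonoidHom.comp_apply, AddMonoidHom.finsetSum_apply, cyc]
    congr 1
    refine Finset.sum_congr rfl fun i _ => ?_
    obtain ⟨h, e'⟩ := h2 i
    have h3 : φ i v = x' i := Subtype.ext (((hVal n K).1 v _ _ 1 _ h (hφ i v)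
      fun b => by simpa using h1 (e i b)).trans e'.symm)
    rw [mapDomain.addMonoidHom_apply, mapDomain_single, h3]
  rw [← key v₀ a x h0 hx]
  refine hMov K hK M _ (fun D E hDE => ?_) T hT β (fun v hv => ?_) v₀
  · rw [← sub_eq_zero, AddMonoidHom.comp_apply, AddMonoidHom.comp_apply, ← map_sub,
      AddMonoidHom.finsetSum_apply, AddMonoidHom.finsetSum_apply, ← Finset.sum_sub_distrib]
    exact hχ _ (sum_mem fun i _ => (hPush n Y).2 K hK _ (φ i) (hφ i) D E hDE)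
  · obtain ⟨a', h1, h2⟩ := hT' v hv
    obtain ⟨x', hx'⟩ := hz a' h1.1
    rw [key v a' x' h2 hx']
    exact hgen a' x' h1 hx'

theorem thm_Clo (hAcl : S_Acl) (hTop : S_Top) (hT2 : S_T2) (hFam : S_Fam) : S_Clo := by
  intro n Y hY m j Z hZ hI hne M _ χ hχ β hβ x hx
  obtain ⟨-, -, -, -, h5, -, h7⟩ := hTop n Y m
  have hj : ∀ i, ∃ b, (x i).1.rep b ≠ 0 := fun i => Function.ne_iff.mp (x i).1.rep_nonzero
  choose j' hj' using hj
  obtain ⟨a₀, h1, h2⟩ := (h5 j' x).1 hj'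
  have h3 : a₀ ∈ W j' Z := ⟨h1, x, hx, h2⟩
  obtain ⟨hA, hB, -⟩ := hT2 n Y hY m j'
  have h4 := hA Z hZ
  obtain ⟨z, hz, hz1, hz2⟩ : (Z ∩ ({x : Fin m → Y | ∀ i, (x i).1.rep (j i) ≠ 0} ∩
      {x : Fin m → Y | ∀ i, (x i).1.rep (j' i) ≠ 0})).Nonempty := by
    obtain ⟨a, ha, y, hy, hay⟩ := hne
    exact hI.2 _ _ (isOpen_chart hTop Y j) (isOpen_chart hTop Y j')
      ⟨y, hy, (h5 j y).2 ⟨a, ha, hay⟩⟩ ⟨x, hx, hj'⟩
  obtain ⟨a₁, h6, h8⟩ := (h5 j' z).1 hz2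
  refine hFam n Y hY (Fin m × Fin (n + 1)) m Prod.mk _ (hB Z hI ⟨a₀, h3⟩) (fun a ha => ?_)
    (acl ∅) ((hAcl ∅).2.2.1 Set.countable_empty) M χ hχ β (fun a y ha hy => ?_) a₀
    (h4.symm ▸ h3) x h2
  · rw [h4] at ha
    exact ha.2.imp fun _ h => h.2
  · obtain ⟨-, y', hy', h9⟩ : a ∈ W j' Z := h4 ▸ ha.1
    obtain rfl : y = y' := h7 _ _ a y y' hy h9
    obtain ⟨a₂, h10, h11⟩ := (h5 j y).1 fun i h => by
      have h12 := ha.2 (X (i, j i)) (by simpa using (rep_zero_iff hTop hy i (j i)).1 h)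
      have h13 := mem_vanishingIdeal_iff.mp h12 a₁ ⟨h6, z, hz, h8⟩
      exact hz1 i ((rep_zero_iff hTop h8 i (j i)).2 (by simpa using h13))
    exact hβ a₂ ⟨h10, y, hy', h11⟩ y h11

end

end Pool.Agent.P.MP_7ebcb6_ag.FD
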