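import Pool.Agent.P.MP_7ebcb6_ag.FD.St

/-! Bounded representation of the cycles of degree zero gives finite-dimensionality. -/

open scoped LinearAlgebra.Projectivization WithZero
open MvPolynomial TopologicalSpace WithZero Finsupp
open Pool.Agent.P.MP_68ca4e_ag.M (td)

namespace Pool.Agent.P.MP_7ebcb6_ag.FD

namespace FinD

lemma exists_nat {x : WithBot ℕ∞} {N : ℕ} (h0 : 0 ≤ x) (hN : x ≤ (N : ℕ)) :
    ∃ a : ℕ, x = a ∧ a ≤ N := by
  induction x with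
  | bot => simp at h0
  | coe y =>
    induction y with
    | top =>
      exfalso
      have h1 : ((⊤ : ℕ∞) : WithBot ℕ∞) ≤ ((N : ℕ∞) : WithBot ℕ∞) := hN
      have h2 : (⊤ : ℕ∞) ≤ (N : ℕ∞) := WithBot.coe_le_coe.1 h1
      simp at h2
    | coe a =>
      refine ⟨a, rfl, ?_⟩
      have h1 : ((a : ℕ∞) : WithBot ℕ∞) ≤ ((N : ℕ∞) : WithBot ℕ∞) := hN
      exact_mod_cast h1

lemma zero_nonempty {ι : Type} [Finite ι] {𝔮 : Ideal (MvPolynomial ι ℂ)} (h : 𝔮.IsPrime) :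
    (zeroLocus ℂ 𝔮).Nonempty := by
  by_contra hne
  rw [Set.not_nonempty_iff_eq_empty] at hne
  have h1 := IsPrime.vanishingIdeal_zeroLocus (K := ℂ) 𝔮
  rw [hne, vanishingIdeal_empty] at h1
  exact h.ne_top h1.symm

lemma lower (hT2 : S_T2) (hChain : S_Chain) (hQ2 : S_Q2) (hClo : S_Clo) (hFib : S_Fib) {n : ℕ}
    {X : Set (PP n)} (hX : zariskiClosure X ⊆ X) (hI : Irr X) {G : ℕ} {E₀ : Fin G → X}
    (hB : ∀ D : X →₀ ℤ, D.degree = 0 → ∃ E : Fin G → X, D - (cyc E - cyc E₀) ∈ ratTrivial X)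
    (m : ℕ) (x : Fin (m + G) → X) :
    ((dimX X * m : ℕ) : WithBot ℕ∞) ≤
      maxDim {t : SymPow X (m + G) | t.1 - cyc x ∈ ratTrivial X} := by
  obtain ⟨j, 𝔮, hp, hd, hW, hr⟩ := hFib n X hX hI G E₀ hB m x
  obtain ⟨hirr, hcl⟩ := (hT2 n X hX (m + G) j).2.2.2 𝔮 hp hW
  have hall : ∀ y ∈ cl X 𝔮, cyc y - cyc x ∈ ratTrivial X := by
    intro y hy
    have h := hClo n X hX (m + G) j (cl X 𝔮) isClosed_closure hirr
      (by rw [hcl]; exact zero_nonempty hp) _ (QuotientAddGroup.mk' (ratTrivial X))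
      (fun D hD => (QuotientAddGroup.eq_zero_iff D).2 hD)
      (QuotientAddGroup.mk' (ratTrivial X) (cyc x))
      (fun a ha z hz => QuotientAddGroup.eq_iff_sub_mem.2 (hr a (hcl ▸ ha) z hz)) y hy
    exact QuotientAddGroup.eq_iff_sub_mem.1 h
  obtain ⟨Z, hZ, hsub⟩ := hChain n X hX (m + G) j 𝔮 hp hW
  refine le_trans ?_ (hQ2 n X (m + G) (td 𝔮) Z hZ _ fun i y hy => hall y (hsub i hy))
  exact_mod_cast hd

end FinD

theorem thm_Fin (hT2 : S_T2) (hChain : S_Chain) (hUp : S_Up) (hQ1 : S_Q1) (hSym : S_Sym)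
    (hQ2 : S_Q2) (hPt : S_Pt) (hClo : S_Clo) (hFib : S_Fib) : S_Fin := by
  rintro n X hX hI ⟨G, E₀, hB⟩
  refine ⟨dimX X * G, fun m s => ?_⟩
  obtain ⟨-, -, hc, hcm, hs, hf⟩ := hSym n X m
  have hup : topologicalKrullDim (SymPow X m) ≤ (dimX X * m : ℕ) :=
    (hQ1 _ _ (pr X m) hc hcm hs hf).trans (hUp n X hX m)
  obtain ⟨h1, h2⟩ := hPt n X m {t : SymPow X m | t.1 - s.1 ∈ ratTrivial X}
  have h0 := h2 ⟨s, by simp⟩
  obtain ⟨a, ha, haN⟩ := FinD.exists_nat (h0.trans h1) hup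
  obtain ⟨b, hb, -⟩ := FinD.exists_nat h0 (h1.trans hup)
  refine ⟨a, b, ha, hb, ?_⟩
  rcases le_total m G with hm | hm
  · exact haN.trans ((Nat.mul_le_mul_left _ hm).trans (Nat.le_add_left _ _))
  · obtain ⟨m', rfl⟩ : ∃ m', m = m' + G := ⟨m - G, by omega⟩
    obtain ⟨_, x, rfl⟩ := s
    have h3 := FinD.lower hT2 hChain hQ2 hClo hFib hX hI
      (fun D hD => hB D (AddMonoidHom.mem_ker.2 hD)) m' x
    rw [hb] at h3
    have h4 : dimX X * m' ≤ b := by exact_mod_cast h3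
    rw [mul_add] at haN
    omega

theorem thm_W2 (hT2 : S_T2) (hChain : S_Chain) (hUp : S_Up) (hQ1 : S_Q1) (hSym : S_Sym)
    (hQ2 : S_Q2) (hPt : S_Pt) (hClo : S_Clo) (hFib : S_Fib) (hIrr : S_Irr) (hDim1 : S_Dim1)
    (hBD : S_BD) : S_W2 := by
  intro n X hX hS F r hF hx hD
  have hI : Irr X := (hIrr n X).1 hS.1
  have hd : dimX X ≤ 2 := hDim1 n X hX hI 2 (by rw [hS.2]; exact le_rfl)
  exact thm_Fin hT2 hChain hUp hQ1 hSym hQ2 hPt hClo hFib n X hX hI (hBD n X hX hI hd F r hF hx hD)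

end Pool.Agent.P.MP_7ebcb6_ag.FD
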