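import Pool.Agent.P.MP_7ebcb6_ag.FD.St

open scoped WithZero
open WithZero Finsupp

namespace Pool.Agent.P.MP_7ebcb6_ag.FD

namespace GenR

lemma cyc_snoc {α : Type} {m : ℕ} (Q : Fin m → α) (v : α) :
    cyc (Fin.snoc Q v : Fin (m + 1) → α) = cyc Q + single v 1 := by
  simp [cyc, Fin.sum_univ_castSucc]

lemma cyc_succ {α : Type} {m : ℕ} (R : Fin (m + 1) → α) :
    cyc R = single (R 0) 1 + cyc (Fin.tail R) := by
  simp [cyc, Fin.sum_univ_succ, Fin.tail]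

lemma cyc_nonneg {α : Type} {m : ℕ} (Q : Fin m → α) : 0 ≤ cyc Q :=
  Finset.sum_nonneg fun _ _ => single_nonneg.mpr zero_le_one

lemma cyc_degree {α : Type} {m : ℕ} (Q : Fin m → α) : (cyc Q).degree = m := by
  simp [cyc, map_sum]

lemma cyc_apply_of_ne {α : Type} {m : ℕ} (Q : Fin m → α) {v : α} (h : ∀ j, Q j ≠ v) :
    cyc Q v = 0 := by
  rw [cyc, finset_sum_apply]
  exact Finset.sum_eq_zero fun j _ => single_eq_of_ne' (h j)

lemma one_le_cyc {α : Type} {m : ℕ} (Q : Fin m → α) (i : Fin m) : 1 ≤ cyc Q (Q i) := by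
  rw [cyc, finset_sum_apply]
  have := Finset.single_le_sum (f := fun j => (single (Q j) (1 : ℤ)) (Q i))
    (fun j _ => (single_nonneg.mpr zero_le_one : (0 : α →₀ ℤ) ≤ single (Q j) 1) (Q i))
    (Finset.mem_univ i)
  simpa using this

variable {K : Type} [Field K] [Algebra ℂ K]

lemma not_genPl {t : K} {P : Pl K} (h : 1 < P.1 t) (L : Subfield ℂ) : ¬ GenPl L t P :=
  fun ⟨_, _, h2⟩ => absurd h2.le_one (not_le.mpr h)

lemma exists_values (t : K) {m : ℕ} (R : Fin m → Pl K) :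
    ∃ ρ : Fin m → ℂ, (∀ j c, Tends (R j).1 t c → c = ρ j) ∧
      ∀ j, ρ j ≠ 0 → Tends (R j).1 t (ρ j) := by
  have : ∀ j, ∃ r : ℂ, (∀ c, Tends (R j).1 t c → c = r) ∧ (r ≠ 0 → Tends (R j).1 t r) := by
    intro j
    by_cases h : ∃ c, Tends (R j).1 t c
    · obtain ⟨c, hc⟩ := h
      exact ⟨c, fun c' hc' => hc'.unique hc, fun _ => hc⟩
    · exact ⟨0, fun c hc => absurd ⟨c, hc⟩ h, fun h0 => absurd rfl h0⟩
  choose ρ h1 h2 using this
  exact ⟨ρ, h1, h2⟩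

end GenR

open GenR in
theorem thm_GenR (hAcl : S_Acl) (hSnoc : S_Snoc) (hExch : S_Exch) (hCount : S_Count)
    (hRie : S_Rie) (hKey : S_Key) : S_GenR := by
  intro K _ _ hK L hLc hLa t ht hD k hk
  obtain ⟨hc1, -, hc3⟩ := hCount K hK
  obtain ⟨⟨P0, hP0⟩, hc4⟩ := hc3 t ht
  obtain ⟨hr0, g, hr1, hr2⟩ := hRie K hK
  have hcnt : ∀ {m : ℕ} (τ : Fin m → ℂ), (acl (L ∪ Set.range τ) : Set ℂ).Countable := fun τ =>
    (hAcl _).2.2.1 (hLc.union (Set.countable_range τ))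
  have hle : ∀ {m : ℕ} (τ : Fin m → ℂ), L ≤ acl (L ∪ Set.range τ) := fun τ c hc =>
    (hAcl _).1 (Or.inl hc)
  have hmem : ∀ {m : ℕ} (τ : Fin m → ℂ) (j : Fin m), τ j ∈ acl (L ∪ Set.range τ) := fun τ j =>
    (hAcl _).1 (Or.inr ⟨j, rfl⟩)
  have hQ : ∀ i ≤ g, ∃ (Q : Fin i → Pl K) (τ : Fin i → ℂ), (∀ j, Tends (Q j).1 t (τ j)) ∧
      AlgebraicIndependent L τ ∧ Rigid (cyc Q) := by
    intro i
    induction i with
    | zero =>
      exact fun _ => ⟨Fin.elim0, Fin.elim0, fun j => j.elim0, algebraicIndependent_empty_type,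
        by simpa [cyc] using hr0⟩
    | succ i ih =>
      intro hi
      obtain ⟨Q, τ, h1, h2, h3⟩ := ih (by omega)
      have h4 := hr2 (cyc Q) (cyc_nonneg Q) (by rw [cyc_degree]; exact_mod_cast hi) h3
      obtain ⟨v, hv⟩ := hc1 _ ((hc4 _ (hcnt τ)).union h4.countable)
      rw [Set.mem_union, not_or, Set.mem_setOf_eq, Set.mem_setOf_eq, not_not, not_not] at hv
      obtain ⟨⟨c, hc, hvc⟩, hv2⟩ := hv
      refine ⟨Fin.snoc Q v, Fin.snoc τ c, fun j => ?_, hSnoc L i τ c h2 hc, by rwa [cyc_snoc]⟩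
      refine Fin.lastCases ?_ (fun j => ?_) j
      · simpa using hvc
      · simpa using h1 j
  rcases g with _ | g
  · obtain ⟨R, hR⟩ := hc1 _ (hc4 L hLc)
    rw [Set.mem_setOf_eq, not_not] at hR
    obtain ⟨E, hE⟩ := hr1 (single R 1 + -single P0 1) (by simp)
    refine ⟨L, R, -single P0 1, 0, hLc, hLa, le_rfl, hR, fun v hv => ?_, by simpa [cyc] using hE⟩
    rw [support_neg] at hv
    rw [Finset.mem_singleton.mp (support_single_subset hv)]
    exact not_genPl hP0 L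
  obtain ⟨Q, τ, hτ, hind, hrig⟩ := hQ _ le_rfl
  obtain ⟨R, f, hf, hord⟩ := hr1 (k • cyc Q - single P0 (((k : ℤ) - 1) * (g + 1 : ℕ))) (by
    rw [map_sub, map_nsmul, cyc_degree, degree_single, nsmul_eq_mul]; ring)
  obtain ⟨ρ, hρ1, hρ2⟩ := exists_values t R
  have hRn : ∀ (L' : Subfield ℂ) j, ρ j ∈ L' → ¬ GenPl L' t (R j) :=
    fun L' j hj ⟨c, hc, hc'⟩ => hc (hρ1 j c hc' ▸ hj)
  have hgen : ∀ v, GenPl (acl (L ∪ Set.range ρ)) t v → ord v.1 f = k * cyc Q v := by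
    intro v hv
    have h1 : P0 ≠ v := fun h => not_genPl hP0 _ (h ▸ hv)
    have h2 : ∀ j, R j ≠ v := fun j h => hRn _ j (hmem ρ j) (h ▸ hv)
    rw [← hord v, cyc_apply_of_ne R h2, Finsupp.sub_apply, single_eq_of_ne' h1]
    simp
  have hτ1 : ∀ i, τ i ∈ acl (L ∪ Set.range ρ) := by
    intro i
    by_contra hi
    have hg : GenPl (acl (L ∪ Set.range ρ)) t (Q i) := ⟨τ i, hi, hτ i⟩
    obtain ⟨h, hh1, hh2⟩ := hKey K hK _ (hAcl _).2.1 t ht (hD.mono (hle ρ)) f hf (Q i) hg (by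
      rw [hgen _ hg]
      have := one_le_cyc Q i
      positivity)
    obtain ⟨c, rfl⟩ := hrig h fun v => by
      by_cases hv : ∃ j, Q j = v
      · obtain ⟨j, rfl⟩ := hv
        exact (hh2 _).1.trans (exp_le_exp.mpr (one_le_cyc Q j))
      · have h0 := cyc_apply_of_ne Q (not_exists.mp hv)
        rw [h0, exp_zero]
        refine (hh2 v).2 ?_
        by_cases hg' : GenPl (acl (L ∪ Set.range ρ)) t v
        · exact Or.inr (by rw [hgen v hg', h0, mul_zero])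
        · exact Or.inl hg'
    exact absurd (Tends.const (v := (Q i).1) c).le_one (not_le.mpr hh1)
  have h0 : ρ 0 ∉ acl (L ∪ Set.range (Fin.tail ρ)) := by
    intro h0
    have h1 : acl (L ∪ Set.range ρ) ≤ acl (L ∪ Set.range (Fin.tail ρ)) := by
      refine (hAcl _).2.2.2 _ (hAcl _).2.1 (Set.union_subset (hle _) ?_)
      rintro _ ⟨j, rfl⟩
      exact Fin.cases h0 (fun j => hmem (Fin.tail ρ) j) j
    have := hExch L _ _ τ (Fin.tail ρ) hind fun i => h1 (hτ1 i)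
    omega
  refine ⟨acl (L ∪ Set.range (Fin.tail ρ)), R 0,
    cyc (Fin.tail R) + single P0 (((k : ℤ) - 1) * (g + 1 : ℕ)), cyc Q, hcnt _, (hAcl _).2.1, hle _,
    ⟨ρ 0, h0, hρ2 0 fun h => h0 (h ▸ Subfield.zero_mem _)⟩, fun v hv hg => ?_, f⁻¹, inv_ne_zero hf,
    fun v => ?_⟩
  · have h1 : P0 ≠ v := fun h => not_genPl hP0 _ (h ▸ hg)
    have h2 : ∀ j, Fin.tail R j ≠ v := fun j h =>
      hRn _ j.succ (hmem (Fin.tail ρ) j) ((show R j.succ = v from h) ▸ hg)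
    rw [mem_support_iff, Finsupp.add_apply, cyc_apply_of_ne _ h2, single_eq_of_ne' h1] at hv
    exact hv (add_zero 0)
  · have h1 := hord v
    have h2 : ord v.1 f⁻¹ = -ord v.1 f := by simp [ord]
    rw [h2, ← h1, ← add_assoc, ← cyc_succ, Finsupp.add_apply, Finsupp.sub_apply]
    ring

end Pool.Agent.P.MP_7ebcb6_ag.FD
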