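import Pool.Agent.P.MP_7ebcb6_ag.FD.St

/-! Irreducibility of `X`, of `S¹(X)` and of closures of images; the dimension of `S¹(X)`. -/

open scoped LinearAlgebra.Projectivization WithZero
open MvPolynomial TopologicalSpace WithZero Finsupp
open Pool.Agent.P.MP_68ca4e_ag.M (td)

namespace Pool.Agent.P.MP_7ebcb6_ag.FD

noncomputable section

namespace IrrP

variable {n : ℕ}

lemma weight_eq (m : Fin 1 × Fin (n + 1) →₀ ℕ) :
    Finsupp.weight (fun v : Fin 1 × Fin (n + 1) => (Pi.single v.1 1 : Fin 1 → ℕ)) m =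
      fun _ => Finsupp.weight 1 m := by
  funext i
  simp only [Finsupp.weight_apply, Finsupp.sum, Finset.sum_apply, Pi.smul_apply, Pi.one_apply]
  refine Finset.sum_congr rfl fun v _ => ?_
  rw [Subsingleton.elim i v.1, Pi.single_eq_same]

lemma mh_iff (P : MvPolynomial (Fin 1 × Fin (n + 1)) ℂ) (d : Fin 1 → ℕ) :
    MH P d ↔ P.IsHomogeneous (d 0) := by
  refine forall₂_congr fun m _ => ?_
  rw [weight_eq]
  exact ⟨fun h => congrFun h 0, fun h => funext fun i => by rw [Subsingleton.elim i 0]; exact h⟩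

lemma ev_const {X : Set (PP n)} (x : Fin 1 → X) (P : MvPolynomial (Fin 1 × Fin (n + 1)) ℂ) :
    eval (x 0).1.rep (rename Prod.snd P) = ev x P := by
  rw [eval_rename]
  congr 2
  funext v
  rw [Subsingleton.elim v.1 0]
  rfl

lemma ev_rename {X : Set (PP n)} (x : Fin 1 → X) (P : MvPolynomial (Fin (n + 1)) ℂ) :
    ev x (rename (fun b => ((0 : Fin 1), b)) P) = eval (x 0).1.rep P := by
  rw [ev, eval_rename]
  rfl

lemma eval_rep_mk {P : MvPolynomial (Fin (n + 1)) ℂ} {d : ℕ} (hP : P.IsHomogeneous d)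
    (r : Fin (n + 1) → ℂ) (h : r ≠ 0) :
    eval (Projectivization.mk ℂ r h).rep P = 0 ↔ eval r P = 0 := by
  obtain ⟨a, ha⟩ := Projectivization.exists_smul_eq_mk_rep ℂ r h
  have h2 : eval (a • r) P = (a : ℂ) ^ d * eval r P := aeval_smul_homog hP (a : ℂ) r
  rw [← ha, h2, mul_eq_zero, or_iff_right (pow_ne_zero _ a.ne_zero)]

lemma eval_aeval' {ι : Type} (p : ι → ℂ) (N : Fin (n + 1) → MvPolynomial ι ℂ)
    (P : MvPolynomial (Fin (n + 1)) ℂ) :
    aeval p (aeval N P) = eval (fun i => eval p (N i)) P := by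
  induction P using MvPolynomial.induction_on <;> simp_all [aeval_eq_eval]

end IrrP

open IrrP

theorem thm_Irr (hT : S_Top) (hS : S_Sym) : S_Irr := by
  intro n X
  obtain ⟨t1, t2, -⟩ := hT n X 1
  obtain ⟨s1, -, s3, s4, s5, -⟩ := hS n X 1
  refine ⟨fun h => ?_, fun h => ?_, fun hne h => ⟨?_, ?_⟩, fun h P Q d e hP hQ hp hq => ?_⟩
  · have hinj : Function.Injective (pr X 1) := fun x y e => by
      obtain ⟨g, rfl⟩ := (s1 x y).1 e
      funext i
      exact congrArg x (Subsingleton.elim _ _)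
    let f := (Equiv.ofBijective _ ⟨hinj, s5⟩).toHomeomorphOfContinuousClosed s3 s4
    have := (IrreducibleSpace.isIrreducible_univ (SymPow X 1)).image f.symm
      f.symm.continuous.continuousOn
    rwa [Set.image_univ, f.symm.surjective.range_eq] at this
  · have := IsIrreducible.image h (pr X 1) s3.continuousOn
    rw [Set.image_univ, s5.range_eq] at this
    exact (irreducibleSpace_def _).2 this
  · obtain ⟨x, hx⟩ := hne
    exact ⟨fun _ => ⟨x, hx⟩, trivial⟩
  · have key : ∀ U : Set (Fin 1 → X), IsOpen U → ∀ x ∈ U, ∃ (P : MvPolynomial (Fin (n + 1)) ℂ)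
        (d : ℕ), P.IsHomogeneous d ∧ eval (x 0).1.rep P ≠ 0 ∧
          ∀ z : Fin 1 → X, z ∉ U → eval (z 0).1.rep P = 0 := by
      intro U hU x hx
      have h1 : x ∉ closure Uᶜ := by
        rw [hU.isClosed_compl.closure_eq]; exact fun h => h hx
      rw [t1] at h1
      push Not at h1
      obtain ⟨P, d, hP, h2, h3⟩ := h1
      exact ⟨rename Prod.snd P, d 0, ((mh_iff P d).1 hP).rename_isHomogeneous,
        by rwa [ev_const], fun z hz => by rw [ev_const]; exact h2 z hz⟩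
    rintro U V hU hV ⟨x, -, hx⟩ ⟨y, -, hy⟩
    obtain ⟨P, d, hP, p1, p2⟩ := key U hU x hx
    obtain ⟨Q, e, hQ, q1, q2⟩ := key V hV y hy
    by_contra hc
    rcases h P Q d e hP hQ (fun z hz => by
      rw [map_mul, mul_eq_zero]
      by_cases hz' : (fun _ => ⟨z, hz⟩ : Fin 1 → X) ∈ U
      · exact Or.inr (q2 (fun _ => ⟨z, hz⟩) fun h' => hc ⟨_, trivial, hz', h'⟩)
      · exact Or.inl (p2 (fun _ => ⟨z, hz⟩) hz')) with h' | h'
    · exact p1 (h' _ (x 0).2)
    · exact q1 (h' _ (y 0).2)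
  · have op : ∀ (P : MvPolynomial (Fin (n + 1)) ℂ) (d : ℕ), P.IsHomogeneous d →
        IsOpen {x : Fin 1 → X | eval (x 0).1.rep P ≠ 0} := fun P d hP => by
      have := (t2 (rename (fun b => ((0 : Fin 1), b)) P) (fun _ => d)
        ((mh_iff _ _).2 hP.rename_isHomogeneous)).isOpen_compl
      simp only [ev_rename] at this
      exact this
    obtain ⟨x, hx, hx'⟩ := hp
    obtain ⟨y, hy, hy'⟩ := hq
    obtain ⟨z, -, h1, h2⟩ := h.2 _ _ (op P d hP) (op Q e hQ) ⟨fun _ => ⟨x, hx⟩, trivial, hx'⟩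
      ⟨fun _ => ⟨y, hy⟩, trivial, hy'⟩
    exact ⟨z 0, (z 0).2, h1, h2⟩

theorem thm_Dim1 (h2 : S_T2) (hC : S_Chain) (hQ : S_Q2) (hP : S_Pt) : S_Dim1 := by
  intro n X hX hI e he
  refine Finset.sup_le fun a _ => ?_
  obtain ⟨ta, tb, -⟩ := h2 n X hX 1 fun _ => a
  rcases (W (fun _ => a) (Set.univ : Set (Fin 1 → X))).eq_empty_or_nonempty with h | h
  · have h1 : I1 X a = ⊤ := by
      rw [I1, h, Ideal.eq_top_iff_one]
      exact fun _ hx => hx.elim
    have : Subsingleton (MvPolynomial (Fin 1 × Fin (n + 1)) ℂ ⧸ I1 X a) :=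
      Ideal.Quotient.subsingleton_iff.2 h1
    have h0 : Algebra.trdeg ℂ (MvPolynomial (Fin 1 × Fin (n + 1)) ℂ ⧸ I1 X a) = 0 :=
      trdeg_eq_zero_of_not_injective fun hi =>
        zero_ne_one (α := ℂ) (hi (Subsingleton.elim _ _))
    rw [td, h0]
    simp
  · obtain ⟨Z, hZ, -⟩ := hC n X hX 1 (fun _ => a) (I1 X a) (tb _ hI h) (ta _ isClosed_univ).le
    have := ((hQ n X 1 _ Z hZ Set.univ fun _ _ _ => trivial).trans (hP n X 1 _).1).trans he
    exact_mod_cast this

theorem thm_IrrIm (hT : S_Top) (hS : S_Sym) : S_IrrIm := by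
  intro n ι S N
  refine ⟨fun x hx P d hP h => hx P d hP fun z hz => hz P d hP h, fun hpr hp => ?_⟩
  obtain ⟨p, hp, k, hk⟩ := hp
  have hsub : im S N ⊆ zariskiClosure (im S N) := fun z hz P d _ h => h z hz
  have hne : (fun i => eval p (N i)) ≠ 0 := fun h => hk (congrFun h k)
  have back : ∀ (P : MvPolynomial (Fin (n + 1)) ℂ) (d : ℕ), P.IsHomogeneous d →
      aeval N P ∈ vanishingIdeal ℂ S → ∀ x ∈ zariskiClosure (im S N), eval x.rep P = 0 := by
    intro P d hP h x hx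
    refine hx P d hP ?_
    rintro _ ⟨q, hq, hq0, rfl⟩
    rw [eval_rep_mk hP, ← eval_aeval']
    exact h q hq
  refine (thm_Irr hT hS n _).2.2.1 ⟨_, hsub ⟨p, hp, hne, rfl⟩⟩ fun P Q d e hP hQ h => ?_
  have hmem : N k * (aeval N P * aeval N Q) ∈ vanishingIdeal ℂ S := by
    intro q hq
    rw [← map_mul, map_mul (aeval q), eval_aeval']
    by_cases h0 : (fun i => eval q (N i)) = 0
    · exact mul_eq_zero_of_left (congrFun h0 k) _
    · exact mul_eq_zero_of_right _ ((eval_rep_mk (hP.mul hQ) _ h0).1 (h _ (hsub ⟨q, hq, h0, rfl⟩)))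
  rcases hpr.mem_or_mem hmem with h1 | h1
  · exact absurd (h1 p hp) hk
  · exact (hpr.mem_or_mem h1).imp (back P d hP) (back Q e hQ)

end

end Pool.Agent.P.MP_7ebcb6_ag.FD
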