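import Pool.Agent.P.MP_7ebcb6_ag.FD.St

/-! Derivations preserve the local rings of a curve that is defined over a subfield. -/

open scoped WithZero Polynomial
open WithZero

namespace Pool.Agent.P.MP_7ebcb6_ag.FD

noncomputable section

namespace LocP

variable {K : Type} [Field K] [Algebra ℂ K] {L : Subfield ℂ} {t : K} {δ : K →+ K}

/-- The elements that are algebraic over `L(t)`. -/
def FF (L : Subfield ℂ) (t : K) : Subfield K := (algebraicClosure (fld L t) K).toSubfield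

lemma mem_FF {a : K} : a ∈ FF L t ↔ IsAlgebraic (fld L t) a := mem_algebraicClosure_iff

lemma fld_le {a : K} (ha : a ∈ fld L t) : a ∈ FF L t :=
  mem_FF.2 (isAlgebraic_algebraMap (⟨a, ha⟩ : fld L t))

lemma t_mem : t ∈ fld L t := Subfield.subset_closure (Set.mem_insert _ _)

lemma c_mem {c : ℂ} (hc : c ∈ L) : algebraMap ℂ K c ∈ fld L t :=
  Subfield.subset_closure (Set.mem_insert_of_mem _ ⟨c, hc, rfl⟩)

/-- The derivation over the integers. -/
def dZ (h : IsDer L t δ) : Derivation ℤ K K := Derivation.mk' δ.toIntLinearMap h.leib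

lemma d_one (h : IsDer L t δ) : δ 1 = 0 := (dZ h).map_one_eq_zero

lemma d_inv (h : IsDer L t δ) (a : K) : δ a⁻¹ = -a⁻¹ ^ 2 * δ a := (dZ h).leibniz_inv a

lemma d_zpow (h : IsDer L t δ) (a : K) (n : ℤ) : δ (a ^ n) = n * (a ^ (n - 1) * δ a) := by
  have := (dZ h).leibniz_zpow a n
  rw [zsmul_eq_mul] at this
  exact this

lemma d_fld (h : IsDer L t δ) {a : K} (ha : a ∈ fld L t) : δ a = 0 := by
  induction ha using Subfield.closure_induction with
  | mem x hx =>
    rcases hx with rfl | ⟨c, hc, rfl⟩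
    · exact h.var
    · exact h.base c hc
  | one => exact d_one h
  | add x y _ _ hx hy => rw [map_add, hx, hy, add_zero]
  | neg x _ hx => rw [map_neg, hx, neg_zero]
  | inv x _ hx => rw [d_inv h, hx, mul_zero]
  | mul x y _ _ hx hy => rw [h.leib, hx, hy, mul_zero, mul_zero, add_zero]

lemma der_ne {a : K} (ha : a ∈ FF L t) :
    Polynomial.aeval a (Polynomial.derivative (minpoly (fld L t) a)) ≠ 0 := by
  have : CharZero K := charZero_of_injective_algebraMap (algebraMap ℂ K).injective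
  exact (minpoly.irreducible (mem_FF.1 ha).isIntegral).separable.aeval_derivative_ne_zero
    (minpoly.aeval _ _)

lemma d_FF (h : IsDer L t δ) {a : K} (ha : a ∈ FF L t) : δ a = 0 := by
  let D : Derivation (fld L t) K K := Derivation.mk'
    { toFun := δ
      map_add' := δ.map_add
      map_smul' := fun r x => by
        show δ (r.1 * x) = r.1 * δ x
        rw [h.leib, d_fld h r.2, mul_zero, add_zero] } h.leib
  have e := D.map_aeval (minpoly (fld L t) a) a
  rw [minpoly.aeval, map_zero, smul_eq_mul] at e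
  exact (mul_eq_zero.1 e.symm).resolve_left (der_ne ha)

/-- The ring generated by the constants and the integral elements of `F`, with the inverses of
the units. -/
inductive Sp (v : Pl K) (F : Subfield K) : K → Prop
  | const (c : ℂ) : Sp v F (algebraMap ℂ K c)
  | gen (a : K) : a ∈ F → v.1 a ≤ 1 → Sp v F a
  | add (a b : K) : Sp v F a → Sp v F b → Sp v F (a + b)
  | mul (a b : K) : Sp v F a → Sp v F b → Sp v F (a * b)
  | inv (a : K) : Sp v F a → v.1 a = 1 → Sp v F a⁻¹

variable {v : Pl K} {F : Subfield K} {π : K}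

lemma Sp.zero : Sp v F 0 := by simpa using Sp.const (v := v) (F := F) 0

lemma Sp.one : Sp v F 1 := by simpa using Sp.const (v := v) (F := F) 1

lemma Sp.neg {a : K} (h : Sp v F a) : Sp v F (-a) := by
  simpa using (Sp.const (v := v) (F := F) (-1)).mul _ _ h

lemma Sp.pow {a : K} (h : Sp v F a) (n : ℕ) : Sp v F (a ^ n) := by
  induction n with
  | zero => simpa using Sp.one
  | succ n ih => rw [pow_succ]; exact ih.mul _ _ h

lemma Sp.aeval {a : K} (h : Sp v F a) (p : ℂ[X]) : Sp v F (Polynomial.aeval a p) := by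
  induction p using Polynomial.induction_on' with
  | add p q hp hq => rw [map_add]; exact hp.add _ _ hq
  | monomial n r => rw [Polynomial.aeval_monomial]; exact (Sp.const r).mul _ _ (h.pow n)

lemma Sp.le_one {a : K} (h : Sp v F a) : v.1 a ≤ 1 := by
  induction h with
  | const c => exact v.2.const_le_one c
  | gen a _ h => exact h
  | add a b _ _ ha hb => exact v.1.map_add_le ha hb
  | mul a b _ _ ha hb => rw [map_mul]; exact mul_le_one' ha hb
  | inv a _ h _ => rw [map_inv₀, h, inv_one]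

lemma Sp.der (hd : IsDer L t δ) {a : K} (h : Sp v (FF L t) a) : Sp v (FF L t) (δ a) := by
  induction h with
  | const c => obtain ⟨c', h⟩ := hd.const c; rw [h]; exact Sp.const c'
  | gen a ha _ => rw [d_FF hd ha]; exact Sp.zero
  | add a b _ _ ha hb => rw [map_add]; exact ha.add _ _ hb
  | mul a b h1 h2 ha hb => rw [hd.leib]; exact (h1.mul _ _ hb).add _ _ (h2.mul _ _ ha)
  | inv a h1 h2 ha => rw [d_inv hd]; exact ((h1.inv _ h2).pow 2).neg.mul _ _ ha

/-- `a` is a constant modulo `π`. -/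
def Red (v : Pl K) (F : Subfield K) (π a : K) : Prop :=
  ∃ (c : ℂ) (s : K), Sp v F s ∧ a = algebraMap ℂ K c + π * s

lemma Red.const (c : ℂ) : Red v F π (algebraMap ℂ K c) := ⟨c, 0, Sp.zero, by simp⟩

lemma Red.add {a b : K} (ha : Red v F π a) (hb : Red v F π b) : Red v F π (a + b) := by
  obtain ⟨c, s, hs, rfl⟩ := ha
  obtain ⟨c', s', hs', rfl⟩ := hb
  exact ⟨c + c', s + s', hs.add _ _ hs', by rw [map_add]; ring⟩

lemma Red.mul (hp : Sp v F π) {a b : K} (ha : Red v F π a) (hb : Red v F π b) :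
    Red v F π (a * b) := by
  obtain ⟨c, s, hs, rfl⟩ := ha
  obtain ⟨c', s', hs', rfl⟩ := hb
  exact ⟨c * c', algebraMap ℂ K c * s' + s * algebraMap ℂ K c' + π * (s * s'),
    (((Sp.const c).mul _ _ hs').add _ _ (hs.mul _ _ (Sp.const c'))).add _ _
      (hp.mul _ _ (hs.mul _ _ hs')), by rw [map_mul]; ring⟩

lemma lt_one_mul (h1 : v.1 π < 1) {s : K} (hs : Sp v F s) : v.1 (π * s) < 1 := by
  rw [map_mul]
  exact mul_lt_one_of_nonneg_of_lt_one_left zero_le h1 hs.le_one

lemma Red.inv (h1 : v.1 π < 1) {a : K} (hs : Sp v F a) (hv : v.1 a = 1) (ha : Red v F π a) :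
    Red v F π a⁻¹ := by
  obtain ⟨c, s, hs', e⟩ := ha
  have ha0 : a ≠ 0 := by rintro rfl; simp at hv
  have hc : algebraMap ℂ K c ≠ 0 := by
    intro hc
    rw [hc, zero_add] at e
    have := lt_one_mul h1 hs'
    rw [← e, hv] at this
    exact lt_irrefl _ this
  refine ⟨c⁻¹, -(s * algebraMap ℂ K c⁻¹ * a⁻¹),
    ((hs'.mul _ _ (Sp.const _)).mul _ _ (hs.inv _ hv)).neg, ?_⟩
  rw [map_inv₀]
  have : π * s = a - algebraMap ℂ K c := by rw [e]; ring
  field_simp
  linear_combination this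

lemma Sp.red (hp : Sp v F π) (h1 : v.1 π < 1) (hg : ∀ a ∈ F, v.1 a ≤ 1 → Red v F π a) {a : K}
    (h : Sp v F a) : Red v F π a := by
  induction h with
  | const c => exact Red.const c
  | gen a ha h => exact hg a ha h
  | add a b _ _ ha hb => exact ha.add hb
  | mul a b _ _ ha hb => exact ha.mul hp hb
  | inv a h hv ha => exact ha.inv h1 h hv

lemma Sp.fac (hp : Sp v F π) (h1 : v.1 π < 1) (hg : ∀ a ∈ F, v.1 a ≤ 1 → Red v F π a) (n : ℕ) :
    ∀ a, Sp v F a → exp (-(n : ℤ)) ≤ v.1 a → ∃ (k : ℕ) (u : K), Sp v F u ∧ v.1 u = 1 ∧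
      a = π ^ k * u := by
  induction n with
  | zero =>
    intro a ha hn
    exact ⟨0, a, ha, le_antisymm ha.le_one (by simpa using hn), by simp⟩
  | succ n ih =>
    intro a ha hn
    obtain ⟨c, s, hs, e⟩ := Sp.red hp h1 hg ha
    by_cases hc : c = 0
    · rw [hc, map_zero, zero_add] at e
      have h2 : v.1 π ≤ exp (-1) := by
        have := WithZero.lt_mul_exp_iff_le (x := v.1 π) (y := exp (-1)) (by simp)
        rw [← exp_add] at this
        exact this.1 (by simpa using h1)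
      obtain ⟨k, u, hu, hu1, e'⟩ := ih s hs (by
        rw [e, map_mul] at hn
        have h3 := hn.trans (mul_le_mul_left h2 (v.1 s))
        have h4 : exp (-((n + 1 : ℕ) : ℤ)) = exp (-1) * exp (-(n : ℤ)) := by
          rw [← exp_add]; congr 1; push_cast; ring
        rw [h4] at h3
        exact le_of_mul_le_mul_left h3 (zero_lt_iff.2 (by simp)))
      exact ⟨k + 1, u, hu, hu1, by rw [e, e']; ring⟩
    · refine ⟨0, a, ha, Tends.eq_one (c := c) ?_ hc, by simp⟩
      rw [Tends, e, add_sub_cancel_left]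
      exact lt_one_mul h1 hs

lemma core (hK : Subfield.closure (Set.range (algebraMap ℂ K) ∪ (F : Set K)) = ⊤)
    (hp : Sp v F π) (h0 : π ≠ 0) (h1 : v.1 π < 1) (hg : ∀ a ∈ F, v.1 a ≤ 1 → Red v F π a) :
    v.1 π = exp (-1) ∧ ∀ z, v.1 z ≤ 1 → Sp v F z := by
  have fac : ∀ a, Sp v F a → a ≠ 0 → ∃ (k : ℕ) (u : K), Sp v F u ∧ v.1 u = 1 ∧ a = π ^ k * u := by
    intro a ha ha0
    have hne : v.1 a ≠ 0 := by simpa using ha0
    refine Sp.fac hp h1 hg (-log (v.1 a)).toNat a ha ?_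
    rw [← exp_log hne, exp_le_exp, log_exp]
    omega
  have hinv : ∀ x : K, (∃ n : ℕ, Sp v F (π ^ n * x)) → ∃ n : ℕ, Sp v F (π ^ n * x⁻¹) := by
    rintro x ⟨n, hn⟩
    by_cases hx : x = 0
    · exact ⟨0, by simpa [hx] using Sp.zero⟩
    obtain ⟨k, u, hu, hu1, e⟩ := fac _ hn (mul_ne_zero (pow_ne_zero _ h0) hx)
    have hu0 : u ≠ 0 := by rintro rfl; simp at hu1
    refine ⟨k, ?_⟩
    have : π ^ k * x⁻¹ = π ^ n * u⁻¹ := by
      field_simp
      linear_combination -e
    rw [this]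
    exact (hp.pow n).mul _ _ (hu.inv _ hu1)
  have all : ∀ x : K, ∃ n : ℕ, Sp v F (π ^ n * x) := by
    intro x
    have hx : x ∈ Subfield.closure (Set.range (algebraMap ℂ K) ∪ (F : Set K)) := by
      rw [hK]; trivial
    induction hx using Subfield.closure_induction with
    | mem x hx =>
      rcases hx with ⟨c, rfl⟩ | hx
      · exact ⟨0, by simpa using Sp.const c⟩
      · rcases le_total (v.1 x) 1 with h | h
        · exact ⟨0, by simpa using Sp.gen x hx h⟩
        · rw [← inv_inv x]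
          refine hinv _ ⟨0, ?_⟩
          simpa using Sp.gen x⁻¹ (F.inv_mem hx) (by rw [map_inv₀]; exact inv_le_one_of_one_le₀ h)
    | one => exact ⟨0, by simpa using Sp.one⟩
    | add x y _ _ hx hy =>
      obtain ⟨n, hn⟩ := hx
      obtain ⟨m, hm⟩ := hy
      refine ⟨n + m, ?_⟩
      rw [show π ^ (n + m) * (x + y) = π ^ m * (π ^ n * x) + π ^ n * (π ^ m * y) by ring]
      exact ((hp.pow m).mul _ _ hn).add _ _ ((hp.pow n).mul _ _ hm)
    | neg x _ hx =>
      obtain ⟨n, hn⟩ := hx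
      exact ⟨n, by rw [mul_neg]; exact hn.neg⟩
    | inv x _ hx => exact hinv x hx
    | mul x y _ _ hx hy =>
      obtain ⟨n, hn⟩ := hx
      obtain ⟨m, hm⟩ := hy
      refine ⟨n + m, ?_⟩
      rw [show π ^ (n + m) * (x * y) = (π ^ n * x) * (π ^ m * y) by ring]
      exact hn.mul _ _ hm
  have hne : v.1 π ≠ 0 := by simpa using h0
  obtain ⟨m, hm⟩ : ∃ m : ℤ, v.1 π = exp m := ⟨_, (exp_log hne).symm⟩
  have hm0 : m < 0 := by rwa [hm, ← exp_zero, exp_lt_exp] at h1
  have all' : ∀ x : K, x ≠ 0 → ∃ (n k : ℕ) (u : K), Sp v F u ∧ π ^ n * x = π ^ k * u ∧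
      n * m + log (v.1 x) = k * m := by
    intro x hx
    obtain ⟨n, hn⟩ := all x
    obtain ⟨k, u, hu, hu1, e⟩ := fac _ hn (mul_ne_zero (pow_ne_zero _ h0) hx)
    refine ⟨n, k, u, hu, e, ?_⟩
    have e' := congrArg v.1 e
    have hx' : v.1 x ≠ 0 := by simpa using hx
    rw [map_mul, map_mul, map_pow, map_pow, hu1, mul_one, hm, ← exp_log hx', ← exp_nsmul,
      ← exp_nsmul, ← exp_add, exp_inj] at e'
    simpa using e'
  refine ⟨?_, fun z hz => ?_⟩
  · obtain ⟨x, hx⟩ := v.2.1 (exp (-1))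
    obtain ⟨n, k, u, -, -, e⟩ := all' x (by rintro rfl; rw [map_zero] at hx; exact exp_ne_zero hx.symm)
    rw [hx, log_exp] at e
    have : m * (n - k) = 1 := by linear_combination e
    rw [hm, (Int.eq_one_or_neg_one_of_mul_eq_one this).resolve_left (by omega)]
  · by_cases hz0 : z = 0
    · rw [hz0]; exact Sp.zero
    obtain ⟨n, k, u, hu, e, e'⟩ := all' z hz0
    have hl : log (v.1 z) ≤ 0 := by
      have hx' : v.1 z ≠ 0 := by simpa using hz0
      rwa [← exp_log hx', ← exp_zero, exp_le_exp] at hz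
    have hnk : n ≤ k := by
      by_contra h
      have : (k : ℤ) < n := by exact_mod_cast not_le.1 h
      nlinarith
    obtain ⟨d, rfl⟩ := Nat.exists_eq_add_of_le hnk
    rw [pow_add, mul_assoc] at e
    rw [mul_left_cancel₀ (pow_ne_zero n h0) e]
    exact (hp.pow d).mul _ _ hu

lemma sub_ne (ht : Transcendental ℂ t) (τ : ℂ) : t - algebraMap ℂ K τ ≠ 0 := fun h =>
  ht (by rw [sub_eq_zero.1 h]; exact isAlgebraic_algebraMap τ)

lemma gen_case (hK : IsCurveField K) {τ : ℂ} (hτ : Tends v.1 t τ) (hu : ∀ a ∈ FF L t, a ≠ 0 → v.1 a = 1) :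
    ∀ a ∈ FF L t, v.1 a ≤ 1 → Red v (FF L t) (t - algebraMap ℂ K τ) a := by
  set π := t - algebraMap ℂ K τ with hπ
  have h1 : v.1 π < 1 := hτ
  have hS : ∀ a ∈ FF L t, Sp v (FF L t) a := fun a ha => by
    by_cases h : a = 0
    · rw [h]; exact Sp.zero
    · exact Sp.gen a ha (hu a ha h).le
  have hp : Sp v (FF L t) π := by
    rw [hπ, sub_eq_add_neg]
    exact (hS t (fld_le t_mem)).add _ _ (Sp.const τ).neg
  have h2 : ∀ a ∈ fld L t, Red v (FF L t) π a := by
    intro a ha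
    induction ha using Subfield.closure_induction with
    | mem x hx =>
      rcases hx with rfl | ⟨c, hc, rfl⟩
      · exact ⟨τ, 1, Sp.one, by rw [hπ]; ring⟩
      · exact Red.const c
    | one => simpa using Red.const (v := v) (F := FF L t) (π := π) 1
    | add x y _ _ hx hy => exact hx.add hy
    | neg x _ hx => simpa using (Red.const (-1)).mul hp hx
    | inv x hx ih =>
      by_cases h : x = 0
      · simpa [h] using Red.const (v := v) (F := FF L t) (π := π) 0
      · exact ih.inv h1 (hS x (fld_le hx)) (hu x (fld_le hx) h)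
    | mul x y _ _ hx hy => exact hx.mul hp hy
  intro a ha _
  have hsa := hS a ha
  have h3 : ∀ P : (fld L t)[X], ∃ (Q : ℂ[X]) (s s' : K), Sp v (FF L t) s ∧ Sp v (FF L t) s' ∧
      Polynomial.aeval a P = Polynomial.aeval a Q + π * s ∧
      Polynomial.aeval a (Polynomial.derivative P) =
        Polynomial.aeval a (Polynomial.derivative Q) + π * s' := by
    intro P
    induction P using Polynomial.induction_on' with
    | add p q hp hq =>
      obtain ⟨Q, s, s', a1, a2, a3, a4⟩ := hp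
      obtain ⟨Q', r, r', b1, b2, b3, b4⟩ := hq
      refine ⟨Q + Q', s + r, s' + r', a1.add _ _ b1, a2.add _ _ b2, ?_, ?_⟩
      · rw [map_add, map_add, a3, b3]; ring
      · rw [map_add, map_add, map_add, map_add, a4, b4]; ring
    | monomial n r =>
      obtain ⟨c, s, hs, e⟩ := h2 r.1 r.2
      have e' : algebraMap (fld L t) K r = algebraMap ℂ K c + π * s := e
      refine ⟨Polynomial.monomial n c, s * a ^ n, s * algebraMap ℂ K n * a ^ (n - 1),
        hs.mul _ _ (hsa.pow n), (hs.mul _ _ (Sp.const _)).mul _ _ (hsa.pow _), ?_, ?_⟩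
      · rw [Polynomial.aeval_monomial, Polynomial.aeval_monomial, e']; ring
      · rw [Polynomial.derivative_monomial, Polynomial.derivative_monomial,
          Polynomial.aeval_monomial, Polynomial.aeval_monomial, map_mul, map_mul, e', map_natCast,
          map_natCast]
        ring
  obtain ⟨Q, s, s', hs, hs', e1, e2⟩ := h3 (minpoly (fld L t) a)
  rw [minpoly.aeval] at e1
  obtain ⟨α, hα⟩ : ∃ α : ℂ, Tends v.1 a α := hK.exists_residue v.2 a hsa.le_one
  have r0 : Q.IsRoot α := by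
    refine (hα.aeval Q).unique (Tends.zero_iff.2 ?_)
    rw [show Polynomial.aeval a Q = π * -s by linear_combination -e1]
    exact lt_one_mul h1 hs.neg
  obtain ⟨H, rfl⟩ := Polynomial.dvd_iff_isRoot.2 r0
  have r1 : H.eval α ≠ 0 := by
    intro h
    have b1 := hα.aeval (Polynomial.derivative ((Polynomial.X - Polynomial.C α) * H))
    have b2 : (Polynomial.derivative ((Polynomial.X - Polynomial.C α) * H)).eval α = 0 := by
      simp [Polynomial.derivative_mul, h]
    rw [b2, Tends.zero_iff] at b1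
    have b3 := v.1.map_add_lt b1 (lt_one_mul h1 hs')
    have b4 : Polynomial.aeval a (Polynomial.derivative (minpoly (fld L t) a)) ∈ FF L t :=
      mem_FF.2 ((IsIntegral.of_mem_of_fg _ (mem_FF.1 ha).isIntegral.fg_adjoin_singleton _
        (Polynomial.aeval_mem_adjoin_singleton _ _)).isAlgebraic)
    rw [← e2, hu _ b4 (der_ne ha)] at b3
    exact lt_irrefl _ b3
  have r2 := (hα.aeval H).eq_one r1
  have r3 := (hα.aeval H).ne_zero r1
  refine ⟨α, -s * (Polynomial.aeval a H)⁻¹, hs.neg.mul _ _ ((hsa.aeval H).inv _ r2), ?_⟩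
  rw [map_mul, map_sub, Polynomial.aeval_X, Polynomial.aeval_C] at e1
  field_simp
  linear_combination -e1

lemma non_case (hK : IsCurveField K) (ht : Transcendental ℂ t) (hn : ¬ GenPl L t v)
    (hr : ∀ a ∈ FF L t, ∀ c, Tends v.1 a c → c ∈ L) :
    ∃ π ∈ FF L t, π ≠ 0 ∧ v.1 π < 1 ∧ ∀ a ∈ FF L t, v.1 a ≤ 1 → Red v (FF L t) π a := by
  classical
  have key : ∀ a : K, a ≠ 0 → v.1 a < 1 → ∃ n : ℕ, v.1 a = exp (-((n : ℤ) + 1)) := by
    intro a h0 h1
    have := ord_pos_of_lt_one h0 h1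
    have hne : v.1 a ≠ 0 := by simpa using h0
    refine ⟨(ord v.1 a - 1).toNat, ?_⟩
    rw [← exp_log hne, exp_inj]
    unfold ord at *
    omega
  have ex : ∃ n : ℕ, ∃ a ∈ FF L t, v.1 a = exp (-((n : ℤ) + 1)) := by
    rcases le_or_gt (v.1 t) 1 with h | h
    · obtain ⟨τ, hτ⟩ := hK.exists_residue v.2 t h
      have hL : τ ∈ L := by_contra fun h' => hn ⟨τ, h', hτ⟩
      obtain ⟨n, e⟩ := key _ (sub_ne ht τ) hτ
      exact ⟨n, _, fld_le (sub_mem t_mem (c_mem hL)), e⟩
    · have h0 : t ≠ 0 := by rintro rfl; simp at h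
      obtain ⟨n, e⟩ := key t⁻¹ (inv_ne_zero h0) (by rw [map_inv₀]; exact inv_lt_one_of_one_lt₀ h)
      exact ⟨n, _, fld_le (inv_mem t_mem), e⟩
  obtain ⟨π, hπ, e⟩ := Nat.find_spec ex
  have h0 : π ≠ 0 := by rintro rfl; rw [map_zero] at e; exact exp_ne_zero e.symm
  refine ⟨π, hπ, h0, by rw [e, ← exp_zero, exp_lt_exp]; omega, fun a ha h1 => ?_⟩
  obtain ⟨c, hc⟩ := hK.exists_residue v.2 a h1
  have hm : a - algebraMap ℂ K c ∈ FF L t := sub_mem ha (fld_le (c_mem (hr a ha c hc)))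
  refine ⟨c, (a - algebraMap ℂ K c) / π, Sp.gen _ (div_mem hm hπ) ?_, by field_simp; ring⟩
  by_cases hz : a - algebraMap ℂ K c = 0
  · simp [hz]
  · obtain ⟨n, e'⟩ := key _ hz hc
    have := Nat.find_min' ex ⟨_, hm, e'⟩
    rw [map_div₀, e, e', ← exp_sub, ← exp_zero, exp_le_exp]
    omega

end LocP

open LocP in
theorem thm_Loc (hR : S_Res) : S_Loc := by
  intro K _ _ hK L hL t ht hD δ hδ v
  have hD' : Subfield.closure (Set.range (algebraMap ℂ K) ∪ (FF L t : Set K)) = ⊤ := by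
    have : (FF L t : Set K) = {a | IsAlgebraic (fld L t) a} := Set.ext fun _ => mem_FF
    rw [this]; exact hD
  by_cases hg : GenPl L t v
  · obtain ⟨τ, hτ, hv⟩ := id hg
    have hu : ∀ a ∈ FF L t, a ≠ 0 → v.1 a = 1 := fun a ha =>
      (hR K hK L hL t ht v a (mem_FF.1 ha)).1 hg
    obtain ⟨h1, h2⟩ := core hD' (π := t - algebraMap ℂ K τ) (by
      rw [sub_eq_add_neg]
      exact (Sp.gen t (fld_le t_mem) hv.le_one).add _ _ (Sp.const τ).neg) (sub_ne ht τ) hv
      (gen_case hK hv hu)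
    exact ⟨fun z hz => ((h2 z hz).der hδ).le_one, fun h => absurd hg h,
      fun τ' _ h' => by rw [h'.unique hv]; exact h1⟩
  · obtain ⟨π, hπ, h0, h1, h2⟩ := non_case hK ht hg fun a ha =>
      (hR K hK L hL t ht v a (mem_FF.1 ha)).2 hg
    obtain ⟨h3, h4⟩ := core hD' (Sp.gen π hπ h1.le) h0 h1 h2
    exact ⟨fun z hz => ((h4 z hz).der hδ).le_one, fun _ => ⟨π, h3, d_FF hδ hπ⟩,
      fun τ h h' => absurd ⟨τ, h, h'⟩ hg⟩

open LocP in
theorem thm_Key (hD : S_Der) (hR : S_Res) : S_Key := by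
  intro K _ _ hK L hL t ht hdef f hf v₀ hv₀ ho
  obtain ⟨τ, hτ, hv⟩ := hv₀
  obtain ⟨δ, hδ, h1⟩ := hD K L hL t ht τ hτ
  have loc := thm_Loc hR K hK L hL t ht hdef δ hδ
  have dec : ∀ (v : Pl K) (π : K), v.1 π = exp (-1) → ∃ r : K, v.1 r ≤ 1 ∧
      δ f / f = algebraMap ℂ K (ord v.1 f) * (δ π / π) + r := by
    intro v π hπ
    have h0 : π ≠ 0 := by rintro rfl; rw [map_zero] at hπ; exact exp_ne_zero hπ.symm
    have hne : v.1 f ≠ 0 := by simpa using hf
    obtain ⟨u, hu, e⟩ : ∃ u : K, v.1 u = 1 ∧ f = π ^ ord v.1 f * u := by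
      refine ⟨f / π ^ ord v.1 f, ?_, by field_simp⟩
      rw [map_div₀, map_zpow₀, hπ, ← exp_zsmul, ← exp_log hne, ← exp_sub, ord]
      simp
    have hu0 : u ≠ 0 := by rintro rfl; simp at hu
    refine ⟨δ u / u, by rw [map_div₀, hu, div_one]; exact (loc v).1 u hu.le, ?_⟩
    generalize ord v.1 f = k at e
    rw [e, hδ.leib, d_zpow hδ, zpow_sub_one₀ h0, map_intCast]
    field_simp
    ring
  refine ⟨δ f / f, ?_, fun v => ?_⟩
  · have hπ := (loc v₀).2.2 τ hτ hv
    obtain ⟨r, hr, e⟩ := dec v₀ _ hπ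
    have h2 : v₀.1 (algebraMap ℂ K (ord v₀.1 f) *
        (δ (t - algebraMap ℂ K τ) / (t - algebraMap ℂ K τ))) = exp 1 := by
      rw [map_mul, v₀.2.2 _ (by exact_mod_cast ho), one_mul, map_div₀, hπ, map_sub δ, hδ.var, h1,
        zero_sub, Valuation.map_neg, map_one, one_div, ← exp_neg, neg_neg]
    have h3 : (1 : ℤᵐ⁰) < exp 1 := by rw [← exp_zero, exp_lt_exp]; norm_num
    rw [e, v₀.1.map_add_eq_of_lt_left (by rw [h2]; exact hr.trans_lt h3), h2]
    exact h3
  · have h3 : (1 : ℤᵐ⁰) ≤ exp 1 := by rw [← exp_zero, exp_le_exp]; norm_num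
    refine ⟨?_, ?_⟩
    · obtain ⟨π, hπ⟩ := v.2.1 (exp (-1))
      obtain ⟨r, hr, e⟩ := dec v π hπ
      rw [e]
      refine v.1.map_add_le ?_ (hr.trans h3)
      have h4 := (loc v).1 π (by rw [hπ, ← exp_zero, exp_le_exp]; norm_num)
      rw [map_mul, map_div₀, hπ, div_eq_mul_inv, ← exp_neg, neg_neg]
      calc _ ≤ 1 * (1 * exp 1) := mul_le_mul' (v.2.const_le_one _) (mul_le_mul_left h4 _)
        _ = exp 1 := by simp
    · rintro (h | h)
      · obtain ⟨π, hπ, hd⟩ := (loc v).2.1 h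
        obtain ⟨r, hr, e⟩ := dec v π hπ
        rw [e, hd]
        simpa using hr
      · obtain ⟨π, hπ⟩ := v.2.1 (exp (-1))
        obtain ⟨r, hr, e⟩ := dec v π hπ
        rw [e, h]
        simpa using hr

end

end Pool.Agent.P.MP_7ebcb6_ag.FD
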