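import Pool.Agent.P.MP_7ebcb6_ag.FD.St

/-! Chains of primes, the dimension of a product, independent points. -/

open MvPolynomial
open Pool.Agent.P.MP_68ca4e_ag.M

namespace Pool.Agent.P.MP_7ebcb6_ag.FD

namespace Low

theorem td_max {ι : Type} [Finite ι] (M : Ideal (MvPolynomial ι ℂ)) (hM : M.IsMaximal) :
    td M = 0 := by
  let := Ideal.Quotient.field M
  have : Module.Finite ℂ (MvPolynomial ι ℂ ⧸ M) := finite_of_finite_type_of_isJacobsonRing _ _
  simp [td, trdeg_eq_zero]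

theorem step {ι : Type} [Finite ι] (𝔮 : Ideal (MvPolynomial ι ℂ)) [h : 𝔮.IsPrime] {n : ℕ}
    (hn : td 𝔮 = n + 1) : ∃ 𝔯 : Ideal (MvPolynomial ι ℂ), 𝔯.IsPrime ∧ 𝔮 < 𝔯 ∧ td 𝔯 = n := by
  obtain ⟨M, hM, hle⟩ := Ideal.exists_le_maximal 𝔮 h.ne_top
  have hlt : 𝔮 < M := lt_of_le_of_ne hle fun e => by
    have := td_max M hM
    rw [← e] at this
    omega
  obtain ⟨g, hgM, hg⟩ := SetLike.exists_of_lt hlt
  have := hM.isPrime
  obtain ⟨𝔯, hr, -⟩ := Ideal.exists_minimalPrimes_le (I := 𝔮 ⊔ Ideal.span {g}) (J := M)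
    (sup_le hle ((Ideal.span_singleton_le_iff_mem _).2 hgM))
  have := hr.isPrime
  have h1 : 𝔮 < 𝔯 := lt_of_le_of_ne (le_sup_left.trans hr.le) fun e =>
    hg (e ▸ hr.le (Ideal.mem_sup_right (Ideal.mem_span_singleton_self _)))
  have h2 := td_lt h1
  have h3 := td_le_succ g hr
  exact ⟨𝔯, this, h1, by omega⟩

theorem chain {ι : Type} [Finite ι] (n : ℕ) : ∀ 𝔮 : Ideal (MvPolynomial ι ℂ), 𝔮.IsPrime →
    td 𝔮 = n → ∃ f : Fin (n + 1) → Ideal (MvPolynomial ι ℂ), StrictMono f ∧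
      (∀ i, (f i).IsPrime) ∧ f 0 = 𝔮 := by
  induction n with
  | zero =>
    intro 𝔮 h _
    exact ⟨fun _ => 𝔮, fun a b hab => absurd hab (by omega), fun _ => h, rfl⟩
  | succ n ih =>
    intro 𝔮 h hn
    obtain ⟨𝔯, h1, h2, h3⟩ := step 𝔮 hn
    obtain ⟨f, f1, f2, f3⟩ := ih 𝔯 h1 h3
    refine ⟨Fin.cons 𝔮 f, Fin.strictMono_iff_lt_succ.2 fun i => ?_, fun i => ?_, rfl⟩
    · refine Fin.cases ?_ (fun j => ?_) i
      · simpa [f3] using h2
      · rw [← Fin.succ_castSucc, Fin.cons_succ, Fin.cons_succ]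
        exact f1 Fin.castSucc_lt_succ
    · refine Fin.cases ?_ (fun j => ?_) i
      · exact h
      · exact f2 j

theorem indep_of_gen {ι : Type} {𝔭 : Ideal (MvPolynomial ι ℂ)} {L : Subfield ℂ} {a : ι → ℂ}
    (ha : GenPt L 𝔭 a) {κ : Type} {b : κ → ι}
    (hb : AlgebraicIndependent ℂ fun j => Ideal.Quotient.mk 𝔭 (X (b j))) :
    AlgebraicIndependent L fun j => a (b j) := by
  rw [algebraicIndependent_iff] at hb ⊢
  intro F hF
  have h1 : map (algebraMap L ℂ) (rename b F) ∈ 𝔭 := ha.2 _ (by rw [aeval_rename]; exact hF)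
  have h2 : ∀ G : MvPolynomial κ ℂ, aeval (fun j => Ideal.Quotient.mk 𝔭 (X (b j))) G =
      Ideal.Quotient.mk 𝔭 (rename b G) := fun G => by
    have : aeval (fun j => Ideal.Quotient.mk 𝔭 (X (b j))) =
        (Ideal.Quotient.mkₐ ℂ 𝔭).comp (rename b) := by
      ext j; simp
    rw [this]; rfl
  have h3 := hb (map (algebraMap L ℂ) F) (by
    rw [h2, Ideal.Quotient.eq_zero_iff_mem, ← map_rename]; exact h1)
  exact map_injective _ (algebraMap L ℂ).injective (by rw [h3, map_zero])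

theorem indep (hA : S_Acl) (hG : S_GenPt) {ι : Type} [Finite ι] {𝔭 : Ideal (MvPolynomial ι ℂ)}
    (h : 𝔭.IsPrime) {κ : Type} [Finite κ] {b : κ → ι}
    (hb : AlgebraicIndependent ℂ fun j => Ideal.Quotient.mk 𝔭 (X (b j))) (m : ℕ) :
    ∀ L : Subfield ℂ, (L : Set ℂ).Countable → ∃ ξ : Fin m → ι → ℂ, (∀ i, ξ i ∈ zeroLocus ℂ 𝔭) ∧
      AlgebraicIndependent L fun p : Fin m × κ => ξ p.1 (b p.2) := by
  induction m with
  | zero =>
    intro L _
    exact ⟨Fin.elim0, fun i => i.elim0, algebraicIndependent_empty_type⟩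
  | succ m ih =>
    intro L hL
    obtain ⟨a, ha⟩ := hG ι 𝔭 h L hL
    have h1 := indep_of_gen ha hb
    obtain ⟨s1, -, s3, -⟩ := hA ((L : Set ℂ) ∪ Set.range fun j => a (b j))
    set L' := acl ((L : Set ℂ) ∪ Set.range fun j => a (b j))
    obtain ⟨ξ, x1, x2⟩ := ih L' (s3 (hL.union (Set.countable_range _)))
    have hle : L ≤ L' := fun c hc => s1 (Or.inl hc)
    let : Algebra L L' := (Subfield.inclusion hle).toAlgebra
    have : IsScalarTower L L' ℂ := IsScalarTower.of_algebraMap_eq fun _ => rfl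
    have h2 := h1.sumElim_of_tower (S := L') (fun c hc => ⟨⟨c, s1 (Or.inr hc)⟩, rfl⟩) x2
    let g : Fin (m + 1) × κ → (Fin m × κ) ⊕ κ := fun p =>
      Fin.cases (motive := fun _ => (Fin m × κ) ⊕ κ) (Sum.inr p.2) (fun i => Sum.inl (i, p.2)) p.1
    have hg : Function.Injective g := by
      rintro ⟨i, j⟩ ⟨i', j'⟩
      refine Fin.cases ?_ (fun i => ?_) i <;> refine Fin.cases ?_ (fun i' => ?_) i' <;> simp [g]
    refine ⟨Fin.cons a ξ, fun i => Fin.cases ha.1 x1 i, ?_⟩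
    convert h2.comp g hg using 1
    funext ⟨i, j⟩
    refine Fin.cases ?_ (fun i => ?_) i <;> simp [g]

end Low

theorem thm_Low : S_Low := fun _ _ 𝔮 h => Low.chain _ 𝔮 h rfl

theorem thm_TdUp : S_TdUp := by
  intro β _ m e 𝔮 h J hJ he
  classical
  obtain ⟨b, hb⟩ := td_basis 𝔮
  have key : ∀ i ∈ (Finset.univ : Finset (Fin m)),
      (Finset.univ.filter fun j => (b j).1 = i).card ≤ e := fun i _ => by
    let φ : (MvPolynomial (Fin 1 × β) ℂ ⧸ J i) →ₐ[ℂ] (MvPolynomial (Fin m × β) ℂ ⧸ 𝔮) :=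
      Ideal.Quotient.liftₐ (J i) ((Ideal.Quotient.mkₐ ℂ 𝔮).comp
        (rename fun v : Fin 1 × β => (i, v.2))) fun P hP =>
          Ideal.Quotient.eq_zero_iff_mem.2 (hJ i P hP)
    have h1 : AlgebraicIndependent ℂ fun j : {j // (b j).1 = i} =>
        Ideal.Quotient.mk (J i) (X (0, (b j).2)) := by
      refine AlgebraicIndependent.of_comp φ ?_
      have e : (φ ∘ fun j : {j // (b j).1 = i} => Ideal.Quotient.mk (J i) (X (0, (b j).2))) =
          (fun j => Ideal.Quotient.mk 𝔮 (X (b j))) ∘ Subtype.val := by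
        funext ⟨j, hj⟩
        subst hj
        simp [φ]
      rw [e]
      exact hb.comp _ Subtype.val_injective
    have h2 := DimP.card_le _ h1
    rw [Fintype.card_subtype] at h2
    exact h2.trans (he i)
  simpa using Finset.card_le_mul_card_image_of_maps_to (fun j _ => Finset.mem_univ (b j).1) e key

theorem thm_IndX (hA : S_Acl) (hG : S_GenPt) : S_IndX := by
  intro ι _ 𝔭 h L hL m
  obtain ⟨b, hb⟩ := td_basis 𝔭
  obtain ⟨ξ, h1, h2⟩ := Low.indep hA hG h hb m L hL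
  exact ⟨b, ξ, h1, h2⟩

end Pool.Agent.P.MP_7ebcb6_ag.FD
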