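import Pool.Agent.P.MP_7ebcb6_ag.FD.St

/-! Moving a place away from a countable set of places by linear equivalence. -/

open scoped WithZero
open WithZero Finsupp

namespace Pool.Agent.P.MP_7ebcb6_ag.FD

namespace Mov

variable {K : Type} [Field K] [Algebra ℂ K]

lemma exists_notMem {A : Set ℂ} (hA : A.Countable) : ∃ c, c ∉ A := by
  by_contra h
  push Not at h
  exact not_countable_complex (hA.mono fun c _ => h c)

/-- Values of an integral function at the places. -/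
lemma exists_val (hK : IsCurveField K) (f : K) :
    ∃ c : Pl K → ℂ, ∀ w : Pl K, w.1 f ≤ 1 → Tends w.1 f (c w) := by
  have h : ∀ w : Pl K, ∃ c : ℂ, w.1 f ≤ 1 → Tends w.1 f c := by
    intro w
    by_cases h : w.1 f ≤ 1
    · obtain ⟨c, hc⟩ := hK.exists_residue w.2 f h
      exact ⟨c, fun _ => hc⟩
    · exact ⟨0, fun h' => absurd h' h⟩
  choose c hc using h
  exact ⟨c, hc⟩

/-- The poles of a function can be removed from a countable set of places. -/
lemma exists_nopole (hK : IsCurveField K) {T : Set (Pl K)} (hT : T.Countable) (f : K) :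
    ∃ f' : K, ∀ w ∈ T, (w.1 f ≤ 1 → w.1 f' = w.1 f) ∧ w.1 f' ≤ 1 := by
  obtain ⟨c, hc⟩ := exists_val hK f
  obtain ⟨μ, hμ⟩ := exists_notMem (hT.image c)
  refine ⟨f / (f - algebraMap ℂ K μ), fun w hw => ?_⟩
  have h1 : w.1 f ≤ 1 → w.1 (f / (f - algebraMap ℂ K μ)) = w.1 f := by
    intro h
    have h2 : c w - μ ≠ 0 := fun h3 => hμ ⟨w, hw, sub_eq_zero.mp h3⟩
    rw [map_div₀, ((hc w h).sub (Tends.const μ)).eq_one h2, div_one]
  refine ⟨h1, ?_⟩
  by_cases h : w.1 f ≤ 1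
  · rw [h1 h]; exact h
  · push Not at h
    rw [map_div₀, Valuation.map_sub_eq_of_lt_left _ ((w.2.const_le_one μ).trans_lt h)]
    exact div_self_le_one _

lemma exp_neg_one_lt : (exp (-1) : ℤᵐ⁰) < 1 := by
  rw [← exp_zero, exp_lt_exp]; norm_num

lemma exists_approx (hK : IsCurveField K) {T : Set (Pl K)} (hT : T.Countable) {v₀ : Pl K}
    (h₀ : v₀ ∈ T) (S : Finset (Pl K)) :
    ∃ g : K, v₀.1 g = exp (-1) ∧ (∀ w ∈ T, w.1 g ≤ 1) ∧ ∀ w ∈ T, w ∈ S → w ≠ v₀ → w.1 g = 1 := by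
  classical
  obtain ⟨g, h1, h2⟩ := hK.exists_approx ((insert v₀ S).image Subtype.val)
    (fun w hw => by obtain ⟨u, -, rfl⟩ := Finset.mem_image.mp hw; exact u.2) v₀.1
    (Finset.mem_image_of_mem _ (Finset.mem_insert_self _ _))
  obtain ⟨g', hg'⟩ := exists_nopole hK hT g
  refine ⟨g', ?_, fun w hw => (hg' w hw).2, fun w hw hS hne => ?_⟩
  · rw [(hg' v₀ h₀).1 (h1.le.trans exp_neg_one_lt.le), h1]
  · have h3 := h2 w.1 (Finset.mem_image_of_mem _ (Finset.mem_insert_of_mem hS))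
      fun h => hne (Subtype.ext h)
    rw [(hg' w hw).1 h3.le, h3]

omit [Algebra ℂ K] in
lemma ne_zero_of_exp {v : Valuation K ℤᵐ⁰} {f : K} {n : ℤ} (h : v f = exp n) : f ≠ 0 := by
  rintro rfl
  rw [map_zero] at h
  exact exp_ne_zero h.symm

/-- A function with a simple zero at `v₀` and no other zero or pole in `T`. -/
lemma exists_simple (hDiv : S_Div) (hK : IsCurveField K) {T : Set (Pl K)} (hT : T.Countable)
    {v₀ : Pl K} (h₀ : v₀ ∈ T) :
    ∃ h : K, v₀.1 h = exp (-1) ∧ ∀ w ∈ T, w ≠ v₀ → w.1 h = 1 := by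
  obtain ⟨f, hf0, hf1, -⟩ := exists_approx hK hT h₀ ∅
  have hf : f ≠ 0 := ne_zero_of_exp hf0
  obtain ⟨D, -, hD⟩ := (hDiv K hK).1 f hf
  obtain ⟨g, hg0, hg1, hg2⟩ := exists_approx hK hT h₀ D.support
  obtain ⟨a, ha⟩ := exists_val hK f
  obtain ⟨b, hb⟩ := exists_val hK g
  obtain ⟨l, hl⟩ := exists_notMem (hT.image fun w => -(a w) / b w ^ 2)
  refine ⟨f + algebraMap ℂ K l * g ^ 2, ?_, fun w hw hne => ?_⟩
  · rw [Valuation.map_add_eq_of_lt_left, hf0]
    rw [map_mul, map_pow, hg0, hf0]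
    calc v₀.1 (algebraMap ℂ K l) * exp (-1) ^ 2 ≤ 1 * exp (-1) ^ 2 := by
          gcongr; exact v₀.2.const_le_one l
      _ < exp (-1) := by rw [one_mul, pow_two, ← exp_add, exp_lt_exp]; norm_num
  · have h1 := (ha w (hf1 w hw)).add ((Tends.const l).mul ((hb w (hg1 w hw)).pow 2))
    refine h1.eq_one fun h2 => ?_
    by_cases h3 : b w = 0
    · have h4 : a w = 0 := by simpa [h3] using h2
      have h5 : w.1 f < 1 := Tends.zero_iff.mp (h4 ▸ ha w (hf1 w hw))
      have h6 : w ∈ D.support := by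
        rw [Finsupp.mem_support_iff, hD]
        exact (ord_pos_of_lt_one hf h5).ne'
      have h7 : w.1 g < 1 := Tends.zero_iff.mp (h3 ▸ hb w (hg1 w hw))
      exact h7.ne (hg2 w hw h6 hne)
    · refine hl ⟨w, hw, ?_⟩
      have h4 : b w ^ 2 ≠ 0 := pow_ne_zero _ h3
      simp only
      rw [div_eq_iff h4]
      linear_combination -h2

lemma map_eq_degree_smul {α M : Type} [AddCommGroup M] (Φ : (α →₀ ℤ) →+ M) (β : M) (D : α →₀ ℤ)
    (h : ∀ v ∈ D.support, Φ (single v 1) = β) : Φ D = D.degree • β := by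
  conv_lhs => rw [← Finsupp.sum_single D]
  rw [Finsupp.sum, map_sum, Finsupp.degree_apply, Finset.sum_smul]
  refine Finset.sum_congr rfl fun v hv => ?_
  rw [← h v hv, ← map_zsmul, smul_single, smul_eq_mul, mul_one]

end Mov

theorem thm_Mov (hDiv : S_Div) : S_Mov := by
  intro K _ _ hK M _ Φ hΦ T hT β hβ v₀
  by_cases h₀ : v₀ ∈ T
  swap
  · exact hβ v₀ h₀
  obtain ⟨h, h1, h2⟩ := Mov.exists_simple hDiv hK hT h₀
  have hh : h ≠ 0 := Mov.ne_zero_of_exp h1
  obtain ⟨D, hdeg, hD⟩ := (hDiv K hK).1 h hh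
  have e0 : Φ D = 0 := by
    rw [hΦ D 0 ⟨h, hh, fun v => by rw [hD]; simp⟩, map_zero]
  have e1 : Φ (D - single v₀ 1) = (D - single v₀ 1).degree • β := by
    refine Mov.map_eq_degree_smul Φ β _ fun v hv => hβ v fun hvT => ?_
    rw [Finsupp.mem_support_iff] at hv
    apply hv
    rcases eq_or_ne v v₀ with rfl | hne
    · simp [hD, ord, h1]
    · rw [Finsupp.sub_apply, hD, ord_eq_zero_of_eq_one (h2 v hvT hne), single_eq_of_ne hne]
      simp
  rw [map_sub, map_sub, e0, hdeg, degree_single] at e1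
  simpa using e1

end Pool.Agent.P.MP_7ebcb6_ag.FD
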