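import Pool.Agent.P.MP_7ebcb6_ag.FD.St

/-! One multiple works for all points, and divisibility removes it. -/

open scoped LinearAlgebra.Projectivization
open MvPolynomial Finsupp

namespace Pool.Agent.P.MP_7ebcb6_ag.FD

namespace OneK

theorem lin {X M : Type} [AddCommGroup M] (φ : (X →₀ ℤ) →+ M)
    (h : ∀ x y, φ (single x 1) = φ (single y 1)) (D : X →₀ ℤ) (hD : D.degree = 0) : φ D = 0 := by
  rcases isEmpty_or_nonempty X with hX | ⟨⟨x₀⟩⟩
  · rw [Subsingleton.elim D 0, map_zero]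
  · have key : ∀ E : X →₀ ℤ, φ E = E.degree • φ (single x₀ 1) := fun E => by
      induction E using Finsupp.induction_linear with
      | zero => simp
      | add f g hf hg => rw [map_add, map_add, add_zsmul, hf, hg]
      | single x b => rw [degree_single, ← h x x₀, ← map_zsmul, smul_single, smul_eq_mul, mul_one]
    rw [key, hD, zero_zsmul]

theorem gen_iff {ι : Type} {L : Subfield ℂ} {𝔮 : Ideal (MvPolynomial ι ℂ)} {a : ι → ℂ}
    (h : GenPt L 𝔮 a) (P : MvPolynomial ι L) : aeval a P = 0 ↔ map (algebraMap L ℂ) P ∈ 𝔮 :=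
  ⟨h.2 P, fun hP => by rw [← aeval_map_algebraMap ℂ]; exact h.1 _ hP⟩

theorem cyc_one {α : Type} (x : Fin 1 → α) : cyc x = single (x 0) 1 := by simp [cyc]

theorem chart (hAcl : S_Acl) (hAut : S_Aut) (hGen : S_GenPt) (hAct : S_Act) (hTop : S_Top)
    (hT2 : S_T2) (hFam : S_Fam) {n : ℕ} {X : Set (PP n)} (hX : zariskiClosure X ⊆ X) (hI : Irr X)
    (A : AddSubgroup (X →₀ ℤ)) (T : Set ℂ) (hT : T.Countable)
    (H : ∀ x : X, ∃ (k : ℕ) (D' : X →₀ ℤ), 0 < k ∧ k • single x 1 - D' ∈ ratTrivial X ∧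
      ∀ (σ : ℂ ≃+* ℂ) (s : X → X), Fixes σ T → IsAct σ s → mapDomain s D' - D' ∈ A)
    (c : Fin (n + 1)) : ∃ k : ℕ, 0 < k ∧ ∃ β, ∀ x : X, x.1.rep c ≠ 0 →
      k • QuotientAddGroup.mk' (A ⊔ ratTrivial X) (single x 1) = β := by
  have hW : ∀ x : X, x.1.rep c ≠ 0 → ∃ a ∈ W (fun _ => c) (Set.univ : Set (Fin 1 → X)),
      Rep Prod.mk a fun _ : Fin 1 => x := fun x hx => by
    obtain ⟨a, h1, h2⟩ := ((hTop n X 1).2.2.2.2.1 (fun _ => c) fun _ => x).mp fun _ => hx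
    exact ⟨a, ⟨h1, _, Set.mem_univ _, h2⟩, h2⟩
  rcases (W (fun _ => c) (Set.univ : Set (Fin 1 → X))).eq_empty_or_nonempty with h0 | hne
  · refine ⟨1, one_pos, 0, fun x hx => ?_⟩
    obtain ⟨a, ha, -⟩ := hW x hx
    rw [h0] at ha
    exact ha.elim
  obtain ⟨z1, z2, -⟩ := hT2 n X hX 1 fun _ => c
  have hp := z2 _ hI hne
  have hz := z1 _ isClosed_univ
  obtain ⟨a1, -, a3⟩ := hAct n
  obtain ⟨a3, a4, a5⟩ := a3 X
  obtain ⟨TX, hTX, hd⟩ := a5 hX
  obtain ⟨l1, -, l3, -⟩ := hAcl (T ∪ TX)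
  have hL := l3 (hT.union hTX)
  obtain ⟨ξ, hξ⟩ := hGen _ _ hp _ hL
  obtain ⟨-, x₀, -, hx₀⟩ := hz ▸ hξ.1
  obtain ⟨k, D', hk, h1, h2⟩ := H (x₀ 0)
  refine ⟨k, hk, QuotientAddGroup.mk' _ D', fun x hx => ?_⟩
  obtain ⟨a, ha, hr⟩ := hW x hx
  have := hFam n X hX _ 1 Prod.mk _ hp (fun a ha => let ⟨_, x, _, h⟩ := hz ▸ ha; ⟨x, h⟩) _ hL _
    (k • QuotientAddGroup.mk' (A ⊔ ratTrivial X)) (fun D hD => ?_) (QuotientAddGroup.mk' _ D')
    (fun b y hb hy => ?_) a (hz.symm ▸ ha) _ hr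
  · rwa [cyc_one] at this
  · rw [AddMonoidHom.nsmul_apply, QuotientAddGroup.mk'_apply,
      (QuotientAddGroup.eq_zero_iff D).mpr (AddSubgroup.mem_sup_right hD), nsmul_zero]
  · obtain ⟨σ, hσ, e⟩ := hAut _ _ hL ξ b fun P => (gen_iff hξ P).trans (gen_iff hb P).symm
    obtain ⟨s, hs⟩ := a3 _ σ (hd _ (Set.subset_union_right.trans l1)) hσ
    have hy0 : s (x₀ 0) = y 0 := by
      obtain ⟨n0, e0⟩ := hx₀ 0
      obtain ⟨n1, e1⟩ := hy 0
      have e2 : (fun i => σ (ξ (0, i))) = fun i => b (0, i) := funext fun i => e _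
      refine Subtype.ext ?_
      rw [hs, e0, e1, a1 σ _ n0 (e2 ▸ n1)]
      congr 1
    have m1 := a4 σ s hs _ h1
    rw [← mapDomain.addMonoidHom_apply, map_sub, map_nsmul, mapDomain.addMonoidHom_apply,
      mapDomain.addMonoidHom_apply, mapDomain_single, hy0] at m1
    have m2 := h2 σ s (fun c hc => hσ c (l1 (Set.mem_union_left _ hc))) hs
    rw [AddMonoidHom.nsmul_apply, cyc_one, ← map_nsmul, ← sub_eq_zero, ← map_sub,
      QuotientAddGroup.mk'_apply, QuotientAddGroup.eq_zero_iff, ← sub_add_sub_cancel]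
    exact add_mem (AddSubgroup.mem_sup_right m1) (AddSubgroup.mem_sup_left m2)

end OneK

open OneK in
theorem thm_OneK (hAcl : S_Acl) (hAut : S_Aut) (hGen : S_GenPt) (hAct : S_Act) (hTop : S_Top)
    (hT2 : S_T2) (hIrr : S_Irr) (hFam : S_Fam) (hDiv : S_DivX) (hPush : S_Push) : S_OneK := by
  intro n X hX hI A T hT H D hD
  choose k hk β hβ using chart hAcl hAut hGen hAct hTop hT2 hFam hX hI A T hT H
  have h1 : ∀ (c : Fin (n + 1)) (x y : X), x.1.rep c ≠ 0 → y.1.rep c ≠ 0 →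
      (∏ c, k c) • QuotientAddGroup.mk' (A ⊔ ratTrivial X) (single x 1)
        = (∏ c, k c) • QuotientAddGroup.mk' (A ⊔ ratTrivial X) (single y 1) := by
    intro c x y hx hy
    rw [← Finset.mul_prod_erase _ _ (Finset.mem_univ c), mul_nsmul, mul_nsmul, hβ c x hx, hβ c y hy]
  have h2 := lin ((∏ c, k c) • QuotientAddGroup.mk' (A ⊔ ratTrivial X)) fun x y => by
    obtain ⟨c, hc⟩ := Function.ne_iff.mp x.1.rep_nonzero
    obtain ⟨d, hd⟩ := Function.ne_iff.mp y.1.rep_nonzero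
    obtain ⟨z, hz, z1, z2⟩ := (hIrr n X).2.2.2 hI (MvPolynomial.X c) (MvPolynomial.X d) 1 1
      (isHomogeneous_X ℂ c) (isHomogeneous_X ℂ d) ⟨x, x.2, by simpa using hc⟩
      ⟨y, y.2, by simpa using hd⟩
    rw [eval_X] at z1 z2
    exact (h1 c x ⟨z, hz⟩ hc z1).trans (h1 d ⟨z, hz⟩ y z2 hd)
  have kp : 0 < ∏ c, k c := Finset.prod_pos fun c _ => hk c
  rw [← QuotientAddGroup.eq_zero_iff]
  refine lin (QuotientAddGroup.mk' (A ⊔ ratTrivial X)) (fun x y => ?_) D hD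
  obtain ⟨E, hE⟩ := hDiv n X hX hI _ kp x y
  have d0 := (hPush n X).1 _ hE
  rw [map_sub, map_sub, map_nsmul, degree_single, degree_single, sub_self, zero_sub, neg_eq_zero,
    smul_eq_zero] at d0
  have e1 := h2 E (d0.resolve_left kp.ne')
  have e2 : QuotientAddGroup.mk' (A ⊔ ratTrivial X) _ = 0 :=
    (QuotientAddGroup.eq_zero_iff _).mpr (AddSubgroup.mem_sup_right hE)
  rw [AddMonoidHom.nsmul_apply] at e1
  rwa [map_sub, map_sub, map_nsmul, e1, sub_zero, sub_eq_zero] at e2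

theorem thm_W1 (hOneK : S_OneK) (hAct : S_Act) : S_W1 := by
  intro n X hX hI H D hD
  obtain ⟨x₀, -⟩ := hI.nonempty
  obtain ⟨T, hT, hf⟩ := (hAct n).2.1 (x₀ 0).1
  have := hOneK n X hX hI ⊥ T hT.countable (fun x => ?_) D hD
  · rwa [bot_sup_eq] at this
  obtain ⟨m, hm, h⟩ := H (single x 1 - single (x₀ 0) 1)
    (by rw [map_sub, degree_single, degree_single, sub_self])
  refine ⟨m, m • single (x₀ 0) 1, hm, by rwa [← nsmul_sub], fun σ s hσ hs => ?_⟩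
  have e : s (x₀ 0) = x₀ 0 := Subtype.ext ((hs _).trans (hf σ hσ))
  rw [← mapDomain.addMonoidHom_apply, map_nsmul, mapDomain.addMonoidHom_apply, mapDomain_single, e,
    sub_self]
  exact zero_mem _

end Pool.Agent.P.MP_7ebcb6_ag.FD
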