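import Pool.Agent.P.MP_7ebcb6_ag.FD.St

/-! A closed surjection with finite fibres does not raise the dimension. -/

open TopologicalSpace Set

namespace Pool.Agent.P.MP_7ebcb6_ag.FD

namespace Q1

variable {A B : Type} [TopologicalSpace A] [TopologicalSpace B] {π : A → B}

theorem lift_one (hc : Continuous π) (hcl : IsClosedMap π) (hf : ∀ b, (π ⁻¹' {b}).Finite)
    {W : Set A} (hW : IsClosed W) (Z : IrreducibleCloseds B) (hZ : (Z : Set B) ⊆ π '' W) :
    ∃ C : IrreducibleCloseds A, (C : Set A) ⊆ W ∧ π '' C = Z := by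
  obtain ⟨C, -, hC⟩ := zorn_superset_nonempty
    {C : Set A | IsClosed C ∧ C ⊆ W ∩ π ⁻¹' Z ∧ (Z : Set B) ⊆ π '' C} (fun c hcS hch hne => by
      refine ⟨⋂₀ c, ⟨isClosed_sInter fun C hC => (hcS hC).1, ?_, fun z hz => ?_⟩,
        fun C hC => sInter_subset_of_mem hC⟩
      · obtain ⟨C, hC⟩ := hne
        exact (sInter_subset_of_mem hC).trans (hcS hC).2.1
      · by_contra h
        have : Nonempty c := hne.to_subtype
        obtain ⟨C, hC⟩ := (hf z).isCompact.elim_directed_family_closed (fun C : c => (C : Set A))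
          (fun C => (hcS C.2).1) (by
            rw [← sInter_eq_iInter, eq_empty_iff_forall_notMem]
            exact fun a ha => h ⟨a, ha.2, ha.1⟩)
          (fun C C' => by
            rcases hch.total C.2 C'.2 with h1 | h1
            · exact ⟨C, Subset.rfl, h1⟩
            · exact ⟨C', h1, Subset.rfl⟩)
        obtain ⟨a, ha, e⟩ := (hcS C.2).2.2 hz
        exact (hC ▸ (⟨e, ha⟩ : a ∈ π ⁻¹' {z} ∩ (C : Set A)) : a ∈ (∅ : Set A)))
    (W ∩ π ⁻¹' Z) ⟨hW.inter (Z.isClosed.preimage hc), Subset.rfl, fun z hz => by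
      obtain ⟨a, ha, rfl⟩ := hZ hz
      exact ⟨a, ⟨ha, hz⟩, rfl⟩⟩
  obtain ⟨h1, h2, h3⟩ := hC.prop
  have key : ∀ D : Set A, IsClosed D → (Z : Set B) ⊆ π '' (C ∩ D) → C ⊆ D := fun D hD h =>
    (hC.le_of_le (y := C ∩ D) ⟨h1.inter hD, inter_subset_left.trans h2, h⟩
      inter_subset_left).trans inter_subset_right
  refine ⟨⟨C, ⟨?_, ?_⟩, h1⟩, h2.trans inter_subset_left, Subset.antisymm ?_ h3⟩
  · obtain ⟨z, hz⟩ := Z.isIrreducible.nonempty
    obtain ⟨a, ha, -⟩ := h3 hz
    exact ⟨a, ha⟩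
  · rw [isPreirreducible_iff_isClosed_union_isClosed]
    intro D D' hD hD' h
    refine (isPreirreducible_iff_isClosed_union_isClosed.1 Z.isIrreducible.2 _ _
      (hcl _ (h1.inter hD)) (hcl _ (h1.inter hD')) fun z hz => ?_).imp (key D hD) (key D' hD')
    obtain ⟨a, ha, rfl⟩ := h3 hz
    exact (h ha).imp (fun e => ⟨a, ⟨ha, e⟩, rfl⟩) fun e => ⟨a, ⟨ha, e⟩, rfl⟩
  · rintro _ ⟨a, ha, rfl⟩
    exact (h2 ha).2

theorem lift_chain (hc : Continuous π) (hcl : IsClosedMap π) (hf : ∀ b, (π ⁻¹' {b}).Finite)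
    (p : LTSeries (IrreducibleCloseds B)) : ∀ W : Set A, IsClosed W →
      ((p.last : IrreducibleCloseds B) : Set B) ⊆ π '' W →
      ∃ q : LTSeries (IrreducibleCloseds A), q.length = p.length ∧
        ((q.last : IrreducibleCloseds A) : Set A) ⊆ W ∧
        π '' (q.last : IrreducibleCloseds A) = (p.last : IrreducibleCloseds B) := by
  induction p using RelSeries.inductionOn' with
  | singleton x =>
    intro W hW h
    obtain ⟨C, h1, h2⟩ := lift_one hc hcl hf hW _ h
    exact ⟨RelSeries.singleton _ C, rfl, h1, h2⟩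
  | snoc p x hx ih =>
    intro W hW h
    rw [RelSeries.last_snoc] at h ⊢
    have hx' : p.last < x := hx
    obtain ⟨C, h1, h2⟩ := lift_one hc hcl hf hW _ h
    obtain ⟨q, q1, q2, q3⟩ := ih C C.isClosed (h2 ▸ hx'.le)
    have hq : q.last < C := lt_of_le_of_ne q2 fun e => hx'.ne (SetLike.coe_injective (by
      rw [← q3, e, h2]))
    exact ⟨q.snoc C hq, by simp [q1], by rwa [RelSeries.last_snoc], by rwa [RelSeries.last_snoc]⟩

end Q1

theorem thm_Q1 : S_Q1 := by
  intro A B _ _ π hc hcl hs hf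
  refine iSup_le fun p => ?_
  obtain ⟨q, h, -⟩ := Q1.lift_chain hc hcl hf p univ isClosed_univ fun z _ => by
    obtain ⟨a, rfl⟩ := hs z
    exact ⟨a, mem_univ _, rfl⟩
  rw [← h]
  exact Order.LTSeries.length_le_krullDim q

end Pool.Agent.P.MP_7ebcb6_ag.FD
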