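import Pool.Agent.P.MP_7ebcb6_ag.FD.St

/-! Residues of elements that are algebraic over `L(t)`, and fields of definition. -/

open scoped WithZero IntermediateField Polynomial
open WithZero

namespace Pool.Agent.P.MP_7ebcb6_ag.FD

namespace ResP

variable {K : Type} [Field K] [Algebra ℂ K]

lemma mem_t (L : Subfield ℂ) (t : K) : t ∈ fld L t := Subfield.subset_closure (Set.mem_insert _ _)

lemma mem_c {L : Subfield ℂ} (t : K) {c : ℂ} (hc : c ∈ L) : algebraMap ℂ K c ∈ fld L t :=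
  Subfield.subset_closure (Set.mem_insert_of_mem _ ⟨c, hc, rfl⟩)

/-- Multiplicative induction on `L(t)` for an algebraically closed field `L`. -/
lemma fld_ind {L : Subfield ℂ} (hL : IsAlgClosed L) (t : K) (P : K → Prop)
    (hc : ∀ c ∈ L, P (algebraMap ℂ K c)) (hl : ∀ c ∈ L, P (t + algebraMap ℂ K c))
    (hm : ∀ a b, P a → P b → P (a * b)) (hi : ∀ a, P a → P a⁻¹) : ∀ b ∈ fld L t, P b := by
  let φ : L[X] →+* K := Polynomial.eval₂RingHom ((algebraMap ℂ K).comp L.subtype) t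
  have h1 : Subring.closure (insert t (algebraMap ℂ K '' L)) ≤ φ.range := by
    rw [Subring.closure_le]
    rintro y (rfl | ⟨c, hc, rfl⟩)
    · exact ⟨Polynomial.X, by simp [φ]⟩
    · exact ⟨Polynomial.C ⟨c, hc⟩, by simp [φ]⟩
  have h2 : ∀ p : L[X], P (φ p) := by
    intro p
    have hp : p.Splits := IsAlgClosed.splits p
    induction hp using Submonoid.closure_induction with
    | mem q hq =>
      rcases hq with ⟨a, rfl⟩ | ⟨a, rfl⟩
      · simpa [φ] using hc a a.2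
      · simpa [φ] using hl a a.2
    | one => simpa using hc 1 L.one_mem
    | mul p q _ _ hp hq => rw [map_mul]; exact hm _ _ hp hq
  intro b hb
  obtain ⟨y, hy, z, hz, rfl⟩ := Subfield.mem_closure_iff.1 hb
  obtain ⟨p, rfl⟩ := h1 hy
  obtain ⟨q, rfl⟩ := h1 hz
  rw [div_eq_mul_inv]
  exact hm _ _ (h2 p) (hi _ (h2 q))

lemma gen_unit {L : Subfield ℂ} (hL : IsAlgClosed L) {t : K} {v : Pl K} (hv : GenPl L t v) :
    ∀ b ∈ fld L t, b = 0 ∨ v.1 b = 1 := by
  obtain ⟨τ, h1, h2⟩ := hv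
  refine fld_ind hL t _ (fun c _ => ?_) (fun c hc => ?_) ?_ ?_
  · by_cases h : c = 0
    · exact Or.inl (by simp [h])
    · exact Or.inr (v.2.2 c h)
  · refine Or.inr ((h2.add (Tends.const c)).eq_one fun h => h1 ?_)
    rw [eq_neg_of_add_eq_zero_left h]
    exact L.neg_mem hc
  · rintro a b (rfl | ha) (rfl | hb) <;> simp [*]
  · rintro a (rfl | ha) <;> simp [*]

/-- With a uniformising element `π`, residues of elements of `L(t)` lie in `L`. -/
lemma res_of_pi {L : Subfield ℂ} (hL : IsAlgClosed L) {t π : K} {v : Pl K} (h0 : π ≠ 0)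
    (h1 : v.1 π < 1)
    (hl : ∀ c ∈ L, ∃ k : ℤ, ∃ d ∈ L, d ≠ 0 ∧ Tends v.1 ((t + algebraMap ℂ K c) * π ^ k) d) :
    ∀ b ∈ fld L t, v.1 b ≤ 1 → ∃ c ∈ L, Tends v.1 b c := by
  have key : ∀ b ∈ fld L t, b = 0 ∨ ∃ k : ℤ, ∃ d ∈ L, d ≠ 0 ∧ Tends v.1 (b * π ^ k) d := by
    refine fld_ind hL t _ (fun c hc => ?_) (fun c hc => Or.inr (hl c hc)) ?_ ?_
    · by_cases h : c = 0
      · exact Or.inl (by simp [h])
      · exact Or.inr ⟨0, c, hc, h, by simpa using Tends.const c⟩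
    · rintro a b (rfl | ⟨k, d, hd, hd0, ha⟩) (rfl | ⟨k', d', hd', hd0', hb⟩)
      · simp
      · simp
      · simp
      · refine Or.inr ⟨k + k', d * d', L.mul_mem hd hd', mul_ne_zero hd0 hd0',
          (ha.mul hb).of_eq_left ?_⟩
        rw [zpow_add₀ h0]; ring
    · rintro a (rfl | ⟨k, d, hd, hd0, ha⟩)
      · simp
      · refine Or.inr ⟨-k, d⁻¹, L.inv_mem hd, inv_ne_zero hd0, (ha.inv hd0).of_eq_left ?_⟩
        rw [mul_inv, zpow_neg]
  intro b hb hv
  rcases hv.lt_or_eq with hv | hv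
  · exact ⟨0, L.zero_mem, Tends.zero_iff.2 hv⟩
  rcases key b hb with rfl | ⟨k, d, hd, hd0, ha⟩
  · exact ⟨0, L.zero_mem, Tends.zero⟩
  have h2 := ha.eq_one hd0
  rw [map_mul, hv, one_mul, map_zpow₀] at h2
  have h3 : k = 0 := (zpow_eq_one_iff_right₀ zero_le h1.ne).1 h2
  rw [h3, zpow_zero, mul_one] at ha
  exact ⟨d, hd, ha⟩

lemma res_fld (hK : IsCurveField K) {L : Subfield ℂ} (hL : IsAlgClosed L) {t : K}
    (ht : Transcendental ℂ t) {v : Pl K} (hv : ¬ GenPl L t v) :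
    ∀ b ∈ fld L t, v.1 b ≤ 1 → ∃ c ∈ L, Tends v.1 b c := by
  rcases le_or_gt (v.1 t) 1 with h | h
  · obtain ⟨τ, hτ⟩ := hK.exists_residue v.2 t h
    have h1 : τ ∈ L := by
      by_contra h1
      exact hv ⟨τ, h1, hτ⟩
    have h0 : t - algebraMap ℂ K τ ≠ 0 := fun e =>
      ht (sub_eq_zero.1 e ▸ isAlgebraic_algebraMap τ)
    refine res_of_pi hL h0 hτ fun c hc => ?_
    by_cases e : τ + c = 0
    · refine ⟨-1, 1, L.one_mem, one_ne_zero, Tends.one.of_eq_left ?_⟩
      rw [eq_neg_of_add_eq_zero_right e, map_neg, ← sub_eq_add_neg, zpow_neg_one,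
        mul_inv_cancel₀ h0]
    · refine ⟨0, τ + c, L.add_mem h1 hc, e, ?_⟩
      rw [zpow_zero, mul_one]
      exact Tends.add hτ (Tends.const c)
  · have h0 : t ≠ 0 := by
      rintro rfl
      simp at h
    have h1 : v.1 t⁻¹ < 1 := by
      rw [map_inv₀]
      exact inv_lt_one_of_one_lt₀ h
    refine res_of_pi hL (inv_ne_zero h0) h1 fun c _ => ⟨1, 1, L.one_mem, one_ne_zero, ?_⟩
    have h2 := Tends.one.add ((Tends.const (v := v.1) c).mul (Tends.zero_iff.2 h1))
    rw [mul_zero, add_zero] at h2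
    refine h2.of_eq_left ?_
    rw [zpow_one, add_mul, mul_inv_cancel₀ h0]

lemma res_alg {L : Subfield ℂ} (hL : IsAlgClosed L) {F : Subfield K} {v : Pl K}
    (hF : ∀ b ∈ F, v.1 b ≤ 1 → ∃ c ∈ L, Tends v.1 b c) {a : K} (ha : IsAlgebraic F a) {c : ℂ}
    (hc : Tends v.1 a c) : c ∈ L := by
  classical
  obtain ⟨p, hp0, hp⟩ := ha
  obtain ⟨j, hj, hmax⟩ := p.support.exists_max_image (fun i => v.1 (p.coeff i : K))
    (Polynomial.support_nonempty.2 hp0)
  have hj0 : (p.coeff j : K) ≠ 0 := by simpa using hj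
  have h1 : ∀ i ∈ p.support, ∃ d ∈ L, Tends v.1 ((p.coeff i : K) / p.coeff j) d := fun i hi =>
    hF _ (F.div_mem (p.coeff i).2 (p.coeff j).2) (by
      rw [map_div₀]
      exact div_le_one_of_le₀ (hmax i hi) zero_le)
  choose! d hd hd' using h1
  have h2 : d j = 1 := (hd' j hj).unique (Tends.one.of_eq_left (div_self hj0).symm)
  have h3 : ∑ i ∈ p.support, d i * c ^ i = 0 := by
    refine (Tends.sum p.support fun i hi => (hd' i hi).mul (hc.pow i)).eq_zero ?_
    rw [Polynomial.aeval_def, Polynomial.eval₂_eq_sum, Polynomial.sum_def] at hp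
    simp only [div_mul_eq_mul_div, ← Finset.sum_div]
    exact div_eq_zero_iff.2 (Or.inl hp)
  let q : L[X] := ∑ i ∈ p.support.attach, Polynomial.monomial i.1 ⟨d i.1, hd i.1 i.2⟩
  have h4 : q.map L.subtype = ∑ i ∈ p.support, Polynomial.monomial i (d i) := by
    rw [Polynomial.map_sum, ← Finset.sum_attach p.support]
    simp
  have h5 : q ≠ 0 := by
    intro e
    have := congrArg (fun r => Polynomial.coeff r j) h4
    simp [e, Polynomial.coeff_monomial, h2, Polynomial.mem_support_iff.1 hj] at this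
  obtain ⟨x, rfl⟩ := (IsAlgClosed.splits q).mem_range_of_isRoot h5 (i := L.subtype) (x := c) (by
    rw [Polynomial.IsRoot, h4, Polynomial.eval_finsetSum]
    simpa using h3)
  exact x.2

/-- An element of `ℂ(t)` is defined over every field that contains a certain finite set. -/
lemma def_mem (t : K) {x : K} (hx : x ∈ ℂ⟮t⟯) :
    ∃ S : Set ℂ, S.Finite ∧ ∀ L : Subfield ℂ, S ⊆ L → x ∈ fld L t := by
  induction hx using IntermediateField.adjoin_induction with
  | mem y hy => exact ⟨∅, Set.finite_empty, fun L _ => hy ▸ mem_t L t⟩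
  | algebraMap c => exact ⟨{c}, Set.finite_singleton c, fun L h => mem_c t (h rfl)⟩
  | add y z _ _ hy hz =>
    obtain ⟨S, h1, h2⟩ := hy
    obtain ⟨S', h3, h4⟩ := hz
    exact ⟨S ∪ S', h1.union h3, fun L h => add_mem (h2 L (Set.subset_union_left.trans h))
      (h4 L (Set.subset_union_right.trans h))⟩
  | inv y _ hy =>
    obtain ⟨S, h1, h2⟩ := hy
    exact ⟨S, h1, fun L h => inv_mem (h2 L h)⟩
  | mul y z _ _ hy hz =>
    obtain ⟨S, h1, h2⟩ := hy
    obtain ⟨S', h3, h4⟩ := hz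
    exact ⟨S ∪ S', h1.union h3, fun L h => mul_mem (h2 L (Set.subset_union_left.trans h))
      (h4 L (Set.subset_union_right.trans h))⟩

lemma def_alg (t : K) {y : K} (hy : IsAlgebraic ℂ⟮t⟯ y) :
    ∃ S : Set ℂ, S.Finite ∧ ∀ L : Subfield ℂ, S ⊆ L → IsAlgebraic (fld L t) y := by
  obtain ⟨p, hp0, hp⟩ := hy
  choose S hS hS' using fun i => def_mem t (p.coeff i).2
  refine ⟨⋃ i ∈ p.support, S i, p.support.finite_toSet.biUnion fun i _ => hS i, fun L h => ?_⟩
  have h1 : p.map (algebraMap ℂ⟮t⟯ K) ∈ Polynomial.lifts (algebraMap (fld L t) K) := by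
    rw [Polynomial.lifts_iff_coeff_lifts]
    intro i
    rw [Polynomial.coeff_map]
    by_cases hi : i ∈ p.support
    · exact ⟨⟨_, hS' i L ((Set.subset_biUnion_of_mem (u := S) hi).trans h)⟩, rfl⟩
    · rw [Polynomial.notMem_support_iff.1 hi, map_zero]
      exact ⟨0, map_zero _⟩
  obtain ⟨q, hq⟩ := (Polynomial.mem_lifts _).1 h1
  refine ⟨q, ?_, ?_⟩
  · rintro rfl
    rw [Polynomial.map_zero] at hq
    exact Polynomial.map_ne_zero hp0 hq.symm
  · rw [← Polynomial.eval_map_algebraMap, hq, Polynomial.eval_map_algebraMap, hp]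

end ResP

open ResP

theorem thm_Res : S_Res := by
  intro K _ _ hK L hL t ht v a ha
  refine ⟨fun hv h0 => ?_, fun hv c hc => res_alg hL (res_fld hK hL ht hv) ha hc⟩
  have : v.1.IsTrivialOn (fld L t) :=
    ⟨fun b hb => (gen_unit hL hv b b.2).resolve_left (by simpa using hb)⟩
  by_contra h
  exact Valuation.transcendental_of_ne_one (fld L t) a h0 h ha

theorem thm_DefK (hA : S_Acl) : S_DefK := by
  intro K _ _ hK t ht Y hY T hT
  have := hK.finite ht
  let b := Module.finBasis ℂ⟮t⟯ K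
  choose S hS hS' using fun y : K => def_alg t (Algebra.IsAlgebraic.isAlgebraic (R := ℂ⟮t⟯) y)
  obtain ⟨h1, h2, h3, -⟩ := hA (T ∪ ⋃ y ∈ Y ∪ Set.range b, S y)
  have h4 : ∀ y ∈ Y ∪ Set.range b,
      IsAlgebraic (fld (acl (T ∪ ⋃ y ∈ Y ∪ Set.range b, S y)) t) y := fun y hy =>
    hS' y _ (((Set.subset_biUnion_of_mem (u := S) hy).trans Set.subset_union_right).trans h1)
  refine ⟨_, h3 (hT.union ((hY.union (Set.finite_range b)).biUnion fun y _ => hS y).countable), h2,
    Set.subset_union_left.trans h1, ?_, fun y hy => h4 y (Or.inl hy)⟩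
  refine eq_top_iff.2 fun x _ => ?_
  rw [← b.sum_repr x]
  refine sum_mem fun i _ => ?_
  rw [Algebra.smul_def]
  refine mul_mem ?_ (Subfield.subset_closure (Or.inr (h4 _ (Or.inr ⟨i, rfl⟩))))
  have h5 : (b.repr x i : K) ∈ (ℂ⟮t⟯).toSubfield := (b.repr x i).2
  rw [IntermediateField.adjoin_toSubfield] at h5
  refine Subfield.closure_mono (Set.union_subset_union_right _ ?_) h5
  rintro y rfl
  exact isAlgebraic_algebraMap (⟨y, mem_t _ y⟩ : fld _ y)

end Pool.Agent.P.MP_7ebcb6_ag.FD
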