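import Pool.Agent.P.MP_7ebcb6_ag.FD.St

/-! Consequences of the Riemann inequality. -/

open scoped WithZero
open WithZero Finsupp Module
open Pool.Agent.P.MP_68ca4e_ag.M (Lsp ff2_mem ff2_mono Lsp_finite Lsp_antitone ff2_mul exists_genus)

namespace Pool.Agent.P.MP_7ebcb6_ag.FD

namespace Rie

theorem exists_cyc {α : Type} (g : ℕ) : ∀ E : α →₀ ℤ, 0 ≤ E → E.degree = g →
    ∃ x : Fin g → α, cyc x = E := by
  induction g with
  | zero =>
    intro E h0 h
    refine ⟨Fin.elim0, (Finset.sum_empty).trans (Finsupp.ext fun P => ?_)⟩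
    rw [degree_apply, Nat.cast_zero, Finset.sum_eq_zero_iff_of_nonneg fun P _ => h0 P] at h
    exact (by_contra fun e => e (h P (mem_support_iff.2 e)) : E P = 0).symm
  | succ g ih =>
    intro E h0 h
    obtain ⟨P, hP⟩ : ∃ P, E P ≠ 0 := by
      by_contra e
      rw [show E = 0 from Finsupp.ext fun P => by_contra fun e' => e ⟨P, e'⟩, map_zero] at h
      omega
    obtain ⟨x, hx⟩ := ih (E - single P 1) (fun Q => by
      have h1 : 0 ≤ E Q := h0 Q
      by_cases e : Q = P
      · subst e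
        simp only [coe_zero, Pi.zero_apply, coe_sub, Pi.sub_apply, single_eq_same]
        omega
      · simpa [single_eq_of_ne e] using h1) (by rw [map_sub, degree_single, h]; push_cast; ring)
    refine ⟨Fin.cons P x, ?_⟩
    rw [cyc, Fin.sum_univ_succ]
    exact (congrArg (single P 1 + ·) hx).trans (add_sub_cancel _ _)

variable {K : Type} [Field K] [Algebra ℂ K]

theorem place (hK : IsCurveField K) (P : Pl K) :
    Pool.Agent.P.MP_68ca4e_ag.M.IsPlace ℂ (Subtype.val P) :=
  ⟨P.2.const_le_one, P.2.1 _, hK.exists_residue P.2⟩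

theorem inj : Function.Injective fun P : Pl K => (Subtype.val P).valuationSubring :=
  fun P Q h => Subtype.ext (val_eq_of_isEquiv P.2.1 Q.2.1
    ((Valuation.isEquiv_iff_valuationSubring _ _).2 h))

theorem le_span (hK : IsCurveField K) {D : Pl K →₀ ℤ} (h : Rigid D) :
    Lsp ℂ Subtype.val D ≤ Submodule.span ℂ {1} := fun x hx => by
  obtain ⟨c, rfl⟩ := h x ((ff2_mem (place hK)).1 hx)
  exact Submodule.mem_span_singleton.2 ⟨c, (Algebra.algebraMap_eq_smul_one c).symm⟩

omit [Algebra ℂ K] in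
theorem exp_ord (v : Valuation K ℤᵐ⁰) {h : K} (h0 : h ≠ 0) : v h = exp (-ord v h) := by
  rw [ord, neg_neg, exp_log ((Valuation.ne_zero_iff v).2 h0)]

theorem section_of (hD : S_Div) (hK : IsCurveField K) {D : Pl K →₀ ℤ}
    (h : (0 : ℤ) < finrank ℂ (Lsp ℂ Subtype.val D)) : ∃ (f : K) (E : Pl K →₀ ℤ), f ≠ 0 ∧
      E.degree = 0 ∧ (∀ v, E v = ord v.1 f) ∧ 0 ≤ D + E := by
  obtain ⟨f, hf, f0⟩ := (Submodule.ne_bot_iff (Lsp ℂ Subtype.val D)).1 fun e => by
    rw [e, finrank_bot] at h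
    exact lt_irrefl _ h
  obtain ⟨E, h1, h2⟩ := (hD K hK).1 f f0
  refine ⟨f, E, f0, h1, h2, fun v => ?_⟩
  have := (ff2_mem (place hK)).1 hf v
  rw [exp_ord _ f0, exp_le_exp, ← h2] at this
  simp only [coe_zero, Pi.zero_apply, Finsupp.coe_add, Pi.add_apply]
  omega

theorem many (hK : IsCurveField K) (h0 : FiniteDimensional ℂ (Lsp ℂ Subtype.val (0 : Pl K →₀ ℤ)))
    {D : Pl K →₀ ℤ} (hD : 0 ≤ D) (hr : Rigid D) (S : Finset (Pl K)) :
    (∀ P ∈ S, ¬ Rigid (D + single P 1)) →
      S.card + 1 ≤ finrank ℂ (Lsp ℂ Subtype.val (D + ∑ P ∈ S, single P 1)) := by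
  classical
  have hp := place hK
  have nn : ∀ S : Finset (Pl K), (0 : Pl K →₀ ℤ) ≤ ∑ P ∈ S, single P 1 := fun S =>
    Finset.sum_nonneg fun P _ => single_nonneg.2 zero_le_one
  induction S using Finset.induction_on with
  | empty =>
    intro _
    have := Lsp_finite hp h0 D
    rw [Finset.sum_empty, add_zero, Finset.card_empty, zero_add, Submodule.one_le_finrank_iff,
      Submodule.ne_bot_iff]
    exact ⟨1, (ff2_mem hp).2 fun P => by
      rw [map_one, ← exp_zero, exp_le_exp]; exact hD P, one_ne_zero⟩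
  | insert P S hP ih =>
    intro h
    have := Lsp_finite hp h0 (D + ∑ Q ∈ insert P S, single Q 1)
    rw [Finset.card_insert_of_notMem hP]
    refine (Nat.succ_le_succ (ih fun Q hQ => h Q (Finset.mem_insert_of_mem hQ))).trans
      (Submodule.finrank_lt_finrank_of_lt (lt_of_le_of_ne (ff2_mono hp ?_) fun e => ?_))
    · rw [Finset.sum_insert hP]
      exact add_le_add le_rfl (le_add_of_nonneg_left (single_nonneg.2 zero_le_one))
    · refine h P (Finset.mem_insert_self _ _) fun f hf => hr f fun Q => ?_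
      by_cases hQ : Q = P
      · have h1 : f ∈ Lsp ℂ Subtype.val (D + ∑ Q ∈ S, single Q 1) := by
          rw [e, Finset.sum_insert hP]
          exact ff2_mono hp (add_le_add le_rfl (le_add_of_nonneg_right (nn S))) ((ff2_mem hp).2 hf)
        have h2 := (ff2_mem hp).1 h1 Q
        rwa [Finsupp.add_apply, finsetSum_apply, Finset.sum_eq_zero fun R hR =>
          single_eq_of_ne (by rintro rfl; exact hP (hQ ▸ hR)), add_zero] at h2
      · have h2 := hf Q
        rwa [Finsupp.add_apply, single_eq_of_ne hQ, add_zero] at h2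

end Rie

open Rie

theorem thm_Rie (hD : S_Div) (hC : S_Count) : S_Rie := by
  intro K _ _ hK
  have hp := place hK
  have r0 : Rigid (0 : Pl K →₀ ℤ) := fun h hh => by
    by_contra e
    obtain ⟨v, hv⟩ := ((hC K hK).2.2 h (transcendental_of_notMem_range fun c hc => e ⟨c, hc⟩)).1
    exact absurd (hh v) (not_le.2 hv)
  have h0 : FiniteDimensional ℂ (Lsp ℂ Subtype.val (0 : Pl K →₀ ℤ)) :=
    Submodule.finiteDimensional_of_le (le_span hK r0)
  obtain ⟨t, ht, _⟩ := id hK
  obtain ⟨g0, hg0⟩ := exists_genus ht hp inj h0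
  obtain ⟨g, ⟨D0, e0⟩, hg⟩ := Int.exists_greatest_of_bdd
    (P := fun z => ∃ D : Pl K →₀ ℤ, D.degree + 1 - finrank ℂ (Lsp ℂ Subtype.val D) = z)
    ⟨g0, by rintro _ ⟨D, rfl⟩; have := hg0 D; omega⟩ ⟨_, 0, rfl⟩
  have g0 : 0 ≤ g := by
    have h1 := hg _ ⟨0, rfl⟩
    have h2 := Submodule.finrank_mono (le_span hK r0)
    rw [finrank_span_singleton one_ne_zero] at h2
    rw [map_zero] at h1
    omega
  lift g to ℕ using g0
  refine ⟨r0, g, fun D h => ?_, fun D h1 h2 h3 => by_contra fun h4 => ?_⟩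
  · obtain ⟨f, E, f0, h1, h2, h3⟩ := section_of hD hK (D := D) (by have := hg _ ⟨D, rfl⟩; omega)
    obtain ⟨x, hx⟩ := exists_cyc g _ h3 (by rw [map_add, h, h1, add_zero])
    exact ⟨x, f⁻¹, inv_ne_zero f0, fun v => by
      rw [hx, ord_inv, Finsupp.add_apply, h2]; ring⟩
  · obtain ⟨S, hS, hc⟩ := Set.Infinite.exists_subset_card_eq h4 (D0.degree + g - D.degree).toNat
    have h5 := many hK h0 h1 h3 S fun P hP => hS hP
    obtain ⟨E, hE⟩ : ∃ E, E = D + ∑ P ∈ S, single P 1 := ⟨_, rfl⟩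
    have h6 : E.degree = D.degree + S.card := by simp [hE]
    rw [← hE] at h5
    obtain ⟨f, F, f0, h7, h8, h9⟩ := section_of hD hK (D := E - D0) (by
      have := hg _ ⟨E - D0, rfl⟩
      rw [map_sub] at this
      omega)
    have h10 := Lsp_antitone hp h0 (D := D0) (D' := E + F) (by
      rwa [sub_add_eq_add_sub, sub_nonneg] at h9)
    have h11 := ff2_mul hp h0 (D := E) (E := F) (inv_ne_zero f0)
      (fun P => by rw [exp_ord _ (inv_ne_zero f0), ord_inv, neg_neg, h8]) le_rfl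
    rw [map_add, h7] at h10
    omega

end Pool.Agent.P.MP_7ebcb6_ag.FD
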