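import Pool.Agent.P.MP_7ebcb6_ag.FD.St

/-! Curve selection through a given point with almost all points generic. -/

open scoped WithZero
open MvPolynomial

namespace Pool.Agent.P.MP_7ebcb6_ag.FD

namespace SpecC

lemma exists_eval_ne {σ : Type} [Finite σ] (S : Set (MvPolynomial σ ℂ)) (hS : S.Countable)
    (h0 : ∀ p ∈ S, p ≠ 0) : ∃ a : σ → ℂ, ∀ p ∈ S, eval a p ≠ 0 := by
  have hd : Dense (⋂ p ∈ S, {a : σ → ℂ | eval a p ≠ 0}) := by
    refine dense_biInter_of_isOpen (fun p _ => ?_) hS fun p hp => ?_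
    · exact isOpen_ne_fun (MvPolynomial.continuous_eval p) continuous_const
    · refine dense_iff_inter_open.mpr fun U hU ⟨x, hx⟩ => ?_
      by_contra hne
      obtain ⟨u, hu, hsub⟩ := isOpen_pi_iff'.mp hU x hx
      refine h0 p hp (MvPolynomial.funext_set u
        (fun i => infinite_of_mem_nhds (x i) ((hu i).1.mem_nhds (hu i).2)) fun y hy => ?_)
      rw [map_zero]
      by_contra hy'
      exact hne ⟨y, hsub hy, hy'⟩
  obtain ⟨a, ha⟩ := hd.nonempty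
  exact ⟨a, fun p hp => Set.mem_iInter₂.mp ha p hp⟩

theorem curve_sel {R : Type} [CommRing R] [IsDomain R] [Algebra ℂ R] [Algebra.FiniteType ℂ R]
    (ε : R →ₐ[ℂ] ℂ) (S : Set R) (hS : S.Countable) (hH : ∀ H ∈ S, H ≠ 0) :
    ∃ (ψ : R →ₐ[ℂ] Om) (sp : Sp), (∀ H ∈ S, ψ H ≠ 0) ∧ ∀ r, Tends sp.v (ψ r) (ε r) := by
  obtain ⟨s, g, hinj, hint⟩ := exists_integral_inj_algHom_of_fg ℂ R
  let : Algebra (MvPolynomial (Fin s) ℂ) R := g.toRingHom.toAlgebra
  have : Algebra.IsIntegral (MvPolynomial (Fin s) ℂ) R := ⟨hint⟩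
  have : FaithfulSMul (MvPolynomial (Fin s) ℂ) R :=
    (faithfulSMul_iff_algebraMap_injective _ _).mpr hinj
  choose b hb hdvd using fun H : S => (Algebra.IsIntegral.isIntegral
    (R := MvPolynomial (Fin s) ℂ) H.1).isAlgebraic.exists_nonzero_dvd
      (mem_nonZeroDivisors_of_ne_zero (hH H.1 H.2))
  have : Countable S := hS.to_subtype
  obtain ⟨a', ha'⟩ := exists_eval_ne (Set.range b) (Set.countable_range b)
    (by rintro _ ⟨H, rfl⟩; exact hb H)
  let a : Fin s → ℂ := fun i => ε (g (X i))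
  have hεg : ∀ p, ε (g p) = eval a p := fun p =>
    DFunLike.congr_fun (show ε.comp g = aeval a from by ext i; simp [a]) p
  let θ : MvPolynomial (Fin s) ℂ →ₐ[ℂ] Om := aeval fun i =>
    algebraMap ℂ Om (a i) + lam * algebraMap ℂ Om (a' i - a i)
  have hθ : ∀ (sp : Sp) (c : ℂ), Tends sp.v lam c → ∀ p, Tends sp.v (θ p)
      (eval (fun i => a i + c * (a' i - a i)) p) := fun sp c h p =>
    Tends.mv_aeval (fun i => (Tends.const _).add (h.mul (Tends.const _))) p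
  have hθb : ∀ H, θ (b H) ≠ 0 := fun H => by
    obtain ⟨sp, h⟩ := nonConst_lam.exists_sp 1
    exact (hθ sp 1 h (b H)).ne_zero (by simpa using ha' _ ⟨H, rfl⟩)
  obtain ⟨sp0, h0⟩ := nonConst_lam.exists_sp 0
  have : (RingHom.ker θ.toRingHom).IsPrime := RingHom.ker_isPrime _
  have : (RingHom.ker ε).IsPrime := RingHom.ker_isPrime _
  have hle : RingHom.ker θ.toRingHom ≤ (RingHom.ker ε).under (MvPolynomial (Fin s) ℂ) := by
    intro p hp
    have := (hθ sp0 0 h0 p).eq_zero hp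
    change ε (g p) = 0
    rw [hεg]
    simpa using this
  obtain ⟨P, hPle, hP, hPo⟩ := Ideal.exists_ideal_le_liesOver_of_le (RingHom.ker ε) hle
  obtain ⟨ψ, hψ, hker⟩ := exists_lift_ker θ.toRingHom P
  have hc : ∀ c : ℂ, ψ (algebraMap ℂ R c) = algebraMap ℂ Om c := by
    intro c
    rw [← g.commutes, ← θ.commutes]
    exact hψ _
  have hψH : ∀ H ∈ S, ψ H ≠ 0 := by
    intro H hHS h
    obtain ⟨t, ht⟩ := hdvd ⟨H, hHS⟩
    apply hθb ⟨H, hHS⟩
    have := hψ (b ⟨H, hHS⟩)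
    rw [ht, map_mul, h, zero_mul] at this
    exact this.symm
  obtain ⟨O, hO1, hO2⟩ := Ideal.image_subset_nonunits_valuationSubring
    ((RingHom.ker ε).map ψ.rangeRestrict) (by
      rw [Ideal.ne_top_iff_one, Ideal.mem_map_iff_of_surjective _ ψ.rangeRestrict_surjective]
      rintro ⟨r, hr, hr1⟩
      have h1 : ψ r = 1 := congrArg Subtype.val hr1
      have h2 : ε (r - 1) = 0 := hPle (hker (r - 1) (by rw [map_sub, h1, map_one, sub_self]))
      rw [map_sub, (RingHom.mem_ker).mp hr, map_one, zero_sub, neg_eq_zero] at h2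
      exact one_ne_zero h2)
  have key : ∀ r, ψ r - algebraMap ℂ Om (ε r) ∈ O.nonunits := by
    intro r
    refine hO2 ⟨ψ.rangeRestrict (r - algebraMap ℂ R (ε r)), Ideal.mem_map_of_mem _ (by
      simp [RingHom.mem_ker]), ?_⟩
    rw [← hc, ← map_sub]; rfl
  by_cases htop : O = ⊤
  · refine ⟨⟨ψ, hc⟩, sp0, hψH, fun r => ?_⟩
    have h1 := (O.mem_nonunits_iff_or.mp (key r)).resolve_right fun h =>
      h (htop ▸ ValuationSubring.mem_top _)
    exact (Tends.const (ε r)).of_eq_left (sub_eq_zero.mp h1).symm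
  · exact ⟨⟨ψ, hc⟩, ⟨O, fun c => hO1 ⟨algebraMap ℂ R c, hc c⟩, htop⟩, hψH, fun r =>
      O.mem_nonunits_iff.mp (key r)⟩

theorem curve_sel' {ι : Type} [Finite ι] (𝔮 : Ideal (MvPolynomial ι ℂ)) [𝔮.IsPrime]
    (ε : ι → ℂ) (hε : ∀ F ∈ 𝔮, aeval ε F = 0) (S : Set (MvPolynomial ι ℂ)) (hS : S.Countable)
    (hH : ∀ H ∈ S, H ∉ 𝔮) :
    ∃ (P : ι → Om) (sp : Sp), (∀ F ∈ 𝔮, aeval P F = 0) ∧ (∀ H ∈ S, aeval P H ≠ 0) ∧
      ∀ i, Tends sp.v (P i) (ε i) := by
  obtain ⟨ψ, sp, h1, h2⟩ := curve_sel (Ideal.Quotient.liftₐ 𝔮 (aeval ε) hε)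
    (Ideal.Quotient.mk 𝔮 '' S) (hS.image _) (by
      rintro _ ⟨H, hHS, rfl⟩
      exact mt Ideal.Quotient.eq_zero_iff_mem.mp (hH H hHS))
  have e : ∀ F, aeval (fun i => ψ (Ideal.Quotient.mk 𝔮 (X i))) F = ψ (Ideal.Quotient.mk 𝔮 F) :=
    fun F => DFunLike.congr_fun (show aeval (fun i => ψ (Ideal.Quotient.mk 𝔮 (X i)))
      = ψ.comp (Ideal.Quotient.mkₐ ℂ 𝔮) from by ext i; simp) F
  refine ⟨fun i => ψ (Ideal.Quotient.mk 𝔮 (X i)), sp, fun F hF => ?_, fun H hHS => ?_,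
    fun i => ?_⟩
  · rw [e, Ideal.Quotient.eq_zero_iff_mem.mpr hF, map_zero]
  · rw [e]
    exact h1 _ ⟨H, hHS, rfl⟩
  · simpa using h2 (Ideal.Quotient.mk 𝔮 (X i))

end SpecC

open SpecC

theorem thm_Spec (hC : S_Count) : S_Spec := by
  classical
  intro ι _ 𝔮 h𝔮 L hL ε hε
  have : Countable L := hL.to_subtype
  have : Fintype ι := Fintype.ofFinite ι
  have : Countable (MvPolynomial ι L) := by
    have : Countable (ι →₀ ℕ) := inferInstance
    exact Cardinal.mk_le_aleph0_iff.mp (MvPolynomial.cardinalMk_le_max.trans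
      (max_le (max_le Cardinal.mk_le_aleph0 Cardinal.mk_le_aleph0) le_rfl))
  let S : Set (MvPolynomial ι ℂ) := {H | H ∈ Set.range (map (algebraMap L ℂ)) ∧ H ∉ 𝔮}
  have hS : S.Countable := (Set.countable_range _).mono fun H hH => hH.1
  obtain ⟨P, sp, h1, h2, h3⟩ := curve_sel' 𝔮 ε hε S hS fun H hH => hH.2
  obtain ⟨K, hK, hPK⟩ := exists_finK (Finset.univ.image P)
  have hCF := isCurveField_finK K
  obtain ⟨w, hw, hl⟩ := sp.exists_lies K
  let ψ : ι → K := fun i => ⟨P i, hPK _ (Finset.mem_image_of_mem _ (Finset.mem_univ i))⟩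
  have e : ∀ F : MvPolynomial ι ℂ, ((aeval ψ F : K) : Om) = aeval P F := fun F =>
    DFunLike.congr_fun (show (⟨algebraMap K Om, fun _ => rfl⟩ : K →ₐ[ℂ] Om).comp (aeval ψ) =
      aeval P from by ext i; simp [ψ]) F
  have hfin := (hC K hCF).2.1
  have hpole : ∀ a : K, {v : Pl K | ¬ v.1 a ≤ 1}.Finite := by
    intro a
    by_cases ha : a = 0
    · simp [ha]
    · exact (hfin a ha).subset fun v hv h => hv h.le
  refine ⟨K, inferInstance, inferInstance, hCF, ψ, ⟨w, hw⟩,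
    (⋃ i, {v : Pl K | ¬ v.1 (ψ i) ≤ 1}) ∪ ⋃ H ∈ S, {v : Pl K | v.1 (aeval ψ H) ≠ 1},
    (Set.countable_iUnion fun i => (hpole _).countable).union
      (hS.biUnion fun H hH => (hfin _ fun h0 => h2 H hH ?_).countable),
    fun F hF => Subtype.ext ((e F).trans (h1 F hF)), fun i => (hl.lt_one _).mpr (h3 i),
    fun v hv => ?_⟩
  · rw [← e, h0]; rfl
  · simp only [Set.mem_union, Set.mem_iUnion, Set.mem_ofPred_eq, not_or, not_exists,
      not_not] at hv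
    choose a ha using fun i => hCF.exists_residue v.2 (ψ i) (hv.1 i)
    have ht : ∀ F : MvPolynomial ι ℂ, Tends v.1 (aeval ψ F) (eval a F) :=
      Tends.mv_aeval (x := ψ) (y := a) ha
    refine ⟨a, ⟨fun F hF => ?_, fun Q hQ => ?_⟩, ha⟩
    · exact (ht F).eq_zero (Subtype.ext ((e F).trans (h1 F hF)))
    · by_contra hn
      have h4 := ht (map (algebraMap L ℂ) Q)
      have h5 : eval a (map (algebraMap L ℂ) Q) = 0 := by
        rw [← hQ, ← aeval_map_algebraMap ℂ]; rfl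
      rw [h5, Tends.zero_iff] at h4
      exact h4.ne (hv.2 _ ⟨⟨Q, rfl⟩, hn⟩)

theorem thm_GenPt (hC : S_Count) : S_GenPt := by
  intro ι _ 𝔮 h𝔮 L hL
  obtain ⟨ε, hε⟩ : (zeroLocus ℂ 𝔮).Nonempty := by
    rw [Set.nonempty_iff_ne_empty]
    intro h
    have h1 := IsPrime.vanishingIdeal_zeroLocus (K := ℂ) 𝔮
    rw [h, vanishingIdeal_empty] at h1
    exact h𝔮.ne_top h1.symm
  obtain ⟨K, _, _, hK, ψ, v₀, T, hT, -, -, h⟩ := thm_Spec hC ι 𝔮 h𝔮 L hL ε hε
  obtain ⟨v, hv⟩ := (hC K hK).1 T hT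
  obtain ⟨a, ha, -⟩ := h v hv
  exact ⟨a, ha⟩

end Pool.Agent.P.MP_7ebcb6_ag.FD
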