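import Pool.Agent.P.MP_7ebcb6_ag.FD.St

/-! Closed subsets of a power of a projective variety and their ideals in a chart. -/

open scoped LinearAlgebra.Projectivization
open MvPolynomial TopologicalSpace

namespace Pool.Agent.P.MP_7ebcb6_ag.FD

namespace T2

variable {n m : ℕ} {X : Set (PP n)}

theorem mem_vi {ι : Type} {V : Set (ι → ℂ)} {P : MvPolynomial ι ℂ} :
    P ∈ vanishingIdeal ℂ V ↔ ∀ a ∈ V, eval a P = 0 := Iff.rfl

theorem mem_zl {ι : Type} {I : Ideal (MvPolynomial ι ℂ)} {a : ι → ℂ} :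
    a ∈ zeroLocus ℂ I ↔ ∀ P ∈ I, eval a P = 0 := Iff.rfl

theorem eval_mk {P : MvPolynomial (Fin (n + 1)) ℂ} {d : ℕ} (hP : P.IsHomogeneous d)
    {r : Fin (n + 1) → ℂ} (h : r ≠ 0) :
    eval (Projectivization.mk ℂ r h).rep P = 0 ↔ eval r P = 0 := by
  obtain ⟨c, hc⟩ := Projectivization.exists_smul_eq_mk_rep ℂ r h
  have h1 : ∀ x : Fin (n + 1) → ℂ, eval (c • x) P = (c : ℂ) ^ d * eval x P := fun x => by
    rw [eval_eq, eval_eq, Finset.mul_sum]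
    refine Finset.sum_congr rfl fun s hs => ?_
    rw [← hP.degree_eq_sum_deg_support hs |>.symm.symm.symm]
    simp only [Pi.smul_apply, Units.smul_def, smul_eq_mul, mul_pow, Finset.prod_mul_distrib,
      Finset.prod_pow_eq_pow_sum]
    ring
  rw [← hc, h1, mul_eq_zero, or_iff_right (pow_ne_zero _ c.ne_zero)]

/-- The product of the chart coordinates. -/
noncomputable def Q (j : Fin m → Fin (n + 1)) : MvPolynomial (Fin m × Fin (n + 1)) ℂ :=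
  ∏ i, MvPolynomial.X (i, j i)

theorem mh_Q (j : Fin m → Fin (n + 1)) : MH (Q j) (∑ i, Pi.single i 1) :=
  IsWeightedHomogeneous.prod _ _ _ fun i _ => isWeightedHomogeneous_X ℂ _ (i, j i)

theorem eval_Q {j : Fin m → Fin (n + 1)} {a : Fin m × Fin (n + 1) → ℂ} (h : ∀ i, a (i, j i) = 1) :
    eval a (Q j) = 1 := by simp [Q, h]

theorem chart (hT : S_Top) {j : Fin m → Fin (n + 1)} {x : Fin m → X} (h : ev x (Q j) ≠ 0) :
    ∃ a, (∀ i, a (i, j i) = 1) ∧ Rep Prod.mk a x := by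
  refine ((hT n X m).2.2.2.2.1 j x).1 fun i => ?_
  simp only [Q, map_prod, eval_X] at h
  exact Finset.prod_ne_zero_iff.1 h i (Finset.mem_univ _)

theorem zl_vi (hT : S_Top) (hX : zariskiClosure X ⊆ X) (j : Fin m → Fin (n + 1))
    {Z : Set (Fin m → X)} (hZ : IsClosed Z) :
    zeroLocus ℂ (vanishingIdeal ℂ (W j Z)) = W j Z := by
  obtain ⟨t1, -, t3, -⟩ := hT n X m
  refine le_antisymm (fun a ha => ?_) (zeroLocus_vanishingIdeal_le _)
  rw [mem_zl] at ha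
  have h1 : ∀ i, a (i, j i) = 1 := fun i => by
    have := ha (MvPolynomial.X (i, j i) - 1) fun a' ha' => by simp [ha'.1 i]
    simpa [sub_eq_zero] using this
  have h2 : ∀ i, (fun b => a (i, b)) ≠ 0 := fun i h => one_ne_zero ((h1 i).symm.trans (congrFun h _))
  have h3 : ∀ i, Projectivization.mk ℂ _ (h2 i) ∈ X := fun i => hX fun P d hP h0 => by
    have := ha (rename (Prod.mk i) P) (mem_vi.2 fun a' ⟨_, x, _, hx⟩ => by
      obtain ⟨h, e⟩ := hx i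
      have := h0 _ (x i).2
      rw [e, eval_mk hP] at this
      rwa [eval_rename])
    rw [eval_rename] at this
    exact (eval_mk hP _).2 this
  have h4 : Rep Prod.mk a fun i => (⟨_, h3 i⟩ : X) := fun i => ⟨h2 i, rfl⟩
  refine ⟨h1, _, hZ.closure_subset ((t1 Z _).2 fun P d hP h0 => ?_), h4⟩
  exact (t3 P d a _ hP h4).2 (ha P (mem_vi.2 fun a' ⟨_, x, hx, hr⟩ =>
    (t3 P d a' x hP hr).1 (h0 x hx)))

theorem prime (hT : S_Top) (j : Fin m → Fin (n + 1)) {Z : Set (Fin m → X)}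
    (hZ : IsIrreducible Z) (h : (W j Z).Nonempty) : (vanishingIdeal ℂ (W j Z)).IsPrime := by
  obtain ⟨-, t2, t3, t4, -⟩ := hT n X m
  refine ⟨fun e => ?_, fun {F G} hFG => ?_⟩
  · obtain ⟨a, ha⟩ := h
    simpa using mem_vi.1 ((Ideal.eq_top_iff_one _).1 e) a ha
  obtain ⟨P, d, hP, eP⟩ := t4 j F
  obtain ⟨P', d', hP', eP'⟩ := t4 j G
  have hQ := (mh_Q j).mul hP
  refine (isPreirreducible_iff_isClosed_union_isClosed.1 hZ.2 _ _ (t2 _ _ hQ) (t2 _ _ hP')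
    fun z hz => ?_).imp (fun h => mem_vi.2 fun a ⟨ha, x, hx, hr⟩ => ?_)
      fun h => mem_vi.2 fun a ⟨ha, x, hx, hr⟩ => ?_
  · by_cases h0 : ev z (Q j) = 0
    · exact Or.inl ((map_mul _ _ _).trans (mul_eq_zero_of_left h0 _))
    · obtain ⟨a, ha, hr⟩ := chart hT h0
      have := mem_vi.1 hFG a ⟨ha, z, hz, hr⟩
      rw [map_mul, ← eP a ha, ← eP' a ha, mul_eq_zero] at this
      refine this.imp (fun h => (t3 _ _ a z hQ hr).2 ?_) (t3 _ _ a z hP' hr).2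
      rw [map_mul, h, mul_zero]
  · have := (t3 _ _ a x hQ hr).1 (h hx)
    rwa [map_mul, eval_Q ha, one_mul, eP a ha] at this
  · rw [← eP' a ha]
    exact (t3 _ _ a x hP' hr).1 (h hx)

theorem strict (hT : S_Top) (hX : zariskiClosure X ⊆ X) (j : Fin m → Fin (n + 1))
    {Z Z' : Set (Fin m → X)} (hZ : IsClosed Z) (hZ' : IsClosed Z') (hi : IsIrreducible Z')
    (hs : Z ⊂ Z') (h : (W j Z').Nonempty) :
    vanishingIdeal ℂ (W j Z') < vanishingIdeal ℂ (W j Z) := by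
  obtain ⟨-, t2, t3, -, -, -, t7⟩ := hT n X m
  refine lt_of_le_of_ne (vanishingIdeal_anti_mono fun a ⟨ha, x, hx, hr⟩ => ⟨ha, x, hs.1 hx, hr⟩)
    fun e => ?_
  have e' : W j Z' = W j Z := by rw [← zl_vi hT hX j hZ, ← e, zl_vi hT hX j hZ']
  rcases isPreirreducible_iff_isClosed_union_isClosed.1 hi.2 _ _ hZ (t2 _ _ (mh_Q j))
    (fun z hz => by
      by_cases h0 : ev z (Q j) = 0
      · exact Or.inr h0
      · obtain ⟨a, ha, hr⟩ := chart hT h0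
        obtain ⟨-, x, hx, hr'⟩ : a ∈ W j Z := e' ▸ ⟨ha, z, hz, hr⟩
        exact Or.inl (t7 _ _ a x z hr' hr ▸ hx)) with h1 | h1
  · exact hs.2 h1
  · obtain ⟨a, ha, x, hx, hr⟩ := h
    exact one_ne_zero ((eval_Q ha).symm.trans ((t3 _ _ a x (mh_Q j) hr).1 (h1 hx)))

theorem clo (hT : S_Top) (j : Fin m → Fin (n + 1))
    {𝔮 : Ideal (MvPolynomial (Fin m × Fin (n + 1)) ℂ)} (hq : 𝔮.IsPrime)
    (h : zeroLocus ℂ 𝔮 ⊆ W j (Set.univ : Set (Fin m → X))) :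
    IsIrreducible (cl X 𝔮) ∧ W j (cl X 𝔮) = zeroLocus ℂ 𝔮 := by
  obtain ⟨t1, -, t3, t4, -⟩ := hT n X m
  have hN := IsPrime.vanishingIdeal_zeroLocus (K := ℂ) 𝔮
  refine ⟨IsIrreducible.closure ⟨?_, ?_⟩, le_antisymm ?_ fun a ha => ?_⟩
  · obtain ⟨a, ha⟩ : (zeroLocus ℂ 𝔮).Nonempty := Set.nonempty_iff_ne_empty.2 fun e =>
      hq.ne_top (by rw [← hN, e, vanishingIdeal_empty])
    obtain ⟨-, x, -, hr⟩ := h ha
    exact ⟨x, a, ha, hr⟩
  · refine isPreirreducible_iff_isClosed_union_isClosed.2 fun z₁ z₂ c₁ c₂ hs => ?_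
    by_contra hc
    simp only [not_or, Set.not_subset] at hc
    obtain ⟨⟨x₁, ⟨a₁, ha₁, r₁⟩, n₁⟩, x₂, ⟨a₂, ha₂, r₂⟩, n₂⟩ := hc
    rw [← c₁.closure_eq, t1] at n₁
    rw [← c₂.closure_eq, t1] at n₂
    push Not at n₁ n₂
    obtain ⟨P₁, d₁, m₁, v₁, e₁⟩ := n₁
    obtain ⟨P₂, d₂, m₂, v₂, e₂⟩ := n₂
    have : P₁ * P₂ ∈ 𝔮 := hN ▸ mem_vi.2 fun a ha => by
      obtain ⟨-, x, -, hr⟩ := h ha
      rw [map_mul, mul_eq_zero]
      exact (hs ⟨a, ha, hr⟩).imp (fun hx => (t3 _ _ a x m₁ hr).1 (v₁ x hx))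
        fun hx => (t3 _ _ a x m₂ hr).1 (v₂ x hx)
    exact (hq.mem_or_mem this).elim (fun h1 => e₁ ((t3 _ _ _ _ m₁ r₁).2 (ha₁ _ h1)))
      fun h1 => e₂ ((t3 _ _ _ _ m₂ r₂).2 (ha₂ _ h1))
  · rintro a ⟨ha, x, hx, hr⟩
    refine mem_zl.2 fun F hF => ?_
    obtain ⟨P, d, hP, eP⟩ := t4 j F
    rw [← eP a ha]
    refine (t3 _ _ a x hP hr).1 ((t1 _ x).1 hx P d hP fun z ⟨a', ha', hr'⟩ => ?_)
    exact (t3 _ _ a' z hP hr').2 ((eP a' (h ha').1).trans (ha' F hF))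
  · obtain ⟨h1, x, -, hr⟩ := h ha
    exact ⟨h1, x, subset_closure ⟨a, ha, hr⟩, hr⟩

end T2

theorem thm_T2 (hT : S_Top) : S_T2 := fun _ _ hX _ j =>
  ⟨fun _ => T2.zl_vi hT hX j, fun _ => T2.prime hT j, fun _ _ => T2.strict hT hX j,
    fun _ => T2.clo hT j⟩

end Pool.Agent.P.MP_7ebcb6_ag.FD
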