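import Pool.Agent.P.MP_7ebcb6_ag.FD.St

/-! The Zariski topology on `Xᵐ` and affine charts. -/

open scoped LinearAlgebra.Projectivization WithZero
open MvPolynomial TopologicalSpace WithZero Finsupp

namespace Pool.Agent.P.MP_7ebcb6_ag.FD

namespace TopP

variable {n m : ℕ} {X : Set (PP n)}

/-- Scaling the blocks of coordinates multiplies a multihomogeneous polynomial by a monomial. -/
lemma eval_scale {P : MvPolynomial (Fin m × Fin (n + 1)) ℂ} {d : Fin m → ℕ} (h : MH P d)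
    (c : Fin m → ℂ) (a : Fin m × Fin (n + 1) → ℂ) :
    eval (fun v => c v.1 * a v) P = (∏ i, c i ^ d i) * eval a P := by
  have := aeval_scale (fun e : Fin m → ℕ => ∏ i, c i ^ e i) (by simp)
    (fun e f => by simp [pow_add, Finset.prod_mul_distrib]) h a
  simp only [aeval_eq_eval] at this
  rw [← this]
  congr 2
  funext v
  congr 1
  rw [Finset.prod_eq_single v.1 (fun i _ hi => by simp [hi]) (by simp)]
  simp

lemma mh_mon (j : Fin m → Fin (n + 1)) (d : Fin m → ℕ) :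
    MH (∏ i, MvPolynomial.X (i, j i) ^ d i : MvPolynomial (Fin m × Fin (n + 1)) ℂ) d := by
  have := IsWeightedHomogeneous.prod (w := fun v : Fin m × Fin (n + 1) => (Pi.single v.1 1 : Fin m → ℕ))
    Finset.univ (fun i => (MvPolynomial.X (i, j i) ^ d i : MvPolynomial (Fin m × Fin (n + 1)) ℂ))
    (fun i => d i • (Pi.single i 1 : Fin m → ℕ))
    (fun i _ => (isWeightedHomogeneous_X ℂ _ (i, j i)).pow (d i))
  convert this using 1
  funext k
  simp [Finset.sum_apply, Pi.single_apply]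

lemma homog (j : Fin m → Fin (n + 1)) (F : MvPolynomial (Fin m × Fin (n + 1)) ℂ) :
    ∃ P d, MH P d ∧
      ∀ a : Fin m × Fin (n + 1) → ℂ, (∀ i, a (i, j i) = 1) → eval a P = eval a F := by
  induction F using MvPolynomial.induction_on with
  | C c => exact ⟨C c, 0, isWeightedHomogeneous_C _ _, fun _ _ => rfl⟩
  | add p q hp hq =>
    obtain ⟨P, d, h1, h2⟩ := hp
    obtain ⟨Q, e, h3, h4⟩ := hq
    refine ⟨P * ∏ i, MvPolynomial.X (i, j i) ^ e i + (∏ i, MvPolynomial.X (i, j i) ^ d i) * Q,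
      d + e, (h1.mul (mh_mon j e)).add ((mh_mon j d).mul h3), fun a ha => ?_⟩
    simp [ha, h2 a ha, h4 a ha]
  | mul_X p v hp =>
    obtain ⟨P, d, h1, h2⟩ := hp
    exact ⟨P * MvPolynomial.X v, d + Pi.single v.1 1, h1.mul (isWeightedHomogeneous_X ℂ _ v),
      fun a ha => by simp [h2 a ha]⟩

lemma rep_scale {a : Fin m × Fin (n + 1) → ℂ} {x : Fin m → X} (h : Rep Prod.mk a x) :
    ∃ c : Fin m → ℂ, (∀ i, c i ≠ 0) ∧ ∀ i b, (x i).1.rep b = c i * a (i, b) := by
  choose h1 h2 using h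
  choose c hc using fun i => Projectivization.exists_smul_eq_mk_rep ℂ _ (h1 i)
  refine ⟨fun i => c i, fun i => (c i).ne_zero, fun i b => ?_⟩
  rw [h2 i, ← hc i]
  rfl

lemma basis : IsTopologicalBasis {U : Set (Fin m → X) | ∃ P d, MH P d ∧ U = {x | ev x P ≠ 0}} := by
  refine ⟨?_, ?_, rfl⟩
  · rintro _ ⟨P, d, hP, rfl⟩ _ ⟨Q, e, hQ, rfl⟩ x hx
    refine ⟨_, ⟨P * Q, d + e, hP.mul hQ, rfl⟩, ?_, fun y hy => ?_⟩
    · simpa [ev] using hx
    · simpa [ev] using hy
  · exact Set.eq_univ_of_forall fun x =>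
      ⟨_, ⟨1, 0, isWeightedHomogeneous_one _ _, rfl⟩, by simp [ev]⟩

end TopP

open TopP in
theorem thm_Top : S_Top := by
  intro n X m
  refine ⟨fun Z x => ?_, fun P d hP => ?_, fun P d a x hP ha => ?_, homog, fun j x => ⟨fun h => ?_, ?_⟩,
    fun j a a' x h h' ha ha' => ?_, fun ι e a x y hx hy => ?_⟩
  · rw [basis.mem_closure_iff]
    constructor
    · intro h P d hP hZ
      by_contra hx
      obtain ⟨z, h1, h2⟩ := h _ ⟨P, d, hP, rfl⟩ hx
      exact h1 (hZ z h2)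
    · rintro h _ ⟨P, d, hP, rfl⟩ hx
      by_contra hne
      exact hx (h P d hP fun z hz => by_contra fun h' => hne ⟨z, h', hz⟩)
  · exact isOpen_compl_iff.mp (basis.isOpen ⟨P, d, hP, rfl⟩)
  · obtain ⟨c, hc, h⟩ := rep_scale ha
    have : ev x P = (∏ i, c i ^ d i) * eval a P := by
      rw [← eval_scale hP]
      simp only [ev, h]
    rw [this, mul_eq_zero, or_iff_right (Finset.prod_ne_zero_iff.mpr fun i _ => pow_ne_zero _ (hc i))]
  · refine ⟨fun v => ((x v.1).1.rep (j v.1))⁻¹ * (x v.1).1.rep v.2, fun i => inv_mul_cancel₀ (h i),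
      fun i => ⟨fun h0 => ?_, ?_⟩⟩
    · simpa [h i] using congrFun h0 (j i)
    · rw [eq_comm]
      conv_rhs => rw [← Projectivization.mk_rep (x i).1]
      exact (Projectivization.mk_eq_mk_iff' ℂ _ _ _ _).mpr ⟨((x i).1.rep (j i))⁻¹, rfl⟩
  · rintro ⟨a, h1, h2⟩ i
    obtain ⟨c, hc, h⟩ := rep_scale h2
    rw [h, h1, mul_one]
    exact hc i
  · obtain ⟨c, hc, e⟩ := rep_scale ha
    obtain ⟨c', -, e'⟩ := rep_scale ha'
    funext ⟨i, b⟩
    have h1 : c i = c' i := by simpa [h, h'] using (e i (j i)).symm.trans (e' i (j i))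
    exact mul_left_cancel₀ (hc i) (by rw [← e, e', h1])
  · funext i
    obtain ⟨_, h1⟩ := hx i
    obtain ⟨_, h2⟩ := hy i
    exact Subtype.ext (h1.trans h2.symm)

end Pool.Agent.P.MP_7ebcb6_ag.FD
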