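import Pool.Agent.P.MP_7ebcb6_ag.FD.St

/-! Chains of irreducible closed subsets of a power of a projective variety. -/

open scoped LinearAlgebra.Projectivization
open MvPolynomial TopologicalSpace
open Pool.Agent.P.MP_68ca4e_ag.M (td td_lt)

namespace Pool.Agent.P.MP_7ebcb6_ag.FD

namespace Up

lemma cl_anti {n m : ℕ} (X : Set (PP n)) {𝔭 𝔮 : Ideal (MvPolynomial (Fin m × Fin (n + 1)) ℂ)}
    (h : 𝔭 ≤ 𝔮) : cl X 𝔮 ⊆ cl X 𝔭 :=
  closure_mono fun _ ⟨a, ha, hx⟩ => ⟨a, zeroLocus_anti_mono h ha, hx⟩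

lemma le_of_strictMono {r : ℕ} {h : Fin (r + 1) → ℕ} (hh : StrictMono h) (i : Fin (r + 1)) :
    i.1 ≤ h i := by
  induction i using Fin.induction with
  | zero => exact Nat.zero_le _
  | succ i ih => exact Nat.succ_le_of_lt (lt_of_le_of_lt ih (hh Fin.castSucc_lt_succ))

end Up

open Up

theorem thm_Chain (hT2 : S_T2) (hLow : S_Low) : S_Chain := by
  intro n X hX m j 𝔮 hq hW
  obtain ⟨f, hf, hp, h0⟩ := hLow _ 𝔮 hq
  have hle : ∀ i, 𝔮 ≤ f i := fun i => h0 ▸ hf.monotone (Fin.zero_le i)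
  have key := fun i => (hT2 n X hX m j).2.2.2 (f i) (hp i)
    ((zeroLocus_anti_mono (hle i)).trans hW)
  refine ⟨fun i => ⟨cl X (f i.rev), (key _).1, isClosed_closure⟩, fun i i' h => ?_,
    fun i => cl_anti X (hle _)⟩
  have hlt := hf (Fin.rev_lt_rev.mpr h)
  refine lt_of_le_of_ne (cl_anti X hlt.le) fun e => hlt.ne ?_
  have e1 : cl X (f i.rev) = cl X (f i'.rev) := congrArg SetLike.coe e
  have := hp i.rev
  have := hp i'.rev
  rw [← IsPrime.vanishingIdeal_zeroLocus (K := ℂ) (f i'.rev), ← (key _).2, ← e1, (key _).2,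
    IsPrime.vanishingIdeal_zeroLocus]

theorem thm_Up (hTop : S_Top) (hT2 : S_T2) (hTd : S_TdUp) : S_Up := by
  intro n X hX m
  refine iSup_le fun p => ?_
  obtain ⟨x, hx⟩ := p.head.isIrreducible.nonempty
  choose j hj using fun i => Function.ne_iff.mp (x i).1.rep_nonzero
  obtain ⟨a, ha, hax⟩ := ((hTop n X m).2.2.2.2.1 j x).mp hj
  obtain ⟨-, h2, h3, -⟩ := hT2 n X hX m j
  have hne : ∀ i, (W j (p i : Set (Fin m → X))).Nonempty := fun i =>
    ⟨a, ha, x, p.monotone (Fin.zero_le i) hx, hax⟩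
  have hp := fun i => h2 _ (p i).isIrreducible (hne i)
  have h4 : StrictMono fun i => td (vanishingIdeal ℂ (W j (p i : Set (Fin m → X)))) :=
    fun i i' h => td_lt (h3 _ _ (p i).isClosed (p i').isClosed (p i').isIrreducible
      (p.strictMono h) (hne i'))
  have h5 := hTd _ m (dimX X) _ (hp (Fin.last _)) (fun i => I1 X (j i))
    (fun i P hP b ⟨hb, y, _, hy⟩ => by
      rw [aeval_rename]
      exact hP _ ⟨fun _ => hb i, fun _ => y i, trivial, fun _ => hy i⟩)
    fun i => Finset.le_sup (f := fun a => td (I1 X a)) (Finset.mem_univ _)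
  exact_mod_cast (le_of_strictMono h4 (Fin.last _)).trans h5

end Pool.Agent.P.MP_7ebcb6_ag.FD
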