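import Pool.Agent.P.MP_7ebcb6_ag.FD.St

/-! Places above a point and values of maps to projective space. -/

open scoped LinearAlgebra.Projectivization WithZero
open MvPolynomial WithZero

namespace Pool.Agent.P.MP_7ebcb6_ag.FD

theorem thm_PlAt (hC : S_Count) : S_PlAt := by
  intro K _ _ hK ι ψ a h
  let Ψ : MvPolynomial ι ℂ →+* K := (aeval ψ : MvPolynomial ι ℂ →ₐ[ℂ] K).toRingHom
  have hΨ : ∀ F, Ψ F = aeval ψ F := fun _ => rfl
  obtain ⟨O, hO1, hO2⟩ := Ideal.image_subset_nonunits_valuationSubring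
    ((RingHom.ker (eval a)).map Ψ.rangeRestrict) (by
      rw [Ideal.ne_top_iff_one, Ideal.mem_map_iff_of_surjective _ Ψ.rangeRestrict_surjective]
      rintro ⟨r, hr, hr1⟩
      have h1 : Ψ r = 1 := congrArg Subtype.val hr1
      have h2 : eval a (r - 1) = 0 := h _ (by rw [← hΨ, map_sub, h1, map_one, sub_self])
      rw [map_sub, (RingHom.mem_ker).mp hr, map_one, zero_sub, neg_eq_zero] at h2
      exact one_ne_zero h2)
  have key : ∀ i, ψ i - algebraMap ℂ K (a i) ∈ O.nonunits := by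
    intro i
    refine hO2 ⟨Ψ.rangeRestrict (X i - C (a i)), Ideal.mem_map_of_mem _ (by
      simp [RingHom.mem_ker]), ?_⟩
    change Ψ (X i - C (a i)) = _
    simp [hΨ]
  by_cases htop : O = ⊤
  · obtain ⟨v, -⟩ := (hC K hK).1 ∅ Set.countable_empty
    refine ⟨v, fun i => ?_⟩
    have h1 := (O.mem_nonunits_iff_or.mp (key i)).resolve_right fun h =>
      h (htop ▸ ValuationSubring.mem_top _)
    exact (Tends.const (a i)).of_eq_left (sub_eq_zero.mp h1).symm
  · obtain ⟨w, hw, hwO⟩ := hK.exists_place O (fun c => hO1 ⟨C c, by simp [hΨ]⟩) htop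
    refine ⟨⟨w, hw⟩, fun i => ?_⟩
    have h1 := O.mem_nonunits_iff.mp (key i)
    subst hwO
    exact (Valuation.isEquiv_valuation_valuationSubring w).lt_one_iff_lt_one.mpr h1

theorem thm_Val : S_Val := by
  intro n K _ _
  refine ⟨fun v η x c r h hx hr => ?_, fun X hX hK η h0 hη => ?_⟩
  · obtain ⟨d, hd⟩ := hx
    have hd' : ∀ i, Tends v.1 (d * η i) (x.rep i) := hd
    obtain ⟨j, hj⟩ := Function.ne_iff.mp h
    have hj' : r j ≠ 0 := hj
    rw [← x.mk_rep, Projectivization.mk_eq_mk_iff']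
    refine ⟨x.rep j / r j, funext fun i => ?_⟩
    have := ((hd' i).mul (hr j)).eq_of_eq ((hd' j).mul (hr i)) (by ring)
    simp only [Pi.smul_apply, smul_eq_mul]
    field_simp
    linear_combination -this
  · have hex : ∀ v : Pl K, ∃ x : X, IsValueAt v.1 η x := by
      intro v
      obtain ⟨x, c, hc⟩ := hK.exists_value v.2 h0
      have hc' : ∀ i, Tends v.1 (c * η i) (x.rep i) := hc
      refine ⟨⟨x, hX fun P d hP hZ => ?_⟩, c, hc⟩
      exact (Tends.mv_aeval hc' P).eq_zero (by rw [aeval_smul_homog hP, hη P d hP hZ, mul_zero])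
    choose φ hφ using hex
    exact ⟨φ, hφ⟩

end Pool.Agent.P.MP_7ebcb6_ag.FD
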