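import Pool.Agent.P.MP_7ebcb6_ag.FD.Acl
import Pool.Agent.P.MP_7ebcb6_ag.FD.Act
import Pool.Agent.P.MP_7ebcb6_ag.FD.Aut
import Pool.Agent.P.MP_7ebcb6_ag.FD.BD
import Pool.Agent.P.MP_7ebcb6_ag.FD.CV
import Pool.Agent.P.MP_7ebcb6_ag.FD.Der
import Pool.Agent.P.MP_7ebcb6_ag.FD.DimIm
import Pool.Agent.P.MP_7ebcb6_ag.FD.Div
import Pool.Agent.P.MP_7ebcb6_ag.FD.DivK
import Pool.Agent.P.MP_7ebcb6_ag.FD.DivX
import Pool.Agent.P.MP_7ebcb6_ag.FD.Fam
import Pool.Agent.P.MP_7ebcb6_ag.FD.Fib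
import Pool.Agent.P.MP_7ebcb6_ag.FD.FinD
import Pool.Agent.P.MP_7ebcb6_ag.FD.GenR
import Pool.Agent.P.MP_7ebcb6_ag.FD.Irr
import Pool.Agent.P.MP_7ebcb6_ag.FD.Loc
import Pool.Agent.P.MP_7ebcb6_ag.FD.Low
import Pool.Agent.P.MP_7ebcb6_ag.FD.Mov
import Pool.Agent.P.MP_7ebcb6_ag.FD.OneK
import Pool.Agent.P.MP_7ebcb6_ag.FD.Q1
import Pool.Agent.P.MP_7ebcb6_ag.FD.Res
import Pool.Agent.P.MP_7ebcb6_ag.FD.Rie
import Pool.Agent.P.MP_7ebcb6_ag.FD.SpecC
import Pool.Agent.P.MP_7ebcb6_ag.FD.SymP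
import Pool.Agent.P.MP_7ebcb6_ag.FD.T2
import Pool.Agent.P.MP_7ebcb6_ag.FD.Top
import Pool.Agent.P.MP_7ebcb6_ag.FD.Up
import Pool.Agent.P.MP_7ebcb6_ag.FD.Val

/-! The steps are put together. -/

open scoped LinearAlgebra.Projectivization
open MvPolynomial Finsupp

namespace Pool.Agent.P.MP_7ebcb6_ag.FD

theorem t2 : S_T2 := thm_T2 thm_Top
theorem mov : S_Mov := thm_Mov thm_Div
theorem rie : S_Rie := thm_Rie thm_Div thm_Count
theorem spec : S_Spec := thm_Spec thm_Count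
theorem genPt : S_GenPt := thm_GenPt thm_Count
theorem irr : S_Irr := thm_Irr thm_Top thm_Sym
theorem irrIm : S_IrrIm := thm_IrrIm thm_Top thm_Sym
theorem fam : S_Fam := thm_Fam spec thm_Val mov thm_Push
theorem chain : S_Chain := thm_Chain t2 thm_Low
theorem up : S_Up := thm_Up thm_Top t2 thm_TdUp
theorem clo : S_Clo := thm_Clo thm_Acl thm_Top t2 fam
theorem dim1 : S_Dim1 := thm_Dim1 t2 chain thm_Q2 thm_Pt

theorem genR : S_GenR :=
  thm_GenR thm_Acl thm_Snoc thm_Exch thm_Count rie (thm_Key thm_Der thm_Res)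

theorem divK : S_DivK :=
  thm_DivK thm_Aut thm_Count mov thm_Res (thm_DefK thm_Acl) genR thm_Push thm_Val thm_Act

theorem divX : S_DivX :=
  thm_DivX thm_Acl thm_Aut thm_Count spec thm_Val thm_Act thm_Top t2 irr divK fam

theorem oneK : S_OneK :=
  thm_OneK thm_Acl thm_Aut genPt thm_Act thm_Top t2 irr fam divX thm_Push

theorem fib : S_Fib :=
  thm_Fib thm_Acl thm_Aut thm_Act thm_Top t2 (thm_IndX thm_Acl genPt) thm_GenZ fam

theorem bd : S_BD :=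
  thm_BD thm_DefI thm_Act thm_Top t2 irr oneK thm_Bdd
    (thm_CV (thm_PlAt thm_Count) thm_Val rie thm_Push thm_Count)

theorem fin : S_Fin := thm_Fin t2 chain up thm_Q1 thm_Sym thm_Q2 thm_Pt clo fib

/-- If the cycles of degree zero are torsion, they are rationally equivalent to zero. -/
theorem w1 : S_W1 := thm_W1 oneK thm_Act

/-- If the cycles on a surface are supported on a curve up to torsion, `dₘ` is bounded. -/
theorem w2 : S_W2 := thm_W2 t2 chain up thm_Q1 thm_Sym thm_Q2 thm_Pt clo fib irr dim1 bd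

variable {n : ℕ} {ι : Type} {S : Set (ι → ℂ)} {N : Fin (n + 1) → MvPolynomial ι ℂ}

/-- `w1` for the closure of the image of an irreducible affine variety. -/
theorem w1_im (hS : (vanishingIdeal ℂ S).IsPrime) (h0 : ∃ p ∈ S, ∃ i, eval p (N i) ≠ 0)
    (H : ∀ D : zariskiClosure (im S N) →₀ ℤ, D.degree = 0 →
      ∃ m : ℕ, 0 < m ∧ m • D ∈ ratTrivial (zariskiClosure (im S N)))
    (D : zariskiClosure (im S N) →₀ ℤ) (hD : D.degree = 0) :
    D ∈ ratTrivial (zariskiClosure (im S N)) :=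
  w1 n _ (irrIm n ι S N).1 ((irrIm n ι S N).2 hS h0) H D hD

/-- If every cycle of degree zero is rationally equivalent to zero, `dₘ` is bounded. -/
theorem finDim_of_zero {X : Set (PP n)} (hX : zariskiClosure X ⊆ X) (hI : Irr X)
    (H : ∀ D : X →₀ ℤ, D.degree = 0 → D ∈ ratTrivial X) : FinDim X :=
  fin n X hX hI ⟨0, Fin.elim0, fun D hD => ⟨Fin.elim0, by simpa using H D hD⟩⟩

/-- `w2` for the closure of the image of an irreducible affine variety. -/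
theorem w2_im (hS : (vanishingIdeal ℂ S).IsPrime) (hd : dimX (zariskiClosure (im S N)) ≤ 2)
    {F : MvPolynomial (Fin (n + 1)) ℂ} {r : ℕ} (hF : F.IsHomogeneous r) {p : ι → ℂ} (hp : p ∈ S)
    (h0 : ∃ i, eval p (N i) ≠ 0) (h1 : eval (fun i => eval p (N i)) F ≠ 0)
    (H : ∀ D : zariskiClosure (im S N) →₀ ℤ, ∃ (k : ℕ) (D' : zariskiClosure (im S N) →₀ ℤ),
      0 < k ∧ (∀ x ∈ D'.support, eval x.1.rep F = 0) ∧
        k • D - D' ∈ ratTrivial (zariskiClosure (im S N))) :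
    FinDim (zariskiClosure (im S N)) := by
  have hX := (irrIm n ι S N).1
  have hI := (irrIm n ι S N).2 hS ⟨p, hp, h0⟩
  have hne : (fun i => eval p (N i)) ≠ 0 := Function.ne_iff.mpr h0
  exact fin n _ hX hI (bd n _ hX hI hd F r hF ⟨Projectivization.mk ℂ _ hne,
    fun P d _ h => h _ ⟨p, hp, hne, rfl⟩, fun h => h1 ((IrrP.eval_rep_mk hF _ hne).1 h)⟩ H)

/-- The image of a surface in `ℙ³` under forms of one degree has dimension at most two. -/
theorem dimX_le_two {S : Set (Fin 4 → ℂ)} {N : Fin (n + 1) → MvPolynomial (Fin 4) ℂ}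
    {Φ : MvPolynomial (Fin 4) ℂ} {r d : ℕ} (h0 : Φ ≠ 0) (hΦ : Φ.IsHomogeneous r)
    (hS : ∀ p ∈ S, eval p Φ = 0)
    (hN : ∀ i (c : ℂ) (p : Fin 4 → ℂ), eval (fun j => c * p j) (N i) = c ^ d * eval p (N i)) :
    dimX (zariskiClosure (im S N)) ≤ 2 := by
  obtain ⟨J, hJ, h1, h2⟩ := thm_Cone 2 Φ r h0 hΦ
  refine thm_DimIm n _ S N 2 J hJ h1 fun p hp => ?_
  obtain ⟨𝔮, h𝔮, c, hc, h3⟩ := h2 p (hS p hp)
  exact ⟨𝔮, h𝔮, _, h3, c ^ d, pow_ne_zero _ hc, fun i => hN i c p⟩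

end Pool.Agent.P.MP_7ebcb6_ag.FD
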