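import Pool.Agent.P.MP_7ebcb6_ag.G8.Alg

/-! An irreducible member of the family of octics. -/

open MvPolynomial

namespace Pool.Agent.P.MP_7ebcb6_ag.FD.NV

open G8

noncomputable section

/-- The octic form. -/
def Phi (g : Fin 6 → ℂ) (la mu : ℂ) : MvPolynomial (Fin 4) ℂ :=
  phiV (fun i => C (g i)) (C la) (C (2 * mu)) X

lemma aeval_Phi {R : Type} [CommRing R] [Algebra ℂ R] (g : Fin 6 → ℂ) (la mu : ℂ) (p : Fin 4 → R) :
    aeval p (Phi g la mu) = phiV (fun i => algebraMap ℂ R (g i)) (algebraMap ℂ R la)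
      (algebraMap ℂ R (2 * mu)) p := by
  refine (map_phiV (aeval p : MvPolynomial (Fin 4) ℂ →ₐ[ℂ] R).toRingHom _ _ _ _).trans ?_
  simp

lemma mem_octic_iff {g : Fin 6 → ℂ} {la mu : ℂ} {p : Fin 4 → ℂ} :
    p ∈ octic g la mu ↔ eval p (Phi g la mu) = 0 := by
  rw [mem_octic, ← aeval_eq_eval, aeval_Phi]
  rfl

lemma homog_Phi (g : Fin 6 → ℂ) (la mu : ℂ) : (Phi g la mu).IsHomogeneous 8 := by
  intro s hs
  have h1 : ∑ t ∈ (Phi g la mu).support, monomial t ((2 : ℂ) ^ (∑ i, t i) * coeff t (Phi g la mu))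
      = C (2 ^ 8) * Phi g la mu := by
    refine MvPolynomial.funext fun p => ?_
    have h0 : eval (fun i => 2 * p i) (Phi g la mu) = 2 ^ 8 * eval p (Phi g la mu) := by
      rw [← aeval_eq_eval, ← aeval_eq_eval, aeval_Phi, aeval_Phi, phiV_smul]
    rw [map_mul, eval_C, ← h0, map_sum, eval_eq']
    refine Finset.sum_congr rfl fun t _ => ?_
    rw [eval_monomial, Finsupp.prod_fintype _ _ (by simp)]
    simp only [mul_pow, Finset.prod_mul_distrib, Finset.prod_pow_eq_pow_sum]
    ring
  have h2 := congrArg (coeff s) h1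
  rw [coeff_C_mul, coeff_sum, Finset.sum_eq_single s (fun t _ ht => by
    rw [coeff_monomial, if_neg ht]) (fun h => absurd (mem_support_iff.mpr hs) h),
    coeff_monomial, if_pos rfl] at h2
  have h3 : (2 : ℂ) ^ (∑ i, s i) = 2 ^ 8 := mul_right_cancel₀ hs h2
  have h4 : ∑ i, s i = 8 := Nat.pow_right_injective le_rfl (by exact_mod_cast h3)
  rw [Finsupp.weight_apply, Finsupp.sum_fintype _ _ (by simp)]
  simpa using h4

lemma phi_plane {R : Type} [CommRing R] [Algebra ℂ R] (y m : R) :
    aeval ![1, y, m, 0] (Phi 0 0 1) = y ^ 8 + (2 * y + y ^ 2 * (4 * y + y ^ 2 + 2 * y ^ 3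
      - 4 * y ^ 4)) * m ^ 2 + (1 - 4 * y - 4 * y ^ 3 + 6 * y ^ 4) * m ^ 4
      + (-2 + 2 * y - 4 * y ^ 2) * m ^ 6 + m ^ 8 := by
  rw [aeval_Phi]
  simp only [phiV, phi, fp, g0, x1, x2, x3, n1, n2, n3, r1, r2, r3, qQ, c3, a11, a12, a13, a22, a23,
    a33, Pi.zero_apply, map_zero, mul_one, map_ofNat, Matrix.cons_val_zero, Matrix.cons_val_one,
    Matrix.cons_val]
  ring

lemma Phi_ne_zero (g : Fin 6 → ℂ) (la mu : ℂ) : Phi g la mu ≠ 0 := by
  intro h
  have := aeval_Phi g la mu (R := ℂ) ![0, 0, 1, 0]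
  rw [h, map_zero] at this
  simp [phiV, phi, fp, g0, x1, x2, x3, n1, n2, n3, r1, r2, r3, qQ, c3, a11, a12, a13, a22, a23,
    a33] at this

lemma affine_of_le_one {A : MvPolynomial (Fin 4) ℂ} (h : A.totalDegree ≤ 1) :
    ∃ (c₀ : ℂ) (c : Fin 4 → ℂ), A = C c₀ + ∑ i, C (c i) * X i := by
  have h1 : homogeneousComponent 1 A ∈ Submodule.span ℂ (Set.range X) := by
    rw [← homogeneousSubmodule_one_eq_span_X]
    exact homogeneousComponent_mem 1 A
  obtain ⟨c, hc⟩ := (Submodule.mem_span_range_iff_exists_fun ℂ).mp h1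
  refine ⟨coeff 0 A, c, ?_⟩
  simp only [← smul_eq_C_mul, hc, ← homogeneousComponent_zero]
  conv_lhs => rw [← sum_homogeneousComponent A]
  rcases Nat.le_one_iff_eq_zero_or_eq_one.mp h with h0 | h0
  · rw [h0, homogeneousComponent_eq_zero 1 A (by omega)]
    simp
  · rw [h0]
    simp [Finset.sum_range_succ]

open Polynomial in
lemma key {A B : MvPolynomial (Fin 4) ℂ} (h : Phi 0 0 1 = A * B) {a e : ℕ} {r : ℂ} (hr : r ≠ 0)
    (hae : 2 * a + 2 * e = 8)
    (hA : MvPolynomial.aeval ![1, Polynomial.X, 0, 0] A = Polynomial.C r * Polynomial.X ^ a) :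
    IsUnit A := by
  have hA0 : A ≠ 0 := left_ne_zero_of_mul (h ▸ Phi_ne_zero 0 0 1)
  have hB0 : B ≠ 0 := right_ne_zero_of_mul (h ▸ Phi_ne_zero 0 0 1)
  have htd : A.totalDegree + B.totalDegree = 8 := by
    rw [← totalDegree_mul_of_isDomain hA0 hB0, ← h]
    exact (homog_Phi 0 0 1).totalDegree (Phi_ne_zero 0 0 1)
  have hC : (Polynomial.C r : ℂ[X]) ≠ 0 := Polynomial.C_ne_zero.mpr hr
  have h8 := phi_plane (Polynomial.X : ℂ[X]) 0
  rw [h, map_mul, hA] at h8
  have hB : Polynomial.C r * MvPolynomial.aeval ![1, Polynomial.X, 0, 0] B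
      = (Polynomial.X : ℂ[X]) ^ (a + 2 * e) := by
    refine mul_left_cancel₀ (pow_ne_zero a Polynomial.X_ne_zero) ?_
    rw [← pow_add, show a + (a + 2 * e) = 8 by omega]
    linear_combination h8
  have hdeg : a + 2 * e ≤ B.totalDegree := by
    have h1 := MvPolynomial.aeval_natDegree_le B le_rfl ![1, Polynomial.X, 0, 0] (n := 1)
      (fun i => by fin_cases i <;> simp)
    have h2 := congrArg Polynomial.natDegree hB
    rw [natDegree_C_mul hr, natDegree_X_pow] at h2
    omega
  rcases Nat.lt_or_ge a 2 with ha | ha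
  · rcases Nat.lt_or_ge a 1 with ha' | ha'
    · have h0 : A.totalDegree = 0 := by omega
      rw [totalDegree_eq_zero_iff_eq_C] at h0
      rw [h0] at hA0 ⊢
      exact (IsUnit.mk0 _ fun h => hA0 (by rw [h, map_zero])).map MvPolynomial.C
    · exfalso
      obtain rfl : a = 1 := by omega
      obtain ⟨c₀, c, rfl⟩ := affine_of_le_one (A := A) (by omega)
      simp only [map_add, map_mul, MvPolynomial.aeval_C, MvPolynomial.aeval_X,
        Fin.sum_univ_four, Matrix.cons_val_zero, Matrix.cons_val_one, Matrix.cons_val,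
        Polynomial.algebraMap_apply, Algebra.algebraMap_self, RingHom.id_apply] at hA
      have e0 := congrArg (fun p => p.coeff 0) hA
      have e1 := congrArg (fun p => p.coeff 1) hA
      simp [Polynomial.coeff_C] at e0 e1
      have h9 := phi_plane (Polynomial.C (-c 2 / r) * Polynomial.X : ℂ[X]) Polynomial.X
      rw [h, map_mul] at h9
      have hz : MvPolynomial.aeval ![1, Polynomial.C (-c 2 / r) * Polynomial.X, Polynomial.X, 0]
          (MvPolynomial.C c₀ + ∑ i, MvPolynomial.C (c i) * MvPolynomial.X i) = (0 : ℂ[X]) := by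
        simp only [map_add, map_mul, MvPolynomial.aeval_C, MvPolynomial.aeval_X,
          Fin.sum_univ_four, Matrix.cons_val_zero, Matrix.cons_val_one, Matrix.cons_val,
          Polynomial.algebraMap_apply, Algebra.algebraMap_self, RingHom.id_apply]
        have e2 : c 1 * (-c 2 / r) + c 2 = 0 := by rw [e1]; field_simp; ring
        have e3 := congrArg (Polynomial.C : ℂ →+* ℂ[X]) e0
        have e4 := congrArg (Polynomial.C : ℂ →+* ℂ[X]) e2
        simp only [map_add, map_mul, map_zero] at e3 e4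
        linear_combination e3 + Polynomial.X * e4
      rw [hz, zero_mul] at h9
      generalize -c 2 / r = s at h9
      have h10 : (Polynomial.X : ℂ[X]) ^ 3 * (2 * Polynomial.C s + Polynomial.X
          + Polynomial.X ^ 2 * (4 * Polynomial.C s ^ 3 - 4 * Polynomial.C s
            + Polynomial.X * (Polynomial.C s ^ 4 - 2)
            + Polynomial.X ^ 2 * (2 * Polynomial.C s ^ 5 - 4 * Polynomial.C s ^ 3
              + 2 * Polynomial.C s) + Polynomial.X ^ 3 * (Polynomial.C s ^ 2 - 1) ^ 4)) = 0 := by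
        linear_combination -h9
      have h11 := congrArg (fun p => p.coeff 1)
        ((mul_eq_zero.mp h10).resolve_left (pow_ne_zero 3 Polynomial.X_ne_zero))
      simp only [Polynomial.coeff_add, Polynomial.coeff_X_pow_mul', Polynomial.coeff_ofNat_mul,
        Polynomial.coeff_C, Polynomial.coeff_X_one] at h11
      simp at h11
  · exfalso
    obtain ⟨a, rfl⟩ := Nat.exists_eq_add_of_le ha
    have h0 : ∀ P : MvPolynomial (Fin 4) ℂ,
        (MvPolynomial.aeval ![1, Polynomial.C Polynomial.X, Polynomial.X, 0] P : ℂ[X][X]).coeff 0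
          = MvPolynomial.aeval ![1, Polynomial.X, 0, 0] P := by
      intro P
      induction P using MvPolynomial.induction_on with
      | C c => simp [Polynomial.algebraMap_apply]
      | add p q hp hq => simp only [map_add, Polynomial.coeff_add, hp, hq]
      | mul_X p i hp =>
        simp only [map_mul, Polynomial.mul_coeff_zero, hp, MvPolynomial.aeval_X]
        fin_cases i <;> simp
    have h9 := phi_plane (Polynomial.C Polynomial.X : ℂ[X][X]) Polynomial.X
    rw [h, map_mul] at h9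
    rw [← h0] at hA hB
    generalize (MvPolynomial.aeval ![1, Polynomial.C Polynomial.X, Polynomial.X, 0] A : ℂ[X][X])
      = U at h9 hA
    generalize (MvPolynomial.aeval ![1, Polynomial.C Polynomial.X, Polynomial.X, 0] B : ℂ[X][X])
      = V at h9 hB
    obtain ⟨G, H, h10⟩ : ∃ (G : ℂ[X]) (H : ℂ[X][X]), U * V = Polynomial.C (Polynomial.X ^ 8)
        + Polynomial.C (2 * Polynomial.X + Polynomial.X ^ 2 * G) * Polynomial.X ^ 2
        + Polynomial.X ^ 3 * H := by
      refine ⟨4 * Polynomial.X + Polynomial.X ^ 2 + 2 * Polynomial.X ^ 3 - 4 * Polynomial.X ^ 4,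
        (1 - 4 * Polynomial.C Polynomial.X - 4 * Polynomial.C Polynomial.X ^ 3
          + 6 * Polynomial.C Polynomial.X ^ 4) * Polynomial.X + (2 * Polynomial.C Polynomial.X
          - 2 - 4 * Polynomial.C Polynomial.X ^ 2) * Polynomial.X ^ 3 + Polynomial.X ^ 5, ?_⟩
      rw [h9]
      simp only [map_add, map_sub, map_mul, map_pow, map_ofNat]
      ring
    have e1 := congrArg (fun p => p.coeff 1) h10
    have e2 := congrArg (fun p => p.coeff 2) h10
    simp only [Polynomial.coeff_add, Polynomial.coeff_X_pow_mul', Polynomial.coeff_C_mul_X_pow,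
      Polynomial.coeff_C] at e1 e2
    simp only [Polynomial.coeff_mul, Finset.Nat.antidiagonal_succ, Finset.Nat.antidiagonal_zero,
      Finset.sum_cons, Finset.map_cons, Finset.map_singleton, Finset.sum_singleton,
      Function.Embedding.prodMap, Function.Embedding.coeFn_mk, Prod.map] at e1 e2
    simp at e1 e2
    have e3 : Polynomial.C r * Polynomial.C r * V.coeff 1
        = -(Polynomial.X ^ (2 * e) * U.coeff 1) := by
      refine mul_left_cancel₀ (pow_ne_zero (2 + a) Polynomial.X_ne_zero) ?_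
      rw [hA] at e1
      rw [pow_add] at hB
      linear_combination Polynomial.C r * e1 - U.coeff 1 * hB
    have e4 : (Polynomial.X ^ e * U.coeff 1) ^ 2 = -(Polynomial.C r ^ 2 * 2) * Polynomial.X
        + Polynomial.X ^ 2 * (Polynomial.C r ^ 3 * Polynomial.X ^ a * V.coeff 2
          + Polynomial.C r * Polynomial.X ^ (a + 2 * e) * U.coeff 2 - Polynomial.C r ^ 2 * G) := by
      rw [hA] at e2
      linear_combination U.coeff 1 * e3 - Polynomial.C r ^ 2 * e2
        + Polynomial.C r * U.coeff 2 * hB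
    generalize Polynomial.X ^ e * U.coeff 1 = S at e4
    have e5 := congrArg (fun p => p.coeff 0) e4
    have e6 := congrArg (fun p => p.coeff 1) e4
    simp only [Polynomial.coeff_add, Polynomial.coeff_X_pow_mul', Polynomial.coeff_mul_X,
      Polynomial.mul_coeff_zero, Polynomial.coeff_X_zero, pow_two S] at e5 e6
    simp [Polynomial.coeff_mul] at e5
    simp [Polynomial.coeff_mul, Finset.Nat.antidiagonal_succ, e5] at e6
    rw [← Polynomial.C_pow, Polynomial.coeff_C_zero] at e6
    exact pow_ne_zero 2 hr e6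

lemma irreducible_Phi : Irreducible (Phi 0 0 1) := by
  refine ⟨fun h => ?_, fun A B h => ?_⟩
  · have h1 := (homog_Phi 0 0 1).totalDegree (Phi_ne_zero 0 0 1)
    rw [(MvPolynomial.isUnit_iff_totalDegree_of_isReduced.mp h).2] at h1
    omega
  have h8 := phi_plane (Polynomial.X : Polynomial ℂ) 0
  rw [h, map_mul] at h8
  have h9 : aeval ![1, Polynomial.X, 0, 0] A * aeval ![1, Polynomial.X, 0, 0] B
      = (Polynomial.X : Polynomial ℂ) ^ 8 := by linear_combination h8
  obtain ⟨a, ha, u, hu⟩ := (dvd_prime_pow Polynomial.prime_X 8).mp (Dvd.intro _ h9)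
  obtain ⟨r, hr, hru⟩ := Polynomial.isUnit_iff.mp u.isUnit
  have hr0 : r ≠ 0 := hr.ne_zero
  rw [← hru] at hu
  have hC : (Polynomial.C r⁻¹ * Polynomial.C r : Polynomial ℂ) = 1 := by
    rw [← map_mul, inv_mul_cancel₀ hr0, map_one]
  rcases le_total a 4 with h4 | h4
  · refine Or.inl (key h (a := a) (e := 4 - a) (inv_ne_zero hr0) (by omega) ?_)
    linear_combination Polynomial.C r⁻¹ * hu - aeval ![1, Polynomial.X, 0, 0] A * hC
  · refine Or.inr (key (h.trans (mul_comm _ _)) (a := 8 - a) (e := a - 4) hr0 (by omega) ?_)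
    refine mul_left_cancel₀ (pow_ne_zero a Polynomial.X_ne_zero) ?_
    rw [mul_left_comm, ← pow_add, show a + (8 - a) = 8 by omega]
    linear_combination Polynomial.C r * h9 - aeval ![1, Polynomial.X, 0, 0] B * hu

lemma octic_eq (g : Fin 6 → ℂ) (la mu : ℂ) :
    octic g la mu = zeroLocus ℂ (Ideal.span {Phi g la mu}) := by
  ext p
  rw [zeroLocus_span, mem_octic_iff]
  simp [aeval_eq_eval]

theorem isPrime_octic : (vanishingIdeal ℂ (octic 0 0 1)).IsPrime := by
  have h := (Ideal.span_singleton_prime irreducible_Phi.ne_zero).mpr irreducible_Phi.prime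
  rw [octic_eq, IsPrime.vanishingIdeal_zeroLocus]
  exact h

theorem exists_good : ∃ y : ℂ, ![1, y, 2, 0] ∈ octic 0 0 1 ∧ cayley 1 y 2 0 ≠ 0 := by
  have h := phi_plane (Polynomial.X : Polynomial ℂ) 2
  obtain ⟨y, hy⟩ := IsAlgClosed.exists_root (aeval ![1, Polynomial.X, 2, 0] (Phi 0 0 1) :
      Polynomial ℂ) (by
    rw [h]
    refine ne_of_eq_of_ne (b := 8) (by compute_degree!) (by norm_num))
  have h1 : aeval ![1, y, 2, 0] (Phi 0 0 1) = 0 := by
    rw [h] at hy
    rw [phi_plane]
    simpa using hy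
  refine ⟨y, mem_octic_iff.mpr h1, fun h2 => ?_⟩
  rw [phi_plane] at h1
  have h3 : y ^ 2 = 3 := by
    simp only [cayley] at h2
    linear_combination -h2 / 2
  have h4 : y ^ 4 = 9 := by linear_combination (y ^ 2 + 3) * h3
  have : (75 : ℂ) = 0 := by
    linear_combination -h1 + (y ^ 6 + 8 * y ^ 3 - 13 * y ^ 4 + 61 * y ^ 2 - 24 * y - 73) * h3
  norm_num at this

end

end Pool.Agent.P.MP_7ebcb6_ag.FD.NV
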