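import Pool.Agent.P.MP_7ebcb6_ag.FD.St

/-! Algebraic closures of subfields of the complex numbers. -/

namespace Pool.Agent.P.MP_7ebcb6_ag.FD

open Set

namespace Acl

theorem mem_acl {S : Set ℂ} {c : ℂ} : c ∈ acl S ↔ IsAlgebraic (Subfield.closure S) c :=
  mem_algebraicClosure_iff (F := Subfield.closure S) (x := c)

theorem isAlg_of_le {F L : Subfield ℂ} (h : F ≤ L) {c : ℂ} (hc : IsAlgebraic F c) :
    IsAlgebraic L c := by
  obtain ⟨p, hp, hpc⟩ := hc
  refine ⟨p.map (Subfield.inclusion h), Polynomial.map_ne_zero hp, ?_⟩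
  rw [Polynomial.aeval_def, Polynomial.eval₂_map]
  exact hpc

theorem mem_acl_union (L : Subfield ℂ) (T : Set ℂ) {c : ℂ} :
    c ∈ acl (L ∪ T) ↔ IsAlgebraic (Algebra.adjoin L T) c := by
  have e : Subfield.closure ((L : Set ℂ) ∪ T) = (IntermediateField.adjoin L T).toSubfield := by
    rw [IntermediateField.adjoin_toSubfield]
    congr 2
    exact Subtype.range_coe.symm
  rw [mem_acl, e, ← IntermediateField.isAlgebraic_adjoin_iff]
  rfl

end Acl

open Acl

theorem thm_Acl : S_Acl := by
  intro S
  refine ⟨fun c hc => mem_acl.2 (isAlgebraic_algebraMap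
    (⟨c, Subfield.subset_closure hc⟩ : Subfield.closure S)), ?_, fun hS => ?_, fun L hL hS c hc => ?_⟩
  · exact IsAlgClosure.isAlgClosed (R := Subfield.closure S)
      (K := algebraicClosure (Subfield.closure S) ℂ)
  · rw [← Cardinal.le_aleph0_iff_set_countable] at hS ⊢
    exact (Algebra.IsAlgebraic.cardinalMk_le_max (Subfield.closure S)
      (algebraicClosure (Subfield.closure S) ℂ)).trans (max_le
        ((Subfield.cardinalMk_closure_le_max S).trans (max_le hS le_rfl)) le_rfl)
  · have h0 : Subfield.closure S ≤ L := Subfield.closure_le.2 hS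
    have h2 : IsAlgebraic (Subfield.closure S) c := mem_acl.1 hc
    have h1 : c ∈ algebraicClosure L ℂ :=
      (mem_algebraicClosure_iff (F := L) (x := c)).2 (isAlg_of_le h0 h2)
    rw [IntermediateField.eq_bot_of_isAlgClosed_of_isAlgebraic (algebraicClosure L ℂ)] at h1
    obtain ⟨y, rfl⟩ := IntermediateField.mem_bot.1 h1
    exact y.2

theorem thm_Snoc : S_Snoc := by
  intro L g τ c hτ hc
  rw [mem_acl_union] at hc
  have h := (hτ.option_iff_transcendental c).2 hc
  have h2 := h.comp _ (finSuccEquivLast (n := g)).injective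
  convert h2 using 1
  funext i
  refine Fin.lastCases ?_ (fun j => ?_) i <;> simp

theorem thm_Exch : S_Exch := by
  intro L g r τ ρ hτ h
  let M := AlgebraicIndependent.matroid L ℂ
  have hI : M.Indep (range τ) := AlgebraicIndependent.matroid_indep_iff.mpr hτ.to_subtype_range
  have hsub : range τ ⊆ M.closure (range ρ) := by
    rw [AlgebraicIndependent.matroid_closure_eq]
    rintro _ ⟨i, rfl⟩
    exact (mem_acl_union L _).1 (h i)
  have h1 : (range τ).encard = g := by
    rw [← image_univ, hτ.injective.encard_image, encard_univ]; simp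
  have h3 : (range ρ).encard ≤ r := by
    rw [← image_univ]
    exact (encard_image_le _ _).trans (by rw [encard_univ]; simp)
  have h2 : (g : ℕ∞) ≤ r := by
    rw [← h1, ← hI.eRk_eq_encard]
    exact (M.eRk_mono hsub).trans ((M.eRk_closure_eq _).le.trans
      ((M.eRk_le_encard _).trans h3))
  exact_mod_cast h2

end Pool.Agent.P.MP_7ebcb6_ag.FD
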