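import Pool.Agent.P.MP_7ebcb6_ag.Defs

/-!
Symmetric products with their Zariski topology, and finite-dimensionality of the group of
zero-cycles modulo rational equivalence.
-/

open scoped LinearAlgebra.Projectivization
open MvPolynomial TopologicalSpace

namespace Pool.Agent.P.MP_7ebcb6_ag.FD

noncomputable section

variable {n : ℕ}

/-- The effective zero-cycle `x₁ + … + xₘ`. -/
def cyc {α : Type} {m : ℕ} (x : Fin m → α) : α →₀ ℤ := ∑ i, Finsupp.single (x i) 1

/-- The Zariski topology on `Xᵐ ⊆ (ℙⁿ)ᵐ`: the sets where a multihomogeneous polynomial does not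
vanish generate the open sets. -/
@[reducible] def zariski (X : Set (ℙ ℂ (Fin (n + 1) → ℂ))) (m : ℕ) : TopologicalSpace (Fin m → X) :=
  generateFrom {U | ∃ (P : MvPolynomial (Fin m × Fin (n + 1)) ℂ) (d : Fin m → ℕ),
    IsWeightedHomogeneous (fun v => Pi.single v.1 1) P d ∧
      U = {x | eval (fun v => (x v.1).1.rep v.2) P ≠ 0}}

/-- The symmetric product `Sᵐ(X)`: effective zero-cycles of degree `m` on `X`. -/
def SymPow (X : Set (ℙ ℂ (Fin (n + 1) → ℂ))) (m : ℕ) : Type :=
  Set.range (cyc : (Fin m → X) → X →₀ ℤ)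

/-- The Zariski topology of `Sᵐ(X) = Xᵐ / 𝔖ₘ` is the quotient topology. -/
instance (X : Set (ℙ ℂ (Fin (n + 1) → ℂ))) (m : ℕ) : TopologicalSpace (SymPow X m) :=
  (zariski X m).coinduced (Set.rangeFactorization cyc)

/-- The largest dimension of an irreducible closed set contained in `F`. -/
def maxDim {T : Type} [TopologicalSpace T] (F : Set T) : WithBot ℕ∞ :=
  ⨆ (Z : IrreducibleCloseds T) (_ : (Z : Set T) ⊆ F), topologicalKrullDim Z

/-- The numbers `dₘ = dim Sᵐ(X) - min {dim F : F a fibre of Sᵐ(X) → B(X)}` are bounded. -/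
def FinDim (X : Set (ℙ ℂ (Fin (n + 1) → ℂ))) : Prop :=
  ∃ c : ℕ, ∀ (m : ℕ) (s : SymPow X m), ∃ a b : ℕ, topologicalKrullDim (SymPow X m) = a ∧
    maxDim {t : SymPow X m | t.1 - s.1 ∈ ratTrivial X} = b ∧ a ≤ b + c

/-- `X = S¹(X)` is irreducible of dimension two. -/
def IsSurface (X : Set (ℙ ℂ (Fin (n + 1) → ℂ))) : Prop :=
  IrreducibleSpace (SymPow X 1) ∧ topologicalKrullDim (SymPow X 1) = 2

end

end Pool.Agent.P.MP_7ebcb6_ag.FD
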