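import Pool.Agent.P.MP_7ebcb6_ag.FD.St

/-! A large irreducible family inside each fibre of the map to the Chow group. -/

open scoped LinearAlgebra.Projectivization WithZero
open MvPolynomial TopologicalSpace Finsupp
open Pool.Agent.P.MP_68ca4e_ag.M (td)

namespace Pool.Agent.P.MP_7ebcb6_ag.FD

namespace Fib

variable {n : ℕ}

lemma td_top {ι : Type} : td (⊤ : Ideal (MvPolynomial ι ℂ)) = 0 := by
  have : Subsingleton (MvPolynomial ι ℂ ⧸ (⊤ : Ideal (MvPolynomial ι ℂ))) :=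
    Ideal.Quotient.subsingleton_iff.2 rfl
  rw [td, trdeg_eq_zero_of_not_injective fun h => zero_ne_one (h (Subsingleton.elim _ _))]
  exact map_zero _

lemma degree_cyc {α : Type} {m : ℕ} (x : Fin m → α) : (cyc x).degree = m := by
  simp [cyc, map_sum]

lemma cyc_append {α : Type} {m k : ℕ} (x : Fin m → α) (y : Fin k → α) :
    cyc (Fin.append x y) = cyc x + cyc y := by
  simp [cyc, Fin.sum_univ_add]

lemma mapDomain_cyc {α : Type} {m : ℕ} (s : α → α) (x : Fin m → α) :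
    mapDomain s (cyc x) = cyc fun i => s (x i) := by
  simp [cyc, mapDomain_finsetSum]

lemma eval_map' {ι : Type} {L : Subfield ℂ} (a : ι → ℂ) (P : MvPolynomial ι L) :
    aeval a (map (algebraMap L ℂ) P) = aeval a P := aeval_map_algebraMap ℂ a P

lemma aeval_rep {L : Subfield ℂ} {P : MvPolynomial (Fin (n + 1)) L} {d : ℕ}
    (hP : P.IsHomogeneous d) {r : Fin (n + 1) → ℂ} (h : r ≠ 0) :
    aeval (Projectivization.mk ℂ r h).rep P = 0 ↔ aeval r P = 0 := by
  obtain ⟨c, hc⟩ := Projectivization.exists_smul_eq_mk_rep ℂ r h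
  have e : (Projectivization.mk ℂ r h).rep = fun i => (c : ℂ) * r i := by
    rw [← hc]; rfl
  rw [e, ← eval_map', ← eval_map' r, aeval_smul_homog (hP.map _)]
  exact mul_eq_zero_iff_left (pow_ne_zero _ c.ne_zero)

lemma exists_chart (hTop : S_Top) (X : Set (PP n)) {m : ℕ} (x : Fin m → X) :
    ∃ (j : Fin m → Fin (n + 1)) (a : Fin m × Fin (n + 1) → ℂ),
      (∀ i, a (i, j i) = 1) ∧ Rep Prod.mk a x := by
  have h : ∀ i, ∃ b, (x i).1.rep b ≠ 0 := fun i => Function.ne_iff.1 (x i).1.rep_nonzero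
  choose j hj using h
  exact ⟨j, ((hTop n X m).2.2.2.2.1 j x).1 hj⟩

lemma exists_top (hTop : S_Top) {X : Set (PP n)} (hI : Irr X) :
    ∃ a, (W (fun _ => a) (Set.univ : Set (Fin 1 → X))).Nonempty ∧ dimX X ≤ td (I1 X a) := by
  obtain ⟨a₀, -, h₀⟩ := Finset.exists_mem_eq_sup Finset.univ Finset.univ_nonempty
    fun a => td (I1 X a)
  rcases (W (fun _ => a₀) (Set.univ : Set (Fin 1 → X))).eq_empty_or_nonempty with h | h
  · obtain ⟨x, -⟩ := hI.nonempty
    obtain ⟨j, a, h1, h2⟩ := exists_chart hTop X x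
    refine ⟨j 0, ⟨a, fun i => ?_, x, trivial, h2⟩, ?_⟩
    · rw [Subsingleton.elim i 0]; exact h1 0
    · rw [dimX, h₀, I1, h, vanishingIdeal_empty, td_top]
      exact Nat.zero_le _
  · exact ⟨a₀, h, h₀.le⟩

/-- The zero set of the ideal of `ζ` over `L` consists of coordinates of points of `X`. -/
lemma zero_sub {X : Set (PP n)} {L : Subfield ℂ} (hL : DefX L X) {m : ℕ}
    {j : Fin m → Fin (n + 1)} {ζ : Fin m × Fin (n + 1) → ℂ} {y : Fin m → X}
    (h1 : ∀ i, ζ (i, j i) = 1) (hy : Rep Prod.mk ζ y)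
    {𝔮 : Ideal (MvPolynomial (Fin m × Fin (n + 1)) ℂ)}
    (hq : ∀ P : MvPolynomial (Fin m × Fin (n + 1)) L, aeval ζ P = 0 → map (algebraMap L ℂ) P ∈ 𝔮) :
    zeroLocus ℂ 𝔮 ⊆ W j (Set.univ : Set (Fin m → X)) := by
  intro a ha
  have key : ∀ P : MvPolynomial (Fin m × Fin (n + 1)) L, aeval ζ P = 0 → aeval a P = 0 :=
    fun P hP => (eval_map' a P).symm.trans (ha _ (hq P hP))
  have ha1 : ∀ i, a (i, j i) = 1 := fun i => by
    have := key (MvPolynomial.X (i, j i) - 1) (by simp [h1 i])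
    simpa [sub_eq_zero] using this
  have hne : ∀ i, (fun b => a (i, b)) ≠ 0 := fun i e =>
    one_ne_zero ((ha1 i).symm.trans (congrFun e (j i)))
  refine ⟨ha1, fun i => ⟨Projectivization.mk ℂ _ (hne i), hL _ fun P d hP hX => ?_⟩, trivial,
    fun i => ⟨hne i, rfl⟩⟩
  obtain ⟨h, e⟩ := hy i
  have h2 := hX _ (y i).2
  rw [e, aeval_rep hP] at h2
  have h3 := key (rename (Prod.mk i) P) (by rw [aeval_rename]; exact h2)
  rw [aeval_rename] at h3
  rw [aeval_rep hP]
  exact h3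

end Fib

open Fib in
theorem thm_Fib (hAcl : S_Acl) (hAut : S_Aut) (hAct : S_Act) (hTop : S_Top) (hT2 : S_T2)
    (hInd : S_IndX) (hGen : S_GenZ) (hFam : S_Fam) : S_Fib := by
  intro n X hX hI G E₀ hE m x
  obtain ⟨a, ha, hd⟩ := exists_top hTop hI
  have hp : (I1 X a).IsPrime := (hT2 n X hX 1 fun _ => a).2.1 _ hI ha
  have hz : zeroLocus ℂ (I1 X a) = W (fun _ => a) (Set.univ : Set (Fin 1 → X)) :=
    (hT2 n X hX 1 fun _ => a).1 _ isClosed_univ
  obtain ⟨TX, hTX, hdef⟩ := ((hAct n).2.2 X).2.2 hX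
  choose T hT hfix using fun i => (hAct n).2.1 (x i).1
  obtain ⟨hsub, -, hc, -⟩ := hAcl (TX ∪ ⋃ i, T i)
  have hLc := hc (hTX.union (Set.countable_iUnion fun i => (hT i).countable))
  generalize acl (TX ∪ ⋃ i, T i) = L at hsub hLc
  have hL : DefX L X := hdef L (Set.subset_union_left.trans hsub)
  obtain ⟨b, ξ, hξ, hind⟩ := hInd _ (I1 X a) hp L hLc m
  rw [hz] at hξ
  choose p hp0 hp1 using fun i => (hξ i).2
  obtain ⟨E, hD⟩ := hE (cyc x - cyc (fun i => p i 0) - cyc E₀) (by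
    rw [map_sub, map_sub, degree_cyc, degree_cyc, degree_cyc]; push_cast; ring)
  obtain ⟨jE, ε, hε1, hε⟩ := exists_chart hTop X E
  let y₀ : Fin (m + G) → X := Fin.append (fun i => p i 0) E
  let j : Fin (m + G) → Fin (n + 1) := Fin.append (fun _ => a) jE
  let ζ : Fin (m + G) × Fin (n + 1) → ℂ := fun v =>
    Fin.append (fun i b => ξ i (0, b)) (fun i b => ε (i, b)) v.1 v.2
  have h1 : ∀ i, ζ (i, j i) = 1 := fun i => by
    refine Fin.addCases (fun i => ?_) (fun i => ?_) i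
    · simp only [ζ, j, Fin.append_left]; exact (hξ i).1 0
    · simp only [ζ, j, Fin.append_right]; exact hε1 i
  have hy : Rep Prod.mk ζ y₀ := fun i => by
    refine Fin.addCases (fun i => ?_) (fun i => ?_) i
    · simp only [ζ, y₀, Fin.append_left]; exact hp1 i 0
    · simp only [ζ, y₀, Fin.append_right]; exact hε i
  have hrat : cyc y₀ - cyc x ∈ ratTrivial X := by
    have := (ratTrivial X).neg_mem hD
    rw [cyc_append]
    convert this using 1
    abel
  obtain ⟨𝔮, hq, htd, hP⟩ := hGen _ (Fin m × Fin (td (I1 X a))) L ζ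
    (fun c => (Fin.castAdd G c.1, (b c.2).2)) (by
      convert hind using 2 with c
      simp only [ζ, Fin.append_left]
      congr 1
      exact Prod.ext (Subsingleton.elim _ _) rfl)
  have hW := zero_sub hL h1 hy fun P h => (hP P).1 h
  refine ⟨j, 𝔮, hq, ?_, hW, fun a' ha' y hy' => ?_⟩
  · rw [Fintype.card_prod, Fintype.card_fin, Fintype.card_fin, mul_comm] at htd
    exact (Nat.mul_le_mul_right m hd).trans htd
  refine QuotientAddGroup.eq_iff_sub_mem.1 ?_
  refine hFam n X hX _ (m + G) Prod.mk 𝔮 hq (fun a ha => let ⟨z, _, h⟩ := (hW ha).2; ⟨z, h⟩) L hLc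
    _ (QuotientAddGroup.mk' (ratTrivial X)) (fun D h => (QuotientAddGroup.eq_zero_iff D).2 h)
    (QuotientAddGroup.mk (cyc x)) (fun c z hc hz => ?_) a' ha' y hy'
  obtain ⟨σ, hσ, hσ'⟩ := hAut _ L hLc ζ c fun P =>
    ⟨fun h => (eval_map' c P).symm.trans (hc.1 _ ((hP P).1 h)), fun h => (hP P).2 (hc.2 P h)⟩
  obtain ⟨s, hs⟩ := ((hAct n).2.2 X).1 L σ hL hσ
  have h2 := ((hAct n).2.2 X).2.1 σ s hs _ hrat
  have e1 : (fun i => s (y₀ i)) = z := funext fun i => Subtype.ext (by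
    obtain ⟨h, e⟩ := hy i
    obtain ⟨h', e'⟩ := hz i
    have e2 : (fun b => σ (ζ (i, b))) = fun b => c (i, b) := funext fun b => hσ' _
    rw [hs, e, e', (hAct n).1 σ _ h (e2 ▸ h')]
    congr 1)
  have e2 : (fun i => s (x i)) = x := funext fun i => Subtype.ext (by
    rw [hs]
    exact hfix i σ fun t ht => hσ t (hsub (Or.inr (Set.mem_iUnion.2 ⟨i, ht⟩))))
  rw [mapDomain_sub, mapDomain_cyc, mapDomain_cyc, e1, e2] at h2
  exact QuotientAddGroup.eq_iff_sub_mem.2 h2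

end Pool.Agent.P.MP_7ebcb6_ag.FD
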