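import Pool.Agent.P.MP_7ebcb6_ag.FD.Defs
import Pool.Agent.P.MP_7ebcb6_ag.Select
import Pool.Agent.P.MP_7ebcb6_ag.Cycle
import Pool.Agent.P.MP_68ca4e_ag.M.FF2
import Pool.Agent.P.MP_68ca4e_ag.M.Dim

/-! Auxiliary definitions and the statements of the steps towards finite-dimensionality. -/

open scoped LinearAlgebra.Projectivization WithZero
open MvPolynomial TopologicalSpace WithZero Finsupp
open Pool.Agent.P.MP_68ca4e_ag.M (td)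

namespace Pool.Agent.P.MP_7ebcb6_ag.FD

noncomputable section

/-- Projective space. -/
abbrev PP (n : ℕ) : Type := ℙ ℂ (Fin (n + 1) → ℂ)

instance instZar {n : ℕ} (X : Set (PP n)) (m : ℕ) : TopologicalSpace (Fin m → X) := zariski X m

/-! ### Subfields of the complex numbers -/

/-- The algebraic closure in `ℂ` of the field generated by `S`. -/
def acl (S : Set ℂ) : Subfield ℂ := (algebraicClosure (Subfield.closure S) ℂ).toSubfield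

/-- `σ` fixes `T` pointwise. -/
def Fixes (σ : ℂ ≃+* ℂ) (T : Set ℂ) : Prop := ∀ c ∈ T, σ c = c

def S_Acl : Prop := ∀ S : Set ℂ, S ⊆ acl S ∧ IsAlgClosed (acl S) ∧
  (S.Countable → (acl S : Set ℂ).Countable) ∧
  (∀ L : Subfield ℂ, IsAlgClosed L → S ⊆ L → acl S ≤ L)

def S_Snoc : Prop := ∀ (L : Subfield ℂ) (g : ℕ) (τ : Fin g → ℂ) (c : ℂ), AlgebraicIndependent L τ →
  c ∉ acl (L ∪ Set.range τ) → AlgebraicIndependent L (Fin.snoc τ c : Fin (g + 1) → ℂ)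

def S_Exch : Prop := ∀ (L : Subfield ℂ) (g r : ℕ) (τ : Fin g → ℂ) (ρ : Fin r → ℂ),
  AlgebraicIndependent L τ → (∀ i, τ i ∈ acl (L ∪ Set.range ρ)) → g ≤ r

def S_Aut : Prop := ∀ (ι : Type) [Finite ι] (L : Subfield ℂ), (L : Set ℂ).Countable →
  ∀ a b : ι → ℂ, (∀ P : MvPolynomial ι L, aeval a P = 0 ↔ aeval b P = 0) →
    ∃ σ : ℂ ≃+* ℂ, Fixes σ L ∧ ∀ i, σ (a i) = b i

/-! ### Function fields -/

/-- The places of `K`. -/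
abbrev Pl (K : Type) [Field K] [Algebra ℂ K] : Type := {v : Valuation K ℤᵐ⁰ // IsPlace v}

section curve

variable {K : Type} [Field K] [Algebra ℂ K]

instance (v : Pl K) : v.1.IsTrivialOn ℂ := ⟨v.2.2⟩

/-- Linear equivalence of divisors. -/
def LinEq (D E : Pl K →₀ ℤ) : Prop := ∃ f : K, f ≠ 0 ∧ ∀ v : Pl K, D v - E v = ord v.1 f

/-- The Riemann-Roch space of `D` contains only constants. -/
def Rigid (D : Pl K →₀ ℤ) : Prop :=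
  ∀ h : K, (∀ v : Pl K, v.1 h ≤ exp (D v)) → ∃ c : ℂ, h = algebraMap ℂ K c

/-- The value of `t` at `v` is finite and not in `L`. -/
def GenPl (L : Subfield ℂ) (t : K) (v : Pl K) : Prop := ∃ τ : ℂ, τ ∉ L ∧ Tends v.1 t τ

/-- The field `L(t)` inside `K`. -/
def fld (L : Subfield ℂ) (t : K) : Subfield K :=
  Subfield.closure (insert t (algebraMap ℂ K '' L))

/-- `K` is generated by `ℂ` and the elements that are algebraic over `L(t)`. -/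
def DefK (L : Subfield ℂ) (t : K) : Prop :=
  Subfield.closure (Set.range (algebraMap ℂ K) ∪ {a | IsAlgebraic (fld L t) a}) = ⊤

/-- A derivation of `K` that kills `L` and `t` and maps `ℂ` to `ℂ`. -/
structure IsDer (L : Subfield ℂ) (t : K) (δ : K →+ K) : Prop where
  leib : ∀ a b, δ (a * b) = a * δ b + b * δ a
  var : δ t = 0
  base : ∀ c ∈ L, δ (algebraMap ℂ K c) = 0
  const : ∀ c : ℂ, ∃ c' : ℂ, δ (algebraMap ℂ K c) = algebraMap ℂ K c'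

lemma fld_mono {L L' : Subfield ℂ} (h : L ≤ L') (t : K) : fld L t ≤ fld L' t :=
  Subfield.closure_mono (Set.insert_subset_insert (Set.image_mono h))

lemma alg_mono {L L' : Subfield ℂ} (h : L ≤ L') {t a : K} (ha : IsAlgebraic (fld L t) a) :
    IsAlgebraic (fld L' t) a :=
  ha.ringHom_of_comp_eq (Subfield.inclusion (fld_mono h t)) (RingHom.id K)
    (Subfield.inclusion (fld_mono h t)).injective (by ext; rfl)

lemma DefK.mono {L L' : Subfield ℂ} (h : L ≤ L') {t : K} (hK : DefK L t) : DefK L' t :=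
  eq_top_iff.mpr (hK.ge.trans (Subfield.closure_mono
    (Set.union_subset_union_right _ fun _ ha => alg_mono h ha)))

lemma GenPl.anti {L L' : Subfield ℂ} (h : L ≤ L') {t : K} {v : Pl K} (hv : GenPl L' t v) :
    GenPl L t v := let ⟨τ, h1, h2⟩ := hv; ⟨τ, fun h' => h1 (h h'), h2⟩

end curve

def S_Div : Prop := ∀ (K : Type) [Field K] [Algebra ℂ K], IsCurveField K →
  (∀ f : K, f ≠ 0 → ∃ D : Pl K →₀ ℤ, D.degree = 0 ∧ ∀ v, D v = ord v.1 f) ∧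
  (∀ D E : Pl K →₀ ℤ, LinEq D E → D.degree = E.degree)

def S_Count : Prop := ∀ (K : Type) [Field K] [Algebra ℂ K], IsCurveField K →
  (∀ T : Set (Pl K), T.Countable → ∃ v, v ∉ T) ∧
  (∀ a : K, a ≠ 0 → {v : Pl K | v.1 a ≠ 1}.Finite) ∧
  ∀ t : K, Transcendental ℂ t → (∃ v : Pl K, 1 < v.1 t) ∧
    ∀ L : Subfield ℂ, (L : Set ℂ).Countable → {v : Pl K | ¬ GenPl L t v}.Countable

def S_Mov : Prop := ∀ (K : Type) [Field K] [Algebra ℂ K], IsCurveField K →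
  ∀ (M : Type) [AddCommGroup M] (Φ : (Pl K →₀ ℤ) →+ M), (∀ D E, LinEq D E → Φ D = Φ E) →
    ∀ T : Set (Pl K), T.Countable → ∀ β : M, (∀ v, v ∉ T → Φ (single v 1) = β) →
      ∀ v, Φ (single v 1) = β

def S_Rie : Prop := ∀ (K : Type) [Field K] [Algebra ℂ K], IsCurveField K →
  Rigid (0 : Pl K →₀ ℤ) ∧ ∃ g : ℕ,
    (∀ D : Pl K →₀ ℤ, D.degree = g → ∃ E : Fin g → Pl K, LinEq D (cyc E)) ∧
    ∀ D : Pl K →₀ ℤ, 0 ≤ D → D.degree < g → Rigid D → {P | ¬ Rigid (D + single P 1)}.Finite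

def S_Der : Prop := ∀ (K : Type) [Field K] [Algebra ℂ K] (L : Subfield ℂ), IsAlgClosed L →
  ∀ t : K, Transcendental ℂ t → ∀ τ : ℂ, τ ∉ L →
    ∃ δ : K →+ K, IsDer L t δ ∧ δ (algebraMap ℂ K τ) = 1

def S_Res : Prop := ∀ (K : Type) [Field K] [Algebra ℂ K], IsCurveField K →
  ∀ L : Subfield ℂ, IsAlgClosed L → ∀ t : K, Transcendental ℂ t → ∀ (v : Pl K) (a : K),
    IsAlgebraic (fld L t) a →
    (GenPl L t v → a ≠ 0 → v.1 a = 1) ∧ (¬ GenPl L t v → ∀ c, Tends v.1 a c → c ∈ L)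

def S_Loc : Prop := ∀ (K : Type) [Field K] [Algebra ℂ K], IsCurveField K →
  ∀ L : Subfield ℂ, IsAlgClosed L → ∀ t : K, Transcendental ℂ t → DefK L t →
    ∀ δ : K →+ K, IsDer L t δ → ∀ v : Pl K, (∀ z, v.1 z ≤ 1 → v.1 (δ z) ≤ 1) ∧
      (¬ GenPl L t v → ∃ π, v.1 π = exp (-1) ∧ δ π = 0) ∧
      ∀ τ : ℂ, τ ∉ L → Tends v.1 t τ → v.1 (t - algebraMap ℂ K τ) = exp (-1)

def S_Key : Prop := ∀ (K : Type) [Field K] [Algebra ℂ K], IsCurveField K →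
  ∀ L : Subfield ℂ, IsAlgClosed L → ∀ t : K, Transcendental ℂ t → DefK L t →
    ∀ f : K, f ≠ 0 → ∀ v₀ : Pl K, GenPl L t v₀ → ord v₀.1 f ≠ 0 →
      ∃ h : K, 1 < v₀.1 h ∧ ∀ v : Pl K, v.1 h ≤ exp 1 ∧
        (¬ GenPl L t v ∨ ord v.1 f = 0 → v.1 h ≤ 1)

def S_DefK : Prop := ∀ (K : Type) [Field K] [Algebra ℂ K], IsCurveField K →
  ∀ t : K, Transcendental ℂ t → ∀ Y : Set K, Y.Finite → ∀ T : Set ℂ, T.Countable →
    ∃ L : Subfield ℂ, (L : Set ℂ).Countable ∧ IsAlgClosed L ∧ T ⊆ L ∧ DefK L t ∧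
      ∀ y ∈ Y, IsAlgebraic (fld L t) y

def S_GenR : Prop := ∀ (K : Type) [Field K] [Algebra ℂ K], IsCurveField K →
  ∀ L : Subfield ℂ, (L : Set ℂ).Countable → IsAlgClosed L → ∀ t : K, Transcendental ℂ t →
    DefK L t → ∀ k : ℕ, 0 < k →
      ∃ (L' : Subfield ℂ) (R : Pl K) (D₁ D₂ : Pl K →₀ ℤ), (L' : Set ℂ).Countable ∧
        IsAlgClosed L' ∧ L ≤ L' ∧ GenPl L' t R ∧ (∀ v ∈ D₁.support, ¬ GenPl L' t v) ∧
        LinEq (single R 1 + D₁) (k • D₂)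

def S_PlAt : Prop := ∀ (K : Type) [Field K] [Algebra ℂ K], IsCurveField K →
  ∀ (ι : Type) (ψ : ι → K) (a : ι → ℂ), (∀ F : MvPolynomial ι ℂ, aeval ψ F = 0 → eval a F = 0) →
    ∃ v : Pl K, ∀ i, Tends v.1 (ψ i) (a i)

/-! ### Affine varieties -/

/-- `a` is a generic point over `L` of the zero set of `𝔮`. -/
def GenPt {ι : Type} (L : Subfield ℂ) (𝔮 : Ideal (MvPolynomial ι ℂ)) (a : ι → ℂ) : Prop :=
  a ∈ zeroLocus ℂ 𝔮 ∧ ∀ P : MvPolynomial ι L, aeval a P = 0 → map (algebraMap L ℂ) P ∈ 𝔮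

def S_Spec : Prop := ∀ (ι : Type) [Finite ι] (𝔮 : Ideal (MvPolynomial ι ℂ)), 𝔮.IsPrime →
  ∀ L : Subfield ℂ, (L : Set ℂ).Countable → ∀ ε ∈ zeroLocus ℂ 𝔮,
    ∃ (K : Type) (_ : Field K) (_ : Algebra ℂ K), IsCurveField K ∧
      ∃ (ψ : ι → K) (v₀ : Pl K) (T : Set (Pl K)), T.Countable ∧ (∀ F ∈ 𝔮, aeval ψ F = 0) ∧
        (∀ i, Tends v₀.1 (ψ i) (ε i)) ∧
        ∀ v, v ∉ T → ∃ a, GenPt L 𝔮 a ∧ ∀ i, Tends v.1 (ψ i) (a i)

def S_GenPt : Prop := ∀ (ι : Type) [Finite ι] (𝔮 : Ideal (MvPolynomial ι ℂ)), 𝔮.IsPrime →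
  ∀ L : Subfield ℂ, (L : Set ℂ).Countable → ∃ a, GenPt L 𝔮 a

def S_DefI : Prop := ∀ (ι : Type) [Finite ι] (I : Ideal (MvPolynomial ι ℂ)),
  ∃ T : Set ℂ, T.Countable ∧ ∀ σ : ℂ ≃+* ℂ, Fixes σ T →
    ∀ a ∈ zeroLocus ℂ I, (fun i => σ (a i)) ∈ zeroLocus ℂ I

def S_Low : Prop := ∀ (ι : Type) [Finite ι] (𝔮 : Ideal (MvPolynomial ι ℂ)), 𝔮.IsPrime →
  ∃ f : Fin (td 𝔮 + 1) → Ideal (MvPolynomial ι ℂ), StrictMono f ∧ (∀ i, (f i).IsPrime) ∧ f 0 = 𝔮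

def S_TdUp : Prop := ∀ (β : Type) [Finite β] (m e : ℕ) (𝔮 : Ideal (MvPolynomial (Fin m × β) ℂ)),
  𝔮.IsPrime → ∀ J : Fin m → Ideal (MvPolynomial (Fin 1 × β) ℂ),
    (∀ i, ∀ P ∈ J i, rename (fun v : Fin 1 × β => (i, v.2)) P ∈ 𝔮) → (∀ i, td (J i) ≤ e) →
      td 𝔮 ≤ e * m

def S_GenZ : Prop := ∀ (ι κ : Type) [Finite ι] [Fintype κ] (L : Subfield ℂ) (ζ : ι → ℂ)
  (b : κ → ι), AlgebraicIndependent L (fun c => ζ (b c)) →
    ∃ 𝔮 : Ideal (MvPolynomial ι ℂ), 𝔮.IsPrime ∧ Fintype.card κ ≤ td 𝔮 ∧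
      ∀ P : MvPolynomial ι L, aeval ζ P = 0 ↔ map (algebraMap L ℂ) P ∈ 𝔮

def S_IndX : Prop := ∀ (ι : Type) [Finite ι] (𝔭 : Ideal (MvPolynomial ι ℂ)), 𝔭.IsPrime →
  ∀ L : Subfield ℂ, (L : Set ℂ).Countable → ∀ m : ℕ,
    ∃ (b : Fin (td 𝔭) → ι) (ξ : Fin m → ι → ℂ), (∀ i, ξ i ∈ zeroLocus ℂ 𝔭) ∧
      AlgebraicIndependent L fun p : Fin m × Fin (td 𝔭) => ξ p.1 (b p.2)

/-! ### Points and cycles on a projective variety -/

variable {n : ℕ}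

/-- The action of a field automorphism on points. -/
def act (σ : ℂ ≃+* ℂ) (x : PP n) : PP n :=
  Projectivization.mk ℂ (fun i => σ (x.rep i)) fun h => x.rep_nonzero
    (funext fun i => σ.injective ((congrFun h i).trans (map_zero σ).symm))

/-- `s` is the restriction of the action of `σ` to `X`. -/
def IsAct {X : Set (PP n)} (σ : ℂ ≃+* ℂ) (s : X → X) : Prop := ∀ x, (s x).1 = act σ x.1

/-- `X` is cut out by forms with coefficients in `L`. -/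
def DefX (L : Subfield ℂ) (X : Set (PP n)) : Prop :=
  ∀ x : PP n, (∀ (P : MvPolynomial (Fin (n + 1)) L) (d : ℕ), P.IsHomogeneous d →
    (∀ z ∈ X, aeval z.rep P = 0) → aeval x.rep P = 0) → x ∈ X

/-- The blocks `e i` of the vector `a` are homogeneous coordinates of the points `x i`. -/
def Rep {X : Set (PP n)} {ι : Type} {m : ℕ} (e : Fin m → Fin (n + 1) → ι) (a : ι → ℂ)
    (x : Fin m → X) : Prop :=
  ∀ i, ∃ h : (fun b => a (e i b)) ≠ 0, (x i).1 = Projectivization.mk ℂ _ h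

/-- Multihomogeneous polynomials. -/
abbrev MH {m : ℕ} (P : MvPolynomial (Fin m × Fin (n + 1)) ℂ) (d : Fin m → ℕ) : Prop :=
  IsWeightedHomogeneous (fun v => Pi.single v.1 1) P d

/-- The value of a polynomial at the chosen coordinates of `x`. -/
abbrev ev {X : Set (PP n)} {m : ℕ} (x : Fin m → X) (P : MvPolynomial (Fin m × Fin (n + 1)) ℂ) : ℂ :=
  eval (fun v => (x v.1).1.rep v.2) P

/-- The affine coordinates in the chart `j` of the points of `Z`. -/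
def W {X : Set (PP n)} {m : ℕ} (j : Fin m → Fin (n + 1)) (Z : Set (Fin m → X)) :
    Set (Fin m × Fin (n + 1) → ℂ) :=
  {a | (∀ i, a (i, j i) = 1) ∧ ∃ x ∈ Z, Rep Prod.mk a x}

/-- The closure of the set of points with coordinates in the zero set of `𝔮`. -/
def cl (X : Set (PP n)) {m : ℕ} (𝔮 : Ideal (MvPolynomial (Fin m × Fin (n + 1)) ℂ)) :
    Set (Fin m → X) :=
  closure {x | ∃ a ∈ zeroLocus ℂ 𝔮, Rep Prod.mk a x}

/-- The ideal of `X` in the chart `a`. -/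
def I1 (X : Set (PP n)) (a : Fin (n + 1)) : Ideal (MvPolynomial (Fin 1 × Fin (n + 1)) ℂ) :=
  vanishingIdeal ℂ (W (fun _ => a) (Set.univ : Set (Fin 1 → X)))

/-- The dimension of `X`. -/
def dimX (X : Set (PP n)) : ℕ := Finset.univ.sup fun a => td (I1 X a)

/-- `X` is irreducible. -/
def Irr (X : Set (PP n)) : Prop := IsIrreducible (Set.univ : Set (Fin 1 → X))

/-- The quotient map to the symmetric product. -/
def pr (X : Set (PP n)) (m : ℕ) : (Fin m → X) → SymPow X m := Set.rangeFactorization cyc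

/-- The cycles in `A` are differences of effective cycles of bounded degree. -/
def Bdd {X : Set (PP n)} (A : AddSubgroup (X →₀ ℤ)) : Prop :=
  ∃ (G : ℕ) (E₀ : Fin G → X), ∀ D ∈ A, ∃ E : Fin G → X, D - (cyc E - cyc E₀) ∈ ratTrivial X

/-- The group generated by the differences of points of `Y`. -/
def diffs {X : Set (PP n)} (Y : Set X) : AddSubgroup (X →₀ ℤ) :=
  AddSubgroup.closure {D | ∃ p ∈ Y, ∃ q ∈ Y, D = single p 1 - single q 1}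

def S_Push : Prop := ∀ (n : ℕ) (X : Set (PP n)), (∀ D ∈ ratTrivial X, D.degree = 0) ∧
  ∀ (K : Type) [Field K] [Algebra ℂ K], IsCurveField K →
    ∀ (η : Fin (n + 1) → K) (φ : Pl K → X), (∀ v, IsValueAt v.1 η (φ v)) →
      ∀ D E, LinEq D E → mapDomain φ D - mapDomain φ E ∈ ratTrivial X

def S_Val : Prop := ∀ (n : ℕ) (K : Type) [Field K] [Algebra ℂ K],
  (∀ (v : Pl K) (η : Fin (n + 1) → K) (x : PP n) (c : K) (r : Fin (n + 1) → ℂ) (h : r ≠ 0),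
    IsValueAt v.1 η x → (∀ b, Tends v.1 (c * η b) (r b)) → x = Projectivization.mk ℂ r h) ∧
  ∀ X : Set (PP n), zariskiClosure X ⊆ X → IsCurveField K → ∀ η : Fin (n + 1) → K, η ≠ 0 →
    (∀ (P : MvPolynomial (Fin (n + 1)) ℂ) (d : ℕ), P.IsHomogeneous d →
      (∀ z ∈ X, eval z.rep P = 0) → aeval η P = 0) →
    ∃ φ : Pl K → X, ∀ v, IsValueAt v.1 η (φ v)

def S_Act : Prop := ∀ n : ℕ,
  (∀ (σ : ℂ ≃+* ℂ) (r : Fin (n + 1) → ℂ) (h : r ≠ 0) (h' : (fun i => σ (r i)) ≠ 0),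
    act σ (Projectivization.mk ℂ r h) = Projectivization.mk ℂ _ h') ∧
  (∀ x : PP n, ∃ T : Set ℂ, T.Finite ∧ ∀ σ, Fixes σ T → act σ x = x) ∧
  ∀ X : Set (PP n),
    (∀ (L : Subfield ℂ) (σ : ℂ ≃+* ℂ), DefX L X → Fixes σ L → ∃ s : X → X, IsAct σ s) ∧
    (∀ (σ : ℂ ≃+* ℂ) (s : X → X), IsAct σ s → ∀ D ∈ ratTrivial X, mapDomain s D ∈ ratTrivial X) ∧
    (zariskiClosure X ⊆ X → ∃ T : Set ℂ, T.Countable ∧ ∀ L : Subfield ℂ, T ⊆ L → DefX L X)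

def S_Top : Prop := ∀ (n : ℕ) (X : Set (PP n)) (m : ℕ),
  (∀ (Z : Set (Fin m → X)) (x : Fin m → X), x ∈ closure Z ↔
    ∀ P d, MH P d → (∀ z ∈ Z, ev z P = 0) → ev x P = 0) ∧
  (∀ P d, MH P d → IsClosed {x : Fin m → X | ev x P = 0}) ∧
  (∀ P d (a : Fin m × Fin (n + 1) → ℂ) (x : Fin m → X), MH P d → Rep Prod.mk a x →
    (ev x P = 0 ↔ eval a P = 0)) ∧
  (∀ (j : Fin m → Fin (n + 1)) (F : MvPolynomial (Fin m × Fin (n + 1)) ℂ), ∃ P d, MH P d ∧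
    ∀ a : Fin m × Fin (n + 1) → ℂ, (∀ i, a (i, j i) = 1) → eval a P = eval a F) ∧
  (∀ (j : Fin m → Fin (n + 1)) (x : Fin m → X), (∀ i, (x i).1.rep (j i) ≠ 0) ↔
    ∃ a, (∀ i, a (i, j i) = 1) ∧ Rep Prod.mk a x) ∧
  (∀ (j : Fin m → Fin (n + 1)) (a a' : Fin m × Fin (n + 1) → ℂ) (x : Fin m → X),
    (∀ i, a (i, j i) = 1) → (∀ i, a' (i, j i) = 1) → Rep Prod.mk a x → Rep Prod.mk a' x → a = a') ∧
  ∀ (ι : Type) (e : Fin m → Fin (n + 1) → ι) (a : ι → ℂ) (x y : Fin m → X),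
    Rep e a x → Rep e a y → x = y

def S_T2 : Prop := ∀ (n : ℕ) (X : Set (PP n)), zariskiClosure X ⊆ X →
  ∀ (m : ℕ) (j : Fin m → Fin (n + 1)),
  (∀ Z : Set (Fin m → X), IsClosed Z → zeroLocus ℂ (vanishingIdeal ℂ (W j Z)) = W j Z) ∧
  (∀ Z : Set (Fin m → X), IsIrreducible Z → (W j Z).Nonempty → (vanishingIdeal ℂ (W j Z)).IsPrime) ∧
  (∀ Z Z' : Set (Fin m → X), IsClosed Z → IsClosed Z' → IsIrreducible Z' → Z ⊂ Z' →
    (W j Z').Nonempty → vanishingIdeal ℂ (W j Z') < vanishingIdeal ℂ (W j Z)) ∧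
  ∀ 𝔮 : Ideal (MvPolynomial (Fin m × Fin (n + 1)) ℂ), 𝔮.IsPrime →
    zeroLocus ℂ 𝔮 ⊆ W j (Set.univ : Set (Fin m → X)) →
      IsIrreducible (cl X 𝔮) ∧ W j (cl X 𝔮) = zeroLocus ℂ 𝔮

def S_Chain : Prop := ∀ (n : ℕ) (X : Set (PP n)), zariskiClosure X ⊆ X →
  ∀ (m : ℕ) (j : Fin m → Fin (n + 1)) (𝔮 : Ideal (MvPolynomial (Fin m × Fin (n + 1)) ℂ)),
    𝔮.IsPrime → zeroLocus ℂ 𝔮 ⊆ W j (Set.univ : Set (Fin m → X)) →
      ∃ Z : Fin (td 𝔮 + 1) → IrreducibleCloseds (Fin m → X), StrictMono Z ∧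
        ∀ i, (Z i : Set (Fin m → X)) ⊆ cl X 𝔮

def S_Up : Prop := ∀ (n : ℕ) (X : Set (PP n)), zariskiClosure X ⊆ X → ∀ m : ℕ,
  topologicalKrullDim (Fin m → X) ≤ (dimX X * m : ℕ)

def S_Q1 : Prop := ∀ (A B : Type) [TopologicalSpace A] [TopologicalSpace B] (π : A → B),
  Continuous π → IsClosedMap π → Function.Surjective π → (∀ b, (π ⁻¹' {b}).Finite) →
    topologicalKrullDim B ≤ topologicalKrullDim A

def S_Sym : Prop := ∀ (n : ℕ) (X : Set (PP n)) (m : ℕ),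
  (∀ x y : Fin m → X, pr X m x = pr X m y ↔ ∃ g : Equiv.Perm (Fin m), y = x ∘ g) ∧
  (∀ g : Equiv.Perm (Fin m), Continuous fun x : Fin m → X => x ∘ g) ∧
  Continuous (pr X m) ∧ IsClosedMap (pr X m) ∧ Function.Surjective (pr X m) ∧
  ∀ s, (pr X m ⁻¹' {s}).Finite

def S_Q2 : Prop := ∀ (n : ℕ) (X : Set (PP n)) (m r : ℕ)
  (Z : Fin (r + 1) → IrreducibleCloseds (Fin m → X)), StrictMono Z → ∀ F : Set (SymPow X m),
    (∀ i, ∀ x ∈ (Z i : Set (Fin m → X)), pr X m x ∈ F) → (r : WithBot ℕ∞) ≤ maxDim F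

def S_Pt : Prop := ∀ (n : ℕ) (X : Set (PP n)) (m : ℕ) (F : Set (SymPow X m)),
  maxDim F ≤ topologicalKrullDim (SymPow X m) ∧ (F.Nonempty → 0 ≤ maxDim F)

def S_Irr : Prop := ∀ (n : ℕ) (X : Set (PP n)),
  (IrreducibleSpace (SymPow X 1) → Irr X) ∧
  (Irr X → IrreducibleSpace (SymPow X 1)) ∧
  (X.Nonempty → (∀ (P Q : MvPolynomial (Fin (n + 1)) ℂ) (d e : ℕ), P.IsHomogeneous d →
    Q.IsHomogeneous e → (∀ x ∈ X, eval x.rep (P * Q) = 0) →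
      (∀ x ∈ X, eval x.rep P = 0) ∨ ∀ x ∈ X, eval x.rep Q = 0) → Irr X) ∧
  (Irr X → ∀ (P Q : MvPolynomial (Fin (n + 1)) ℂ) (d e : ℕ), P.IsHomogeneous d →
    Q.IsHomogeneous e → (∃ x ∈ X, eval x.rep P ≠ 0) → (∃ x ∈ X, eval x.rep Q ≠ 0) →
      ∃ x ∈ X, eval x.rep P ≠ 0 ∧ eval x.rep Q ≠ 0)

def S_Dim1 : Prop := ∀ (n : ℕ) (X : Set (PP n)), zariskiClosure X ⊆ X → Irr X → ∀ e : ℕ,
  topologicalKrullDim (SymPow X 1) ≤ e → dimX X ≤ e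

def S_Fam : Prop := ∀ (n : ℕ) (X : Set (PP n)), zariskiClosure X ⊆ X →
  ∀ (ι : Type) [Finite ι] (m : ℕ) (e : Fin m → Fin (n + 1) → ι) (𝔮 : Ideal (MvPolynomial ι ℂ)),
    𝔮.IsPrime → (∀ a ∈ zeroLocus ℂ 𝔮, ∃ x : Fin m → X, Rep e a x) →
    ∀ L : Subfield ℂ, (L : Set ℂ).Countable →
    ∀ (M : Type) [AddCommGroup M] (χ : (X →₀ ℤ) →+ M), (∀ D ∈ ratTrivial X, χ D = 0) → ∀ β : M,
      (∀ a (x : Fin m → X), GenPt L 𝔮 a → Rep e a x → χ (cyc x) = β) →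
      ∀ a ∈ zeroLocus ℂ 𝔮, ∀ x : Fin m → X, Rep e a x → χ (cyc x) = β

def S_Clo : Prop := ∀ (n : ℕ) (X : Set (PP n)), zariskiClosure X ⊆ X →
  ∀ (m : ℕ) (j : Fin m → Fin (n + 1)) (Z : Set (Fin m → X)), IsClosed Z → IsIrreducible Z →
    (W j Z).Nonempty →
    ∀ (M : Type) [AddCommGroup M] (χ : (X →₀ ℤ) →+ M), (∀ D ∈ ratTrivial X, χ D = 0) → ∀ β : M,
      (∀ a ∈ W j Z, ∀ x : Fin m → X, Rep Prod.mk a x → χ (cyc x) = β) → ∀ x ∈ Z, χ (cyc x) = β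

def S_DivK : Prop := ∀ (n : ℕ) (X : Set (PP n)), zariskiClosure X ⊆ X →
  ∀ (K : Type) [Field K] [Algebra ℂ K], IsCurveField K →
    ∀ (η : Fin (n + 1) → K) (φ : Pl K → X), (∀ v, IsValueAt v.1 η (φ v)) → ∀ k : ℕ, 0 < k →
      ∀ v w, ∃ D : X →₀ ℤ, single (φ v) 1 - single (φ w) 1 - k • D ∈ ratTrivial X

def S_DivX : Prop := ∀ (n : ℕ) (X : Set (PP n)), zariskiClosure X ⊆ X → Irr X →
  ∀ k : ℕ, 0 < k → ∀ x y : X, ∃ D : X →₀ ℤ, single x 1 - single y 1 - k • D ∈ ratTrivial X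

def S_OneK : Prop := ∀ (n : ℕ) (X : Set (PP n)), zariskiClosure X ⊆ X → Irr X →
  ∀ (A : AddSubgroup (X →₀ ℤ)) (T : Set ℂ), T.Countable →
    (∀ x : X, ∃ (k : ℕ) (D' : X →₀ ℤ), 0 < k ∧ k • single x 1 - D' ∈ ratTrivial X ∧
      ∀ (σ : ℂ ≃+* ℂ) (s : X → X), Fixes σ T → IsAct σ s → mapDomain s D' - D' ∈ A) →
    ∀ D : X →₀ ℤ, D.degree = 0 → D ∈ A ⊔ ratTrivial X

def S_Bdd : Prop := ∀ (n : ℕ) (X : Set (PP n)),
  (∀ (J : Type) [Finite J] (A : J → AddSubgroup (X →₀ ℤ)), (∀ j, Bdd (A j)) →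
    Bdd ((⨆ j, A j) ⊔ ratTrivial X)) ∧
  ∀ Y : Set X, Y.Subsingleton → Bdd (diffs Y)

def S_CV : Prop := ∀ (n : ℕ) (X : Set (PP n)), zariskiClosure X ⊆ X →
  ∀ 𝔮 : Ideal (MvPolynomial (Fin 1 × Fin (n + 1)) ℂ), 𝔮.IsPrime → td 𝔮 ≤ 1 →
    (∀ a ∈ zeroLocus ℂ 𝔮, ∃ x : Fin 1 → X, Rep Prod.mk a x) →
      Bdd (diffs {p : X | ∃ a ∈ zeroLocus ℂ 𝔮, Rep Prod.mk a fun _ : Fin 1 => p})

def S_BD : Prop := ∀ (n : ℕ) (X : Set (PP n)), zariskiClosure X ⊆ X → Irr X → dimX X ≤ 2 →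
  ∀ (F : MvPolynomial (Fin (n + 1)) ℂ) (r : ℕ), F.IsHomogeneous r → (∃ x ∈ X, eval x.rep F ≠ 0) →
    (∀ D : X →₀ ℤ, ∃ (k : ℕ) (D' : X →₀ ℤ), 0 < k ∧ (∀ x ∈ D'.support, eval x.1.rep F = 0) ∧
      k • D - D' ∈ ratTrivial X) →
    Bdd (degree : (X →₀ ℤ) →+ ℤ).ker

def S_Fib : Prop := ∀ (n : ℕ) (X : Set (PP n)), zariskiClosure X ⊆ X → Irr X →
  ∀ (G : ℕ) (E₀ : Fin G → X),
    (∀ D : X →₀ ℤ, D.degree = 0 → ∃ E : Fin G → X, D - (cyc E - cyc E₀) ∈ ratTrivial X) →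
    ∀ (m : ℕ) (x : Fin (m + G) → X), ∃ (j : Fin (m + G) → Fin (n + 1))
      (𝔮 : Ideal (MvPolynomial (Fin (m + G) × Fin (n + 1)) ℂ)), 𝔮.IsPrime ∧ dimX X * m ≤ td 𝔮 ∧
        zeroLocus ℂ 𝔮 ⊆ W j (Set.univ : Set (Fin (m + G) → X)) ∧
        ∀ a ∈ zeroLocus ℂ 𝔮, ∀ y : Fin (m + G) → X, Rep Prod.mk a y → cyc y - cyc x ∈ ratTrivial X

def S_Fin : Prop := ∀ (n : ℕ) (X : Set (PP n)), zariskiClosure X ⊆ X → Irr X →
  Bdd (degree : (X →₀ ℤ) →+ ℤ).ker → FinDim X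

/-- The image of `S` under the map given by `N`. -/
def im {ι : Type} (S : Set (ι → ℂ)) (N : Fin (n + 1) → MvPolynomial ι ℂ) : Set (PP n) :=
  {z | ∃ p ∈ S, ∃ h : (fun i => eval p (N i)) ≠ 0, z = Projectivization.mk ℂ _ h}

def S_IrrIm : Prop := ∀ (n : ℕ) (ι : Type) (S : Set (ι → ℂ)) (N : Fin (n + 1) → MvPolynomial ι ℂ),
  zariskiClosure (zariskiClosure (im S N)) ⊆ zariskiClosure (im S N) ∧
  ((vanishingIdeal ℂ S).IsPrime → (∃ p ∈ S, ∃ i, eval p (N i) ≠ 0) → Irr (zariskiClosure (im S N)))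

def S_DimIm : Prop := ∀ (n : ℕ) (ι : Type) [Finite ι] (S : Set (ι → ℂ))
  (N : Fin (n + 1) → MvPolynomial ι ℂ) (e : ℕ) (J : Set (Ideal (MvPolynomial ι ℂ))), J.Finite →
    (∀ 𝔮 ∈ J, 𝔮.IsPrime ∧ td 𝔮 ≤ e) →
    (∀ p ∈ S, ∃ 𝔮 ∈ J, ∃ p' ∈ zeroLocus ℂ 𝔮, ∃ c : ℂ, c ≠ 0 ∧
      ∀ i, eval p' (N i) = c * eval p (N i)) → dimX (zariskiClosure (im S N)) ≤ e

def S_Cone : Prop := ∀ (k : ℕ) (Φ : MvPolynomial (Fin (k + 2)) ℂ) (r : ℕ), Φ ≠ 0 →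
  Φ.IsHomogeneous r → ∃ J : Set (Ideal (MvPolynomial (Fin (k + 2)) ℂ)), J.Finite ∧
    (∀ 𝔮 ∈ J, 𝔮.IsPrime ∧ td 𝔮 ≤ k) ∧ ∀ p : Fin (k + 2) → ℂ, eval p Φ = 0 →
      ∃ 𝔮 ∈ J, ∃ c : ℂ, c ≠ 0 ∧ (fun i => c * p i) ∈ zeroLocus ℂ 𝔮

/-- If all cycles of degree zero are torsion, they are rationally equivalent to zero. -/
def S_W1 : Prop := ∀ (n : ℕ) (X : Set (PP n)), zariskiClosure X ⊆ X → Irr X →
  (∀ D : X →₀ ℤ, D.degree = 0 → ∃ m : ℕ, 0 < m ∧ m • D ∈ ratTrivial X) →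
    ∀ D : X →₀ ℤ, D.degree = 0 → D ∈ ratTrivial X

/-- If the zero-cycles of a surface are supported on a curve up to torsion, then the group of
zero-cycles modulo rational equivalence is finite-dimensional. -/
def S_W2 : Prop := ∀ (n : ℕ) (X : Set (PP n)), zariskiClosure X ⊆ X → IsSurface X →
  ∀ (F : MvPolynomial (Fin (n + 1)) ℂ) (r : ℕ), F.IsHomogeneous r → (∃ x ∈ X, eval x.rep F ≠ 0) →
    (∀ D : X →₀ ℤ, ∃ (k : ℕ) (D' : X →₀ ℤ), 0 < k ∧ (∀ x ∈ D'.support, eval x.1.rep F = 0) ∧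
      k • D - D' ∈ ratTrivial X) → FinDim X

end

end Pool.Agent.P.MP_7ebcb6_ag.FD
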