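import Pool.Agent.P.MP_7ebcb6_ag.FD.St

/-! The quotient map to the symmetric product. -/

open scoped LinearAlgebra.Projectivization
open MvPolynomial TopologicalSpace

namespace Pool.Agent.P.MP_7ebcb6_ag.FD

namespace SymP

theorem cyc_apply {α : Type} [DecidableEq α] {m : ℕ} (x : Fin m → α) (p : α) :
    cyc x p = Fintype.card {i // x i = p} := by
  rw [Fintype.card_subtype, Finset.card_filter]
  simp [cyc, Finsupp.finsetSum_apply, Finsupp.single_apply]

theorem cyc_eq_iff {α : Type} {m : ℕ} (x y : Fin m → α) :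
    cyc x = cyc y ↔ ∃ g : Equiv.Perm (Fin m), y = x ∘ g := by
  classical
  constructor
  · intro h
    have e : ∀ p, {i // y i = p} ≃ {i // x i = p} := fun p => Fintype.equivOfCardEq (by
      have h1 := DFunLike.congr_fun h p
      rw [cyc_apply, cyc_apply] at h1
      exact_mod_cast h1.symm)
    exact ⟨Equiv.ofFiberEquiv e, funext fun i => (Equiv.ofFiberEquiv_map e i).symm⟩
  · rintro ⟨g, rfl⟩
    exact (Equiv.sum_comp g fun i => Finsupp.single (x i) (1 : ℤ)).symm

theorem wh_rename {σ τ M N : Type} [AddCommMonoid M] [AddCommMonoid N] (w : σ → M) (w' : τ → N)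
    (f : σ → τ) (φ : M →+ N) (h : ∀ s, w' (f s) = φ (w s)) {P : MvPolynomial σ ℂ} {d : M}
    (hP : IsWeightedHomogeneous w P d) : IsWeightedHomogeneous w' (rename f P) (φ d) := by
  rw [← P.support_sum_monomial_coeff, map_sum]
  simp_rw [rename_monomial]
  refine IsWeightedHomogeneous.sum _ _ _ fun c hc => isWeightedHomogeneous_monomial _ _ _ ?_
  rw [← hP (mem_support_iff.mp hc), Finsupp.weight_apply, Finsupp.weight_apply,
    Finsupp.sum_mapDomain_index (by simp) (by simp [add_smul]), map_finsuppSum]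
  simp [h]

variable {n : ℕ} {X : Set (PP n)} {m : ℕ}

theorem isOpen_ne {P : MvPolynomial (Fin m × Fin (n + 1)) ℂ} {d : Fin m → ℕ} (h : MH P d) :
    IsOpen {x : Fin m → X | ev x P ≠ 0} :=
  GenerateOpen.basic _ ⟨P, d, h, rfl⟩

theorem cont_perm (g : Equiv.Perm (Fin m)) : Continuous fun x : Fin m → X => x ∘ g := by
  refine continuous_generateFrom_iff.2 ?_
  rintro _ ⟨P, d, hP, rfl⟩
  have h := wh_rename _ (fun v : Fin m × Fin (n + 1) => (Pi.single v.1 1 : Fin m → ℕ))
    (Prod.map g id) ⟨⟨fun d : Fin m → ℕ => d ∘ g.symm, rfl⟩, fun _ _ => rfl⟩ (fun s => by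
      ext j
      simp [Pi.single_apply, Equiv.symm_apply_eq]) hP
  convert isOpen_ne (X := X) h using 1
  ext x
  simp only [Set.mem_preimage, Set.mem_ofPred_eq, ev, eval_rename]
  rfl

theorem pr_eq_iff (x y : Fin m → X) :
    pr X m x = pr X m y ↔ ∃ g : Equiv.Perm (Fin m), y = x ∘ g :=
  Subtype.ext_iff.trans (cyc_eq_iff x y)

theorem preimage_image (Z : Set (Fin m → X)) :
    pr X m ⁻¹' (pr X m '' Z) = ⋃ g : Equiv.Perm (Fin m), (fun x => x ∘ g) ⁻¹' Z := by
  ext x
  simp only [Set.mem_preimage, Set.mem_image, Set.mem_iUnion]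
  constructor
  · rintro ⟨z, hz, h⟩
    obtain ⟨g, rfl⟩ := (pr_eq_iff x z).1 h.symm
    exact ⟨g, hz⟩
  · rintro ⟨g, h⟩
    exact ⟨_, h, ((pr_eq_iff x _).2 ⟨g, rfl⟩).symm⟩

theorem cont_pr : Continuous (pr X m) := continuous_coinduced_rng

theorem closedMap_pr : IsClosedMap (pr X m) := fun Z hZ => by
  refine isClosed_coinduced.2 ?_
  change IsClosed (pr X m ⁻¹' (pr X m '' Z))
  rw [preimage_image]
  exact isClosed_iUnion_of_finite fun g => hZ.preimage (cont_perm g)

theorem surj_pr : Function.Surjective (pr X m) := Set.rangeFactorization_surjective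

theorem isClosed_pt (x : Fin m → X) : IsClosed ({x} : Set (Fin m → X)) := by
  have h : ({x} : Set (Fin m → X)) = ⋂ (i : Fin m) (a : Fin (n + 1)) (b : Fin (n + 1)),
      {y : Fin m → X | ev y (C ((x i).1.rep a) * MvPolynomial.X (i, b) -
        C ((x i).1.rep b) * MvPolynomial.X (i, a)) ≠ 0}ᶜ := by
    ext y
    simp only [Set.mem_singleton_iff, Set.mem_iInter, Set.mem_compl_iff, Set.mem_ofPred_eq,
      not_not, ev, map_sub, map_mul, eval_C, eval_X]
    constructor
    · rintro rfl i a b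
      ring
    · intro h
      funext i
      obtain ⟨a, ha⟩ := Function.ne_iff.1 (x i).1.rep_nonzero
      have ha' : (x i).1.rep a ≠ 0 := ha
      apply Subtype.ext
      rw [← (y i).1.mk_rep, ← (x i).1.mk_rep, Projectivization.mk_eq_mk_iff']
      refine ⟨(y i).1.rep a / (x i).1.rep a, funext fun b => ?_⟩
      rw [Pi.smul_apply, smul_eq_mul, div_mul_eq_mul_div, div_eq_iff ha']
      linear_combination -(h i a b)
  rw [h]
  refine isClosed_iInter fun i => isClosed_iInter fun a => isClosed_iInter fun b => ?_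
  refine IsOpen.isClosed_compl (isOpen_ne (d := Pi.single i 1) ?_)
  exact ((isWeightedHomogeneous_X ℂ _ (i, b)).C_mul _).sub
    ((isWeightedHomogeneous_X ℂ _ (i, a)).C_mul _)

theorem subset_of_image {Z Z' : Set (Fin m → X)} (hZ : IsClosed Z) (hZ' : IsIrreducible Z')
    (h : Z ⊆ Z') (h' : pr X m '' Z' ⊆ pr X m '' Z) : Z' ⊆ Z := by
  classical
  obtain ⟨_, hg, h1⟩ := isIrreducible_iff_sUnion_isClosed.1 hZ'
    (Finset.univ.image fun g : Equiv.Perm (Fin m) => (fun x => x ∘ g) ⁻¹' Z)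
    (fun z hz => by
      obtain ⟨g, -, rfl⟩ := Finset.mem_image.1 hz
      exact hZ.preimage (cont_perm g))
    (fun x hx => by
      have h2 : x ∈ pr X m ⁻¹' (pr X m '' Z) := h' ⟨x, hx, rfl⟩
      rw [preimage_image] at h2
      obtain ⟨g, hg⟩ := Set.mem_iUnion.1 h2
      exact ⟨_, Finset.mem_coe.2 (Finset.mem_image.2 ⟨g, Finset.mem_univ _, rfl⟩), hg⟩)
  obtain ⟨g, -, rfl⟩ := Finset.mem_image.1 hg
  intro x hx
  have key : ∀ k : ℕ, x ∘ (g ^ (k + 1) : Equiv.Perm (Fin m)) ∈ Z := by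
    intro k
    induction k with
    | zero => simpa using h1 hx
    | succ k ih =>
      rw [pow_succ]
      exact h1 (h ih)
  have h3 := key (orderOf g - 1)
  rw [Nat.sub_add_cancel (orderOf_pos g), pow_orderOf_eq_one] at h3
  exact h3

theorem irr_preimage {T : Type} [TopologicalSpace T] {Y Z : Set T} (hZ : IsIrreducible Z)
    (h : Z ⊆ Y) : IsIrreducible ((↑) ⁻¹' Z : Set Y) := by
  obtain ⟨z, hz⟩ := hZ.nonempty
  refine ⟨⟨⟨z, h hz⟩, hz⟩, ?_⟩
  rintro _ _ ⟨u, hu, rfl⟩ ⟨v, hv, rfl⟩ ⟨x, hx, hxu⟩ ⟨y, hy, hyv⟩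
  obtain ⟨w, hw, hwu, hwv⟩ := hZ.2 u v hu hv ⟨x, hx, hxu⟩ ⟨y, hy, hyv⟩
  exact ⟨⟨w, h hw⟩, hw, hwu, hwv⟩

theorem le_maxDim {T : Type} [TopologicalSpace T] {r : ℕ} (Z : Fin (r + 1) → IrreducibleCloseds T)
    (hZ : StrictMono Z) {F : Set T} (h : (Z (Fin.last r) : Set T) ⊆ F) :
    (r : WithBot ℕ∞) ≤ maxDim F := by
  refine le_trans ?_ (le_iSup₂_of_le (Z (Fin.last r)) h le_rfl)
  have hs : ∀ i, (Z i : Set T) ⊆ Z (Fin.last r) := fun i => hZ.monotone (Fin.le_last i)
  let Z' : Fin (r + 1) → IrreducibleCloseds (Z (Fin.last r) : Set T) := fun i =>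
    ⟨(↑) ⁻¹' (Z i : Set T), irr_preimage (Z i).isIrreducible (hs i),
      (Z i).isClosed.preimage continuous_subtype_val⟩
  have hZ' : StrictMono Z' := by
    intro i j hij
    refine lt_of_le_of_ne (fun x hx => (hZ hij).le hx) fun e => (hZ hij).not_ge fun x hx => ?_
    have h1 : (⟨x, hs j hx⟩ : (Z (Fin.last r) : Set T)) ∈ Z' j := hx
    rw [← e] at h1
    exact h1
  exact Order.LTSeries.length_le_krullDim (LTSeries.mk r Z' hZ')

end SymP

open SymP

theorem thm_Sym : S_Sym := by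
  intro n X m
  refine ⟨pr_eq_iff, cont_perm, cont_pr, closedMap_pr, surj_pr, fun s => ?_⟩
  obtain ⟨x, rfl⟩ := surj_pr s
  refine (Set.finite_range fun g : Equiv.Perm (Fin m) => x ∘ g).subset fun y hy => ?_
  obtain ⟨g, rfl⟩ := (pr_eq_iff x y).1 (Eq.symm hy)
  exact ⟨g, rfl⟩

theorem thm_Q2 : S_Q2 := by
  intro n X m r Z hZ F hF
  let Z' : Fin (r + 1) → IrreducibleCloseds (SymPow X m) := fun i =>
    ⟨pr X m '' Z i, (Z i).isIrreducible.image _ cont_pr.continuousOn, closedMap_pr _ (Z i).isClosed⟩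
  refine le_maxDim Z' (fun i j hij => ?_) ?_
  · refine lt_of_le_of_ne (Set.image_mono (hZ hij).le) fun e => (hZ hij).not_ge ?_
    exact subset_of_image (Z i).isClosed (Z j).isIrreducible (hZ hij).le
      (congrArg SetLike.coe e).ge
  · rintro _ ⟨x, hx, rfl⟩
    exact hF _ x hx

theorem thm_Pt : S_Pt := by
  intro n X m F
  refine ⟨iSup₂_le fun Z _ => topologicalKrullDim_subspace_le _ _, ?_⟩
  rintro ⟨s, hs⟩
  obtain ⟨x, rfl⟩ := surj_pr s
  have hc : IsClosed ({pr X m x} : Set (SymPow X m)) := by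
    simpa using closedMap_pr _ (isClosed_pt x)
  exact le_maxDim (r := 0) (fun _ => ⟨{pr X m x}, isIrreducible_singleton, hc⟩)
    (Subsingleton.strictMono (α := Fin 1) _) (Set.singleton_subset_iff.2 hs)

end Pool.Agent.P.MP_7ebcb6_ag.FD
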